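import Pool.Agent.RieszLin.Defs

set_option autoImplicit false

open Real Finset

namespace Pool.Agent.RieszMix

open Pool.Agent.RieszLin

namespace GlobBAux

/-- lower bound for `2^(-(1+u))` -/
theorem g_low {u g : ℝ} (hu : 0 ≤ u) (hu1 : u ≤ 1) (hg : g = (2 : ℝ) ^ (-(1 + u))) :
    1 / 2 * (1 - 0.6932 * u + 0.24 * u ^ 2 - 0.0556 * u ^ 3 - 0.0121 * u ^ 4) ≤ g := by
  have hL0 := Real.log_two_gt_d9
  have hL1 := Real.log_two_lt_d9
  have h1 : g = 1 / 2 * Real.exp (-(Real.log 2 * u)) := by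
    have h8 : (1 / 2 : ℝ) = Real.exp (-(Real.log 2)) := by
      rw [Real.exp_neg, Real.exp_log (by norm_num)]
      norm_num
    rw [h8, ← Real.exp_add, hg, Real.rpow_def_of_pos (by norm_num)]
    congr 1
    ring
  obtain ⟨x, hx⟩ : ∃ x, x = Real.log 2 * u := ⟨_, rfl⟩
  have hx0 : 0 ≤ x := by rw [hx]; positivity
  have hxu : x ≤ 0.6932 * u := by rw [hx]; nlinarith
  have hxl : 0.6931 * u ≤ x := by rw [hx]; nlinarith
  have hx1 : |(-x)| ≤ 1 := by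
    rw [abs_neg, abs_of_nonneg hx0]; linarith
  have h2 := Real.exp_bound hx1 (n := 4) (by norm_num)
  have h3 := (abs_le.mp h2).1
  simp only [Finset.sum_range_succ, Finset.sum_range_zero, Nat.factorial, Nat.succ_eq_add_one,
    abs_neg, abs_of_nonneg hx0] at h3
  norm_num at h3
  have e2 : (0.6931 * u) ^ 2 ≤ x ^ 2 := by gcongr
  have e3 : x ^ 3 ≤ (0.6932 * u) ^ 3 := by gcongr
  have e4 : x ^ 4 ≤ (0.6932 * u) ^ 4 := by gcongr
  have p2 : 0 ≤ u ^ 2 := by positivity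
  have p3 : 0 ≤ u ^ 3 := by positivity
  have p4 : 0 ≤ u ^ 4 := by positivity
  have h5 : 1 - 0.6932 * u + 0.24 * u ^ 2 - 0.0556 * u ^ 3 - 0.0121 * u ^ 4 ≤ Real.exp (-x) := by
    nlinarith
  rw [h1, ← hx]
  linarith

/-- upper bound (chord) for `2^(-(1+u))` -/
theorem g_up {u g : ℝ} (hu : 0 ≤ u) (hu1 : u ≤ 1) (hg : g = (2 : ℝ) ^ (-(1 + u))) :
    g ≤ 1 / 2 - u / 4 := by
  have h1 : g = Real.exp (-(Real.log 2) * (1 + u)) := by
    rw [hg, Real.rpow_def_of_pos (by norm_num)]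
    congr 1
    ring
  have hc := convexOn_exp.2 (Set.mem_univ (-(Real.log 2))) (Set.mem_univ (-(2 * Real.log 2)))
    (sub_nonneg.mpr hu1) hu (by ring)
  simp only [smul_eq_mul] at hc
  have e1 : (1 - u) * -(Real.log 2) + u * -(2 * Real.log 2) = -(Real.log 2) * (1 + u) := by ring
  rw [e1, ← h1] at hc
  have e2 : Real.exp (-(Real.log 2)) = 1 / 2 := by
    rw [Real.exp_neg, Real.exp_log (by norm_num)]
    norm_num
  have e3 : Real.exp (-(2 * Real.log 2)) = 1 / 4 := by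
    have : -(2 * Real.log 2) = -(Real.log 2) + -(Real.log 2) := by ring
    rw [this, Real.exp_add, e2]
    norm_num
  rw [e2, e3] at hc
  linarith

theorem p2_low {u y : ℝ} (hu : 0 ≤ u) (hu1 : u ≤ 1) (hy : 3 / 4 + u / 8 ≤ y) :
    9 / 64 + 0.114 * u ≤ psi2 (1 + u) * y ^ 2 := by
  have h1 : (3 / 4 + u / 8) ^ 2 ≤ y ^ 2 := by gcongr
  have h2 : 0 < 1 + u + 1 := by linarith
  have h3 : psi2 (1 + u) = (1 + u) / (2 * (1 + u + 1)) := by
    unfold psi2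
    field_simp
  have h4 : 9 / 64 + 0.114 * u ≤ psi2 (1 + u) * (3 / 4 + u / 8) ^ 2 := by
    rw [h3, div_mul_eq_mul_div, le_div_iff₀ (by positivity)]
    have h5 : 0 ≤ u * (0.816 - 1.592 * u + u ^ 2) := by
      apply mul_nonneg hu
      nlinarith [sq_nonneg (u - 0.796)]
    nlinarith
  have h6 : 0 ≤ psi2 (1 + u) := by rw [h3]; positivity
  calc 9 / 64 + 0.114 * u ≤ psi2 (1 + u) * (3 / 4 + u / 8) ^ 2 := h4
    _ ≤ psi2 (1 + u) * y ^ 2 := by gcongr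

theorem p3_low {u y : ℝ} (hu : 0 ≤ u) (hy : 3 / 4 + u / 8 ≤ y) :
    27 / 512 + 0.0439 * u ≤ psi3 (1 + u) * y ^ 3 := by
  have h1 : (3 / 4 + u / 8) ^ 3 ≤ y ^ 3 := by gcongr
  have h2 : 0 < 1 + u + 1 := by linarith
  have h3 : psi3 (1 + u) = (1 + u) * (3 + u) / (6 * (1 + u + 1) ^ 2) := by
    unfold psi3
    field_simp
    ring
  have h4 : 27 / 512 + 0.0439 * u ≤ psi3 (1 + u) * (3 / 4 + u / 8) ^ 3 := by
    rw [h3, div_mul_eq_mul_div, le_div_iff₀ (by positivity)]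
    have p2 : 0 ≤ u ^ 2 := by positivity
    have p3 : 0 ≤ u ^ 3 := by positivity
    have p4 : 0 ≤ u ^ 4 := by positivity
    have p5 : 0 ≤ u ^ 5 := by positivity
    nlinarith
  have h6 : 0 ≤ psi3 (1 + u) := by rw [h3]; positivity
  calc 27 / 512 + 0.0439 * u ≤ psi3 (1 + u) * (3 / 4 + u / 8) ^ 3 := h4
    _ ≤ psi3 (1 + u) * y ^ 3 := by gcongr

end GlobBAux

open GlobBAux

/-- MODULE RM20. One-variable inequality, `g = 2^(-q)`, `Y = 1 - g/2`, `Ψ(Y) = 1 - (q+2) g/2 =: F`.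
Right minus left: `.00040` at `q = 1`, `.00080` at `1.05`, `.00124` at `1.1`, `.0023` at `1.2`,
`.0042` at `1.35`, `.0066` at `1.5`, `.0116` at `1.75`, `.0179` at `q = 2`. With `u = q-1 ∈ [0,1]`,
`2g = exp(-u log 2)` and Taylor bounds, e.g.
`1 - Lu + L²u²/2 - L³u³/6 ≤ 2g ≤ 1 - Lu + L²u²/2`, `L = log 2 ∈ (.6931471, .6931472)` (near `u = 0` this is
enough, further out use more terms or case splitting). -/
theorem scal_493 {q g : ℝ} (hq : 1 ≤ q) (hq2 : q ≤ 2) (hg : g = (2 : ℝ) ^ (-q)) :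
    psi2 q * (1 - g / 2) ^ 2 * (17 / 8) ^ 2 * (1 - 0.493)
        + psi3 q * (1 - g / 2) ^ 3 * (17 / 8) ^ 3 * (0.493 - 0.493 ^ 2)
        + ((1 - (q + 2) * g / 2) - psi2 q * (1 - g / 2) ^ 2 - psi3 q * (1 - g / 2) ^ 3)
          * (17 / 8) ^ 4 * (0.493 ^ 2 - 0.493 ^ 3)
      < q * (1 - g / 2) * (17 / 8) - (2 * (q + 1) - 4 * (1 - g / 2)
          + 2 * q / 400 * (1.0102 * (q + 1) - 2 * (1 - g / 2))) := by
  obtain ⟨u, rfl⟩ : ∃ u, q = 1 + u := ⟨q - 1, by ring⟩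
  have hu : 0 ≤ u := by linarith
  have hu1 : u ≤ 1 := by linarith
  have hgl := g_low hu hu1 hg
  have hgu := g_up hu hu1 hg
  have hp2 := p2_low hu hu1 (y := 1 - g / 2) (by linarith)
  have hp3 := p3_low hu (y := 1 - g / 2) (by linarith)
  obtain ⟨a, ha⟩ : ∃ a, a = psi2 (1 + u) * (1 - g / 2) ^ 2 := ⟨_, rfl⟩
  obtain ⟨b, hb⟩ : ∃ b, b = psi3 (1 + u) * (1 - g / 2) ^ 3 := ⟨_, rfl⟩
  rw [← ha] at hp2 ⊢
  rw [← hb] at hp3 ⊢
  -- the coefficient of `g` is positive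
  have hg2 : 0 ≤ (g - 1 / 2 * (1 - 0.6932 * u + 0.24 * u ^ 2 - 0.0556 * u ^ 3 - 0.0121 * u ^ 4)) *
      ((1 + u) * (-(17 / 16) - 1 / 200) - 2 + (17 / 8) ^ 4 * (0.493 ^ 2 - 0.493 ^ 3) * (3 + u) / 2) := by
    apply mul_nonneg (by linarith)
    nlinarith
  have p2 : 0 ≤ u ^ 2 := by positivity
  have p3 : 0 ≤ u ^ 3 := by positivity
  have p4 : 0 ≤ u ^ 4 := by positivity
  have p5 : 0 ≤ u ^ 5 := by positivity
  have q2 : u ^ 2 ≤ u := by nlinarith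
  have q3 : u ^ 3 ≤ u ^ 2 := by nlinarith
  have q4 : u ^ 4 ≤ u ^ 3 := by nlinarith
  have q5 : u ^ 5 ≤ u ^ 4 := by nlinarith
  nlinarith

end Pool.Agent.RieszMix
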