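import Pool.Agent.RieszMix.GlobA
import Pool.Agent.RieszMix.GlobB

set_option autoImplicit false

open Real Finset

namespace Pool.Agent.RieszMix

open Pool.Agent.RieszLin

section

variable {ι : Type*} [Fintype ι] [DecidableEq ι] {a : ι → ℝ}

/-- MODULE RM21. Global part for `1 ≤ q ≤ 2` when `A4 ≥ .493`: `Psi_sum` with `z = 17/8`, `scal_mono`,
`scal_493` (`YY_eq`, `Psi_YY`), `J0_bound`, `glob_red` with `t = YY q * (17/8)`; same pattern as
`glob_main` in RieszLin/Global.lean. `2q/(m-1) ≤ 2q/400`, `1.0102(q+1) - 2Y ≥ 0`. -/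
theorem glob_main2 {q m : ℝ} (hq : 1 ≤ q) (hq2 : q ≤ 2) (hm : 401 ≤ m)
    (hcard : (Fintype.card ι : ℝ) = m + 2)
    (h0 : ∑ i, a i = 0) (h2 : ∑ i, a i ^ 2 = 1) (hP : ∀ i j, i ≠ j → a i * a j ≤ 8 / 17)
    (h4 : 0.493 ≤ ∑ i, a i ^ 4) :
    ∃ A B : ℝ, (∀ i j, i ≠ j → 0 < Kf (kap q m) A B a i j) ∧
    TT q m < (q + 1) * offsum (fun i j => Kf (kap q m) A B a i j ^ (q / (q + 1)))
      - q * kap q m * (m + 2) ^ 2 := by
  have hg0 : (0 : ℝ) < 2 ^ (-q) := Real.rpow_pos_of_pos (by norm_num) _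
  have hg1 : (2 : ℝ) ^ (-q) ≤ 1 :=
    Real.rpow_le_one_of_one_le_of_nonpos (by norm_num) (by linarith)
  have hYe := YY_eq q
  have hY0 : 1 / 2 ≤ YY q := by linarith
  have hY1 : YY q < 1 := by linarith
  have hx1 : ∑ i, a i ^ 4 ≤ 1 := by
    rw [← h2]
    refine Finset.sum_le_sum fun i _ => ?_
    have h3 : a i ^ 2 ≤ 1 := by
      rw [← h2]
      exact Finset.single_le_sum (f := fun i => a i ^ 2) (fun j _ => sq_nonneg (a j))
        (Finset.mem_univ i)
    nlinarith [sq_nonneg (a i)]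
  have h3 := Psi_sum (a := a) (q := q) (z := 17 / 8) (by linarith) (by norm_num) h2
    (fun i j hij => by
      have := hP i j hij
      linarith)
  have h4 := scal_mono hq hq2 h4 hx1
  have h6 := scal_493 hq hq2 (rfl : (2 : ℝ) ^ (-q) = (2 : ℝ) ^ (-q))
  have hPsi := Psi_YY (q := q) (by linarith)
  rw [← hYe, ← hPsi] at h6
  have h5 := J0_bound (q := q) (m := m) (by linarith) (by linarith)
  have h7 : 2 * q / (m - 1) * (1.0102 * (q + 1) - 2 * YY q)
      ≤ 2 * q / 400 * (1.0102 * (q + 1) - 2 * YY q) := by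
    refine mul_le_mul_of_nonneg_right ?_ (by linarith)
    exact div_le_div_of_nonneg_left (by linarith) (by norm_num) (by linarith)
  refine ⟨0, kap q m * (YY q * (17 / 8)), ?_⟩
  refine glob_red (t := YY q * (17 / 8)) (by linarith) (by linarith) hcard h0 h2 ?_ ?_
  · intro i j hij
    have h8 := hP i j hij
    have h9 : YY q * (17 / 8 * (a i * a j)) ≤ YY q * 1 :=
      mul_le_mul_of_nonneg_left (by linarith) (by linarith)
    linarith
  · linarith

end

end Pool.Agent.RieszMix
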