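import Pool.Agent.RieszLin.LocScal

set_option autoImplicit false

open Real Finset

namespace Pool.Agent.RieszMix

open Pool.Agent.RieszLin

/-- upper bound for the cross values `y`, `1 ≤ q ≤ 2` -/
noncomputable def ystar2 (q : ℝ) : ℝ := 0.36 * (YY q + 0.0058 * (q + 1)) + 0.0035

namespace Scal2Aux

lemma YY_nonneg {q : ℝ} (hq : 1 ≤ q) : 0 ≤ YY q := by
  unfold YY
  have : (2 : ℝ) ^ (-(q + 1)) ≤ (2 : ℝ) ^ (0 : ℝ) :=
    Real.rpow_le_rpow_of_exponent_le (by norm_num) (by linarith)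
  rw [Real.rpow_zero] at this
  linarith

lemma YY_le_two {q : ℝ} (hq2 : q ≤ 2) : YY q ≤ 0.875 := by
  unfold YY
  have : (2 : ℝ) ^ (-(3 : ℝ)) ≤ (2 : ℝ) ^ (-(q + 1)) :=
    Real.rpow_le_rpow_of_exponent_le (by norm_num) (by linarith)
  have h8 : (2 : ℝ) ^ (-(3 : ℝ)) = 1 / 8 := by
    have : (-(3 : ℝ)) = ((-3 : ℤ) : ℝ) := by push_cast; norm_num
    rw [this, Real.rpow_intCast]
    norm_num
  rw [h8] at this
  linarith

/-- tangent bound at `q = 1` -/
lemma YY_le_lin {q : ℝ} (hq : 1 ≤ q) : YY q ≤ 0.75 + 0.1733 * (q - 1) := by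
  unfold YY
  have h1 : (2 : ℝ) ^ (-(q + 1)) = 1 / 4 * (2 : ℝ) ^ (-(q - 1)) := by
    have : (-(q + 1)) = ((-2 : ℤ) : ℝ) + (-(q - 1)) := by push_cast; ring
    rw [this, Real.rpow_add (by norm_num), Real.rpow_intCast]
    norm_num
  have h2 : 1 - (q - 1) * Real.log 2 ≤ (2 : ℝ) ^ (-(q - 1)) := by
    rw [Real.rpow_def_of_pos (by norm_num)]
    have := Real.add_one_le_exp (Real.log 2 * (-(q - 1)))
    linarith
  have h3 : Real.log 2 < 0.6931471808 := Real.log_two_lt_d9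
  have h4 : (q - 1) * Real.log 2 ≤ (q - 1) * 0.6932 := by
    apply mul_le_mul_of_nonneg_left _ (by linarith)
    linarith
  rw [h1]
  linarith

/-- polynomial majorant of `chib` -/
lemma chib_le_poly {q z T Z S : ℝ} (hq : 0 < q) (hT : q / (q + 1) ≤ T) (hT1 : T ≤ 0.75)
    (hz0 : 0 ≤ z) (hz : z ≤ Z) (hZ : Z < 1) (hS : Z ^ 2 / (1 - Z) ≤ S) :
    chib q z ≤ T / 2 + T * (2 - T) / 6 * Z + T * (2 - T) * (3 - T) / 24 * S := by
  have h0 : 0 < q / (q + 1) := by positivity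
  unfold chib
  have h2 : psi2 q ≤ T / 2 := by unfold psi2; linarith
  have h3 : psi3 q * z ≤ T * (2 - T) / 6 * Z :=
    mul_le_mul (LocScalAux.psi3_le hq hT (by linarith)) hz hz0 (by
      have : 0 ≤ T * (2 - T) := mul_nonneg (by linarith) (by linarith)
      linarith)
  have hp4 : psi4 q ≤ T * (2 - T) * (3 - T) / 24 := by
    unfold psi4
    set t := q / (q + 1) with ht
    have hd : 0 ≤ T - t := by linarith
    have key : T * (2 - T) * (3 - T) - t * (2 - t) * (3 - t)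
        = (T - t) * (6 - 5 * (T + t) + (T ^ 2 + T * t + t ^ 2)) := by ring
    have hpos : 0 ≤ 6 - 5 * (T + t) + (T ^ 2 + T * t + t ^ 2) := by
      have ht8 : t ≤ 0.75 := by linarith
      nlinarith [mul_nonneg (sub_nonneg.2 hT1) (sub_nonneg.2 ht8), sq_nonneg (T - 0.75), sq_nonneg (t - 0.75)]
    have := mul_nonneg hd hpos
    linarith
  have hS0 : 0 ≤ Z ^ 2 / (1 - Z) := div_nonneg (sq_nonneg _) (by linarith)
  have h4 : psi4 q * z ^ 2 / (1 - z) ≤ T * (2 - T) * (3 - T) / 24 * S := by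
    rw [mul_div_assoc]
    refine mul_le_mul hp4 ?_ (div_nonneg (sq_nonneg _) (by linarith)) ?_
    · refine le_trans ?_ hS
      exact div_le_div₀ (sq_nonneg _) (by nlinarith) (by linarith) (by linarith)
    · have h5 : 0 ≤ T * (2 - T) * (3 - T) :=
        mul_nonneg (mul_nonneg (by linarith) (by linarith)) (by linarith)
      linarith
  linarith

lemma chib_nonneg {q z : ℝ} (hq : 0 < q) (hz0 : 0 ≤ z) (hz1 : z < 1) : 0 ≤ chib q z := by
  unfold chib
  have h2 : 0 ≤ psi2 q := by unfold psi2; positivity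
  have h3 := LocScalAux.psi3_nonneg hq
  have h4 := LocScalAux.psi4_nonneg hq
  have : 0 ≤ psi4 q * z ^ 2 / (1 - z) := div_nonneg (mul_nonneg h4 (sq_nonneg _)) (by linarith)
  have := mul_nonneg h3 hz0
  linarith

end Scal2Aux

open Scal2Aux

theorem ystar2_bounds {q : ℝ} (hq : 1 ≤ q) (hq2 : q ≤ 2) : 0 ≤ ystar2 q ∧ ystar2 q ≤ 0.33 := by
  have h1 := YY_nonneg hq
  have h2 := YY_le_two hq2
  unfold ystar2
  constructor
  · linarith
  · linarith

/-- MODULE RM22. Scalar inequality, `1 ≤ q ≤ 2`. Left side / q: `.951` at `q = 1`, `.929` at `1.1`,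
`.897` at `1.25`, `.848` at `1.5`, `.803` at `1.75`, `.762` at `2`. (Values of `chib q (ystar2 q)`:
`.2930, .3268 (1.25), .3540 (1.5), .3763, .3949`.) E.g. bound `psi2, psi3, psi4, YY` on a few
subintervals of `[1,2]` by their values at the right end point, e.g. `[1,1.04],[1.04,1.1],...`; or use
`YY q = 1 - 2^(-q)/2`, `2^(-q) ≥ (1/2)(1-(q-1) log 2)`. -/
theorem scal_loc2 {q : ℝ} (hq : 1 ≤ q) (hq2 : q ≤ 2) :
    4.06 * chib q (ystar2 q) * (YY q + 0.0058 * (q + 1)) + chib q (ystar2 q) * (0.005 * (q + 1) ^ 2)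
      + 1.02 * chib q 0.07 * (0.0095 * (q + 1) ^ 2 + 0.13 * (YY q + 0.0058 * (q + 1))
        + 0.0045 * (q + 1)) < q := by
  obtain ⟨hy0, hy1⟩ := ystar2_bounds hq hq2
  have hY0 := YY_nonneg hq
  have hYl := YY_le_lin hq
  obtain ⟨h, rfl⟩ : ∃ h, q = 1 + h := ⟨q - 1, by ring⟩
  have hh0 : 0 ≤ h := by linarith
  have hh1 : h ≤ 1 := by linarith
  have hq0 : 0 < 1 + h := by linarith
  -- the majorants
  set Y := YY (1 + h) with hYdef
  have hYl' : Y ≤ 0.75 + 0.1733 * h := by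
    have : (1 : ℝ) + h - 1 = h := by ring
    rw [this] at hYl
    exact hYl
  have hT : (1 + h) / (1 + h + 1) ≤ 0.5 + 0.25 * h := by
    rw [div_le_iff₀ (by linarith)]
    nlinarith
  have hTle : 0.5 + 0.25 * h ≤ 0.75 := by linarith
  have hyZ : ystar2 (1 + h) ≤ 0.277676 + 0.064476 * h := by
    unfold ystar2
    rw [← hYdef]
    linarith
  have hZ1 : 0.277676 + 0.064476 * h < 1 := by linarith
  have hS : (0.277676 + 0.064476 * h) ^ 2 / (1 - (0.277676 + 0.064476 * h)) ≤ 0.10675 + 0.07121 * h := by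
    rw [div_le_iff₀ (by linarith)]
    nlinarith
  have hc1 := chib_le_poly hq0 hT hTle hy0 hyZ hZ1 hS
  have hc2 := chib_le_poly (z := 0.07) (Z := 0.07) (S := 49 / 9300) hq0 hT hTle (by norm_num) le_rfl
    (by norm_num) (by norm_num)
  have hc10 := Scal2Aux.chib_nonneg (z := ystar2 (1 + h)) hq0 hy0 (by linarith)
  have hc20 := Scal2Aux.chib_nonneg (z := 0.07) hq0 (by norm_num) (by norm_num)
  set c1 := chib (1 + h) (ystar2 (1 + h)) with hc1def
  set c2 := chib (1 + h) 0.07 with hc2def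
  set C1 := (0.5 + 0.25 * h) / 2 + (0.5 + 0.25 * h) * (2 - (0.5 + 0.25 * h)) / 6 * (0.277676 + 0.064476 * h)
    + (0.5 + 0.25 * h) * (2 - (0.5 + 0.25 * h)) * (3 - (0.5 + 0.25 * h)) / 24 * (0.10675 + 0.07121 * h)
    with hC1
  set C2 := (0.5 + 0.25 * h) / 2 + (0.5 + 0.25 * h) * (2 - (0.5 + 0.25 * h)) / 6 * 0.07
    + (0.5 + 0.25 * h) * (2 - (0.5 + 0.25 * h)) * (3 - (0.5 + 0.25 * h)) / 24 * (49 / 9300)
    with hC2
  have hV : Y + 0.0058 * (1 + h + 1) ≤ 0.7616 + 0.1791 * h := by linarith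
  have hV0 : 0 ≤ Y + 0.0058 * (1 + h + 1) := by linarith
  have e1 : c1 * (Y + 0.0058 * (1 + h + 1)) ≤ C1 * (0.7616 + 0.1791 * h) :=
    mul_le_mul hc1 hV hV0 (le_trans hc10 hc1)
  have e2 : c1 * (0.005 * (1 + h + 1) ^ 2) ≤ C1 * (0.005 * (1 + h + 1) ^ 2) :=
    mul_le_mul_of_nonneg_right hc1 (by positivity)
  have e3 : c2 * (0.0095 * (1 + h + 1) ^ 2 + 0.13 * (Y + 0.0058 * (1 + h + 1)) + 0.0045 * (1 + h + 1))
      ≤ C2 * (0.0095 * (1 + h + 1) ^ 2 + 0.13 * (0.7616 + 0.1791 * h) + 0.0045 * (1 + h + 1)) := by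
    refine mul_le_mul hc2 (by linarith) ?_ (le_trans hc20 hc2)
    have : 0 ≤ (1 + h + 1) ^ 2 := sq_nonneg _
    linarith
  have key : 4.06 * (C1 * (0.7616 + 0.1791 * h)) + C1 * (0.005 * (1 + h + 1) ^ 2)
      + 1.02 * (C2 * (0.0095 * (1 + h + 1) ^ 2 + 0.13 * (0.7616 + 0.1791 * h) + 0.0045 * (1 + h + 1)))
      < 1 + h := by
    rw [hC1, hC2]
    have p2 : h ^ 2 ≤ h := by nlinarith
    have p3 : 0 ≤ h ^ 3 := by positivity
    have p4 : 0 ≤ h ^ 4 := by positivity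
    have p5 : h ^ 5 ≤ h := by
      calc h ^ 5 = h * h ^ 4 := by ring
        _ ≤ h * 1 := mul_le_mul_of_nonneg_left (pow_le_one₀ hh0 hh1) hh0
        _ = h := by ring
    have p6 : h ^ 6 ≤ h := by
      calc h ^ 6 = h * h ^ 5 := by ring
        _ ≤ h * 1 := mul_le_mul_of_nonneg_left (pow_le_one₀ hh0 hh1) hh0
        _ = h := by ring
    nlinarith
  linarith
  
end Pool.Agent.RieszMix
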