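import Pool.Agent.RieszLin.LocId
import Pool.Agent.RieszMix.Scal2

set_option autoImplicit false

open Real Finset

namespace Pool.Agent.RieszMix

open Pool.Agent.RieszLin

namespace Pt2Aux

theorem ratio {q m : ℝ} (hq2 : q ≤ 2) (hm : 401 ≤ m) : (q + 1) / m ≤ 0.0075 := by
  have hm0 : 0 < m := by linarith
  rw [div_le_iff₀ hm0]
  linarith

theorem ratio' {q m : ℝ} (hq : 1 ≤ q) (hm : 401 ≤ m) :
    2.32 * (q + 1) / m ≤ 0.0058 * (q + 1) := by
  have hm0 : 0 < m := by linarith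
  rw [div_le_iff₀ hm0]
  nlinarith

/-- bounds which follow from `hsum` -/
theorem geo {m a1 a2 e : ℝ} (hm : 401 ≤ m) (h2 : 0 < a2)
    (h21 : a2 ≤ a1) (hP : 8 / 17 ≤ a1 * a2) (he : 0 ≤ e)
    (hsum : a1 ^ 2 + a2 ^ 2 + (a1 + a2) ^ 2 / m + e = 1) :
    e ≤ 1 / 17 ∧ (a1 - a2) ^ 2 ≤ 1 / 17 ∧ e ≤ (0.35905 * a2) ^ 2 ∧ a2 ≤ 1 ∧
      (a1 + a2) / m ≤ 0.005 * a1 ∧ 0 ≤ (a1 + a2) / m := by
  have hm0 : 0 < m := by linarith
  have h1 : 0 ≤ (a1 + a2) ^ 2 / m := by positivity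
  refine ⟨?_, ?_, ?_, ?_, ?_, ?_⟩
  · nlinarith [sq_nonneg (a1 - a2)]
  · nlinarith
  · nlinarith [sq_nonneg (a1 - 17 / 16 * a2), sq_nonneg a2]
  · nlinarith [sq_nonneg a1]
  · rw [div_le_iff₀ hm0]
    nlinarith
  · have : 0 < a1 + a2 := by linarith
    positivity

end Pt2Aux

/-- MODULE RM24. Analogue of `cross_pt`, `rest_pt`, `rest_factor` (RieszLin/LocPt.lean; adapt the
proofs). `S = e + (a1-a2)² ≤ 1/17`, `σ = (a1+a2)/m ≤ .00353`.
`e ≤ .12891 a2²` because `1 ≥ a1² + a2² + e`, `a1 ≥ 8/(17 a2)`, and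
`v - 1 - (64/289)v² ≤ 33/256` (`v = 1/a2²`), i.e. AM-GM `1 ≤ a1² + (289/256) a2²`; so
`√e ≤ .35905 a2 ≤ .35905 a1`; `B a1 a2 ≤ Y' = Y + .0058(q+1)`; `B σ √e ≤ .00163` (`B ≤ 1.9`);
`|L_i| ≤ ½(BΔ²/(2m) + |C|Δ) ≤ .00157`. -/
theorem cross_pt2 {q m a1 a2 e η A B : ℝ} (hq : 1 ≤ q) (hq2 : q ≤ 2) (hm : 401 ≤ m) (h2 : 0 < a2)
    (h21 : a2 ≤ a1) (hP : 8 / 17 ≤ a1 * a2) (he : 0 ≤ e)
    (hsum : a1 ^ 2 + a2 ^ 2 + (a1 + a2) ^ 2 / m + e = 1)
    (E1 : kap q m + 2 * A * ((a1 + a2) / m) - B * ((a1 + a2) / m) ^ 2 = 1 - y0 q m)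
    (E2 : kap q m - A * (a1 + a2) - B * (a1 * a2) = 1 - YY q)
    (hC : A - B * ((a1 + a2) / m) < 0)
    (hC' : -(A - B * ((a1 + a2) / m)) ≤ 1.64 * (q + 1) / m)
    (hB : 0 < B) (hBP : B * (a1 * a2) ≤ YY q + 2.32 * (q + 1) / m)
    (hη : η ^ 2 ≤ e) :
    (A + B * a1) * η - LL (kap q m) A B m (a1 + a2) a1 ≤ ystar2 q ∧
    (A + B * a2) * η - LL (kap q m) A B m (a1 + a2) a2 ≤ ystar2 q := by
  obtain ⟨-, g2, g3, g4, g5, g6⟩ := Pt2Aux.geo hm h2 h21 hP he hsum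
  have hr := Pt2Aux.ratio hq2 hm
  have hr' := Pt2Aux.ratio' hq hm
  have hm0 : 0 < m := by linarith
  have hY := YY_bounds hq
  have l1 := LL_add (q := q) (m := m) (a1 := a1) (a2 := a2) (A := A) (B := B) (by linarith) E1 E2
  have l2 := LL_sub (m := m) (a1 := a1) (a2 := a2) (κ := kap q m) (A := A) (B := B) hm0
  set L1 := LL (kap q m) A B m (a1 + a2) a1 with hL1
  set L2 := LL (kap q m) A B m (a1 + a2) a2 with hL2
  set σ := (a1 + a2) / m with hσ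
  set W := YY q + 0.0058 * (q + 1) with hW
  have hW0 : 0.75 ≤ W := by rw [hW]; linarith [hY.1]
  have hW1 : W ≤ 1.0174 := by rw [hW]; linarith [hY.2]
  have hBP' : B * (a1 * a2) ≤ W := by
    rw [hW]
    linarith
  have hC2 : -(A - B * σ) ≤ 0.0123 := by
    have : 1.64 * (q + 1) / m = 1.64 * ((q + 1) / m) := by ring
    rw [this] at hC'
    linarith
  have hD0 : 0 ≤ a1 - a2 := by linarith
  have hD : a1 - a2 ≤ 1 / 4 := by nlinarith
  have hq2 : 0 ≤ B * (a1 - a2) ^ 2 / (2 * m) := by positivity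
  have hCD0 : 0 ≤ -(A - B * σ) * (a1 - a2) := mul_nonneg (by linarith) hD0
  have hCD1 : -(A - B * σ) * (a1 - a2) ≤ 0.0123 * (1 / 4) :=
    mul_le_mul hC2 hD hD0 (by norm_num)
  have hL1' : 0 ≤ L1 := by linarith
  have hL2' : -L2 ≤ 0.0016 := by linarith
  have hη1 : |η| ≤ 0.35905 * a2 := by
    apply abs_le_of_sq_le_sq _ (by positivity)
    linarith
  obtain ⟨hη2, hη3⟩ := abs_le.1 hη1
  have hys : ystar2 q = 0.36 * W + 0.0035 := by
    unfold ystar2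
    rw [hW]
  -- main estimates
  have m1 : B * (a1 * (0.35905 * a2)) ≤ 0.35905 * W := by nlinarith
  have m2 : B * (σ * (0.35905 * a2)) ≤ 0.0018 * W := by
    have h3 : B * (σ * (0.35905 * a2)) ≤ B * (0.005 * a1 * (0.35905 * a2)) :=
      mul_le_mul_of_nonneg_left (mul_le_mul_of_nonneg_right g5 (by positivity)) hB.le
    nlinarith
  have key : ∀ a : ℝ, 0 ≤ a → a ≤ a1 → (A + B * a) * η ≤ 0.36085 * W := by
    intro a ha0 ha1
    have hu : A + B * a = (A - B * σ) + B * (a + σ) := by ring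
    rcases le_total 0 η with h0 | h0
    · have h4 : (A + B * a) * η ≤ B * (a + σ) * η := by
        apply mul_le_mul_of_nonneg_right _ h0
        linarith
      have h5 : B * (a + σ) * η ≤ B * (a + σ) * (0.35905 * a2) :=
        mul_le_mul_of_nonneg_left hη3 (by positivity)
      have h6 : B * (a + σ) * (0.35905 * a2) ≤ B * (a1 + σ) * (0.35905 * a2) := by
        apply mul_le_mul_of_nonneg_right _ (by positivity)
        apply mul_le_mul_of_nonneg_left _ hB.le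
        linarith
      have h7 : B * (a1 + σ) * (0.35905 * a2) =
          B * (a1 * (0.35905 * a2)) + B * (σ * (0.35905 * a2)) := by
        ring
      linarith
    · have h4 : (A + B * a) * η ≤ (A - B * σ) * η := by
        apply mul_le_mul_of_nonpos_right _ h0
        have : 0 ≤ B * (a + σ) := by positivity
        linarith
      have h5 : (A - B * σ) * η = (-(A - B * σ)) * (-η) := by ring
      have h6 : (-(A - B * σ)) * (-η) ≤ 0.0123 * 0.35905 := by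
        apply mul_le_mul hC2 _ (by linarith) (by norm_num)
        linarith
      rw [h5] at h4
      linarith
  rw [hys]
  constructor
  · have := key a1 (by linarith) le_rfl
    linarith
  · have := key a2 h2.le h21
    linarith

theorem rest_pt2 {q m a1 a2 e η θ A B : ℝ} (hq : 1 ≤ q) (hq2 : q ≤ 2) (hm : 401 ≤ m) (h2 : 0 < a2)
    (h21 : a2 ≤ a1) (hP : 8 / 17 ≤ a1 * a2) (he : 0 ≤ e)
    (hsum : a1 ^ 2 + a2 ^ 2 + (a1 + a2) ^ 2 / m + e = 1)
    (hC : A - B * ((a1 + a2) / m) < 0)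
    (hC' : -(A - B * ((a1 + a2) / m)) ≤ 1.64 * (q + 1) / m)
    (hB : 0 < B) (hBP : B * (a1 * a2) ≤ YY q + 2.32 * (q + 1) / m)
    (hη : η ^ 2 + θ ^ 2 ≤ e) :
    ((A - B * ((a1 + a2) / m)) * (η + θ) + B * (η * θ)) / (1 - y0 q m) ≤ 0.07 := by
  obtain ⟨g1, -, -, -, -, -⟩ := Pt2Aux.geo hm h2 h21 hP he hsum
  have hr := Pt2Aux.ratio hq2 hm
  have hr' := Pt2Aux.ratio' hq hm
  have hm0 : 0 < m := by linarith
  have hY := YY_bounds hq
  obtain ⟨-, hy2, hy3⟩ := y0_bounds (q := q) (m := m) (by linarith) (by linarith)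
  set C := A - B * ((a1 + a2) / m) with hCdef
  have hBP' : B * (a1 * a2) ≤ 1.0174 := by
    linarith [hY.2]
  have hC2 : -C ≤ 0.0123 := by
    have : 1.64 * (q + 1) / m = 1.64 * ((q + 1) / m) := by ring
    rw [this] at hC'
    linarith
  have hB2 : B ≤ 2.162 := by nlinarith
  have hsum2 : |η + θ| ≤ 0.35 := by
    apply abs_le_of_sq_le_sq _ (by norm_num)
    nlinarith [sq_nonneg (η - θ)]
  obtain ⟨h3, h4⟩ := abs_le.1 hsum2
  have h5 : C * (η + θ) ≤ 0.0123 * 0.35 := by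
    rcases le_total 0 (η + θ) with h0 | h0
    · have : C * (η + θ) ≤ 0 := mul_nonpos_of_nonpos_of_nonneg hC.le h0
      linarith
    · have h6 : C * (η + θ) = (-C) * (-(η + θ)) := by ring
      rw [h6]
      apply mul_le_mul hC2 (by linarith) (by linarith) (by norm_num)
  have h6 : η * θ ≤ 1 / 34 := by nlinarith [sq_nonneg (η - θ)]
  have h7 : B * (η * θ) ≤ 2.162 / 34 := by
    have h8 : B * (η * θ) ≤ B * (1 / 34) := mul_le_mul_of_nonneg_left h6 hB.le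
    linarith
  rw [div_le_iff₀ (by linarith)]
  linarith

theorem rest_factor2 {q m : ℝ} (hq : 1 ≤ q) (hq2 : q ≤ 2) (hm : 401 ≤ m) :
    (1 - 1 / m) ^ q ≤ 1.02 * (1 - y0 q m) ^ 2 := by
  have hm0 : 0 < m := by linarith
  have h1m : 1 / m ≤ 1 / 400 := by
    apply one_div_le_one_div_of_le (by norm_num)
    linarith
  have h1m0 : 0 < 1 / m := by positivity
  have hb : 0 < 1 - 1 / m := by linarith
  have h1 : 1 - y0 q m = (1 - 1 / m) ^ (q + 1) := by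
    unfold y0
    ring
  have h2 : (1 - y0 q m) ^ 2 = (1 - 1 / m) ^ q * (1 - 1 / m) ^ (q + 2) := by
    rw [h1, sq, ← Real.rpow_add hb, ← Real.rpow_add hb]
    congr 1
    ring
  have h3 : 1 - (q + 2) / m ≤ (1 - 1 / m) ^ (q + 2) := by
    have h4 := one_add_mul_self_le_rpow_one_add (s := -(1 / m)) (p := q + 2) (by linarith)
      (by linarith)
    have h5 : 1 + (q + 2) * -(1 / m) = 1 - (q + 2) / m := by ring
    have h6 : 1 + -(1 / m) = 1 - 1 / m := by ring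
    rw [h5, h6] at h4
    exact h4
  have h4 : (q + 2) / m ≤ 0.01 := by
    rw [div_le_iff₀ hm0]
    linarith
  have h5 : 1 ≤ 1.02 * (1 - 1 / m) ^ (q + 2) := by linarith
  have h6 : 0 < (1 - 1 / m) ^ q := Real.rpow_pos_of_pos hb q
  rw [h2]
  calc (1 - 1 / m) ^ q = (1 - 1 / m) ^ q * 1 := by ring
    _ ≤ (1 - 1 / m) ^ q * (1.02 * (1 - 1 / m) ^ (q + 2)) := mul_le_mul_of_nonneg_left h5 h6.le
    _ = 1.02 * ((1 - 1 / m) ^ q * (1 - 1 / m) ^ (q + 2)) := by ring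

end Pool.Agent.RieszMix
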