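import Pool.Agent.RieszLin.Local
import Pool.Agent.RieszMix.Scal2
import Pool.Agent.RieszMix.Cost2
import Pool.Agent.RieszMix.Pt2

set_option autoImplicit false

open Real Finset

namespace Pool.Agent.RieszMix

open Pool.Agent.RieszLin

namespace Local2Aux

/-- lower bound of the difference -/
lemma lower {ι : Type*} [Fintype ι] [DecidableEq ι] {a : ι → ℝ} {q m A B : ℝ}
    (hq : 1 ≤ q) (hq2 : q ≤ 2) (hm : 401 ≤ m)
    (hcard : (Fintype.card ι : ℝ) = m + 2) (h0 : ∑ i, a i = 0)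
    {i1 i2 : ι} (hne : i1 ≠ i2)
    (E1 : kap q m + 2 * A * ((a i1 + a i2) / m) - B * ((a i1 + a i2) / m) ^ 2 = 1 - y0 q m)
    (E2 : kap q m - A * (a i1 + a i2) - B * (a i1 * a i2) = 1 - YY q)
    (hB : 0 < B)
    (hK : ∀ i j, i ≠ j → 0 < Kf (kap q m) A B a i j)
    (hc1 : ∀ j ∈ (univ.erase i1).erase i2, 1 - Kf (kap q m) A B a i1 j ≤ ystar2 q)
    (hc2 : ∀ j ∈ (univ.erase i1).erase i2, 1 - Kf (kap q m) A B a i2 j ≤ ystar2 q)
    (hr : ∀ i ∈ (univ.erase i1).erase i2, ∀ j ∈ (univ.erase i1).erase i2, i ≠ j →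
      1 - Kf (kap q m) A B a i j / (1 - y0 q m) ≤ 0.07)
    {e : ℝ} (he : e = ∑ j ∈ (univ.erase i1).erase i2, (a j + (a i1 + a i2) / m) ^ 2) :
    q * B * ((a i1 - a i2) ^ 2 + m / (m - 1) * e)
      - (2 * (chib q (ystar2 q) * (((A + B * a i1) ^ 2 + (A + B * a i2) ^ 2) * e
          + (B ^ 2 * (a i1 - a i2) ^ 4 / (8 * m)
            + m * (A - B * ((a i1 + a i2) / m)) ^ 2 * (a i1 - a i2) ^ 2 / 2)))
      + 1.02 * (chib q 0.07 * (2 * m * (A - B * ((a i1 + a i2) / m)) ^ 2 * e + B ^ 2 * e ^ 2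
          + 4 * |A - B * ((a i1 + a i2) / m)| * B * (e * √e))))
    ≤ (q + 1) * offsum (fun i j => Kf (kap q m) A B a i j ^ (q / (q + 1)))
        - q * kap q m * (m + 2) ^ 2 - TT q m := by
  have hq0 : 0 < q := by linarith
  have hq1 : 1 ≤ q := by linarith
  have hm2 : 2 ≤ m := by linarith
  have hm0 : 0 < m := by linarith
  have hR : ((((univ : Finset ι).erase i1).erase i2).card : ℝ) = m := by
    rw [card_rest hne, hcard]; ring
  have hs : ∑ j ∈ (univ.erase i1).erase i2, a j = -(a i1 + a i2) := by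
    have := LocalAux.sum_all hne a
    linarith
  have hys := ystar2_bounds hq hq2
  have hys1 : ystar2 q < 1 := by linarith [hys.2]
  have hc0 : 0 ≤ chib q (ystar2 q) := chib_nonneg hq0 hys.1 hys1
  have hc0' : 0 ≤ chib q 0.07 := chib_nonneg hq0 (by norm_num) (by norm_num)
  obtain ⟨hy0, -, hy1⟩ := y0_bounds hq1 hm2
  have hy : 0 < 1 - y0 q m := by linarith
  rw [loc_energy hq1 hm2 hcard h0 hne E1 E2 hK, ← he]
  -- cross part
  have hcross : ∑ j ∈ (univ.erase i1).erase i2,
      (Psi q (1 - Kf (kap q m) A B a i1 j) + Psi q (1 - Kf (kap q m) A B a i2 j))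
      ≤ chib q (ystar2 q) * (((A + B * a i1) ^ 2 + (A + B * a i2) ^ 2) * e
          + (B ^ 2 * (a i1 - a i2) ^ 4 / (8 * m)
            + m * (A - B * ((a i1 + a i2) / m)) ^ 2 * (a i1 - a i2) ^ 2 / 2)) := by
    have hA : ∑ j ∈ (univ.erase i1).erase i2,
        (Psi q (1 - Kf (kap q m) A B a i1 j) + Psi q (1 - Kf (kap q m) A B a i2 j))
        ≤ ∑ j ∈ (univ.erase i1).erase i2,
          (chib q (ystar2 q) * (1 - Kf (kap q m) A B a i1 j) ^ 2
            + chib q (ystar2 q) * (1 - Kf (kap q m) A B a i2 j) ^ 2) := by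
      refine Finset.sum_le_sum (fun j hj => add_le_add ?_ ?_)
      · exact Psi_loc hq0 (hc1 j hj) hys.1 hys1
      · exact Psi_loc hq0 (hc2 j hj) hys.1 hys1
    refine hA.trans (le_of_eq ?_)
    rw [Finset.sum_add_distrib, ← Finset.mul_sum, ← Finset.mul_sum]
    have e1 := cross_sum (κ := kap q m) (A := A) (B := B) (a1 := a i1) hm0 hR hs
    have e2 := cross_sum (κ := kap q m) (A := A) (B := B) (a1 := a i2) hm0 hR hs
    have e3 := LocalAux.LL_sq hm2 E1 E2
    unfold Kf
    rw [e1, e2, ← he, ← e3]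
    ring
  -- rest part
  have hrest : ∑ i ∈ (univ.erase i1).erase i2, ∑ j ∈ (univ.erase i1).erase i2,
        (if i = j then 0 else Psi q (1 - Kf (kap q m) A B a i j / (1 - y0 q m)))
      ≤ chib q 0.07 / (1 - y0 q m) ^ 2 *
        (2 * m * (A - B * ((a i1 + a i2) / m)) ^ 2 * e + B ^ 2 * e ^ 2
          + 4 * |A - B * ((a i1 + a i2) / m)| * B * (e * √e)) := by
    have h1 : ∑ i ∈ (univ.erase i1).erase i2, ∑ j ∈ (univ.erase i1).erase i2,
        (if i = j then 0 else Psi q (1 - Kf (kap q m) A B a i j / (1 - y0 q m)))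
        ≤ ∑ i ∈ (univ.erase i1).erase i2, ∑ j ∈ (univ.erase i1).erase i2,
          chib q 0.07 / (1 - y0 q m) ^ 2 *
          (if i = j then 0 else ((A - B * ((a i1 + a i2) / m)) *
              ((a i + (a i1 + a i2) / m) + (a j + (a i1 + a i2) / m))
            + B * ((a i + (a i1 + a i2) / m) * (a j + (a i1 + a i2) / m))) ^ 2) := by
      refine Finset.sum_le_sum (fun i hi => Finset.sum_le_sum (fun j hj => ?_))
      split_ifs with hij
      · rw [mul_zero]
      · refine (Psi_loc hq0 (hr i hi j hj hij) (by norm_num) (by norm_num)).trans (le_of_eq ?_)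
        have : psi2 q + psi3 q * 0.07 + psi4 q * 0.07 ^ 2 / (1 - 0.07) = chib q 0.07 := rfl
        rw [this]
        unfold Kf
        rw [LocalAux.rest_K' hy E1]
        rw [div_pow]
        ring
    refine h1.trans ?_
    simp only [← Finset.mul_sum]
    refine mul_le_mul_of_nonneg_left ?_ (by positivity)
    have h2 := rest_sum (R := (univ.erase i1).erase i2) (η := fun j => a j + (a i1 + a i2) / m)
      (C := A - B * ((a i1 + a i2) / m)) hB.le hR
      (LocalAux.sum_eta hm0 hR hs rfl).1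
    simp only [← he] at h2
    exact h2
  have hfac := rest_factor2 hq hq2 hm
  have hy2 : 0 < (1 - y0 q m) ^ 2 := by positivity
  set E := 2 * m * (A - B * ((a i1 + a i2) / m)) ^ 2 * e + B ^ 2 * e ^ 2
          + 4 * |A - B * ((a i1 + a i2) / m)| * B * (e * √e) with hE
  have he0 : 0 ≤ e := by
    rw [he]; exact Finset.sum_nonneg (fun j _ => sq_nonneg _)
  have hE0 : 0 ≤ E := by
    have := Real.sqrt_nonneg e
    have := abs_nonneg (A - B * ((a i1 + a i2) / m))
    positivity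
  have hpw : 0 ≤ (1 - 1 / m) ^ q := by
    refine Real.rpow_nonneg ?_ q
    have : 1 / m ≤ 1 := by rw [div_le_one hm0]; linarith
    linarith
  have hR2 : (1 - 1 / m) ^ q * ∑ i ∈ (univ.erase i1).erase i2, ∑ j ∈ (univ.erase i1).erase i2,
        (if i = j then 0 else Psi q (1 - Kf (kap q m) A B a i j / (1 - y0 q m)))
      ≤ 1.02 * (chib q 0.07 * E) := by
    calc _ ≤ (1 - 1 / m) ^ q * (chib q 0.07 / (1 - y0 q m) ^ 2 * E) :=
          mul_le_mul_of_nonneg_left hrest hpw
      _ ≤ 1.02 * (1 - y0 q m) ^ 2 * (chib q 0.07 / (1 - y0 q m) ^ 2 * E) :=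
          mul_le_mul_of_nonneg_right hfac (by positivity)
      _ = 1.02 * (chib q 0.07 * E) := by
          field_simp
  linarith [hcross, hR2]

end Local2Aux

section

variable {ι : Type*} [Fintype ι] [DecidableEq ι] {a : ι → ℝ}

/-- MODULE RM25. Same assembly as `loc_main` (RieszLin/Local.lean; copy its proof) with
`ystar2`, `chib q 0.07`, `cross_pt2`, `rest_pt2`, `rest_factor2`, `loc_cost2`, `scal_loc2`;
`loc_solve`, `loc_energy`, `Psi_loc`, `cross_sum`, `rest_sum` are available for `q ≥ 1`, `m ≥ 200 q`. -/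
theorem loc_main2 {q m : ℝ} (hq : 1 ≤ q) (hq2 : q ≤ 2) (hm : 401 ≤ m)
    (hcard : (Fintype.card ι : ℝ) = m + 2) (h0 : ∑ i, a i = 0) (h2 : ∑ i, a i ^ 2 = 1)
    {i1 i2 : ι} (hne : i1 ≠ i2) (hpos : 0 < a i2) (hle : a i2 ≤ a i1)
    (hP : 8 / 17 ≤ a i1 * a i2) :
    ∃ A B : ℝ, (∀ i j, i ≠ j → 0 < Kf (kap q m) A B a i j) ∧
      TT q m ≤ (q + 1) * offsum (fun i j => Kf (kap q m) A B a i j ^ (q / (q + 1)))
        - q * kap q m * (m + 2) ^ 2 ∧
      ((q + 1) * offsum (fun i j => Kf (kap q m) A B a i j ^ (q / (q + 1)))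
        - q * kap q m * (m + 2) ^ 2 ≤ TT q m →
        Kf (kap q m) A B a i1 i2 = (2 : ℝ) ^ (-(q + 1)) ∧
        (∀ j, j ≠ i1 → j ≠ i2 → Kf (kap q m) A B a i1 j = 1 ∧ Kf (kap q m) A B a i2 j = 1) ∧
        (∀ i j, i ≠ i1 → i ≠ i2 → j ≠ i1 → j ≠ i2 → i ≠ j →
          Kf (kap q m) A B a i j = (1 - 1 / m) ^ (q + 1))) := by
  have hq0 : 0 < q := by linarith
  have hq1 : 1 ≤ q := by linarith
  have hm2 : 2 ≤ m := by linarith
  have hm0 : 0 < m := by linarith
  have hR : ((((univ : Finset ι).erase i1).erase i2).card : ℝ) = m := by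
    rw [card_rest hne, hcard]; ring
  have hs : ∑ j ∈ (univ.erase i1).erase i2, a j = -(a i1 + a i2) := by
    have := LocalAux.sum_all hne a
    linarith
  have ht : ∑ j ∈ (univ.erase i1).erase i2, a j ^ 2 = 1 - a i1 ^ 2 - a i2 ^ 2 := by
    have := LocalAux.sum_all hne (fun j => a j ^ 2)
    linarith
  have ht0 : 0 ≤ ∑ j ∈ (univ.erase i1).erase i2, a j ^ 2 :=
    Finset.sum_nonneg (fun j _ => sq_nonneg _)
  obtain ⟨A, B, E1, E2, hC, hC', hB, hBP, hB'⟩ :=
    loc_solve (m := m) hq1 (by linarith) hpos hle (by linarith) (by linarith)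
  obtain ⟨hsum0, hsume⟩ := LocalAux.sum_eta hm0 hR hs ht
  obtain ⟨e, he⟩ : ∃ e, e = ∑ j ∈ (univ.erase i1).erase i2, (a j + (a i1 + a i2) / m) ^ 2 :=
    ⟨_, rfl⟩
  have he0 : 0 ≤ e := by
    rw [he]; exact Finset.sum_nonneg (fun j _ => sq_nonneg _)
  have hsum : a i1 ^ 2 + a i2 ^ 2 + (a i1 + a i2) ^ 2 / m + e = 1 := by
    rw [he, hsume]; ring
  obtain ⟨hy0, -, hy1⟩ := y0_bounds hq1 hm2
  have hy : 0 < 1 - y0 q m := by linarith
  have hys := ystar2_bounds hq hq2
  have hys1 : ystar2 q < 1 := by linarith [hys.2]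
  have hη : ∀ j ∈ (univ.erase i1).erase i2, (a j + (a i1 + a i2) / m) ^ 2 ≤ e := by
    intro j hj
    rw [he]
    exact Finset.single_le_sum (f := fun k => (a k + (a i1 + a i2) / m) ^ 2)
      (fun k _ => sq_nonneg _) hj
  have hc1 : ∀ j ∈ (univ.erase i1).erase i2, 1 - Kf (kap q m) A B a i1 j ≤ ystar2 q := by
    intro j hj
    unfold Kf
    rw [LocalAux.one_sub_cross (m := m) (s := a i1 + a i2)]
    exact (cross_pt2 hq hq2 hm hpos hle hP he0 hsum E1 E2 hC hC' hB hBP (hη j hj)).1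
  have hc2 : ∀ j ∈ (univ.erase i1).erase i2, 1 - Kf (kap q m) A B a i2 j ≤ ystar2 q := by
    intro j hj
    unfold Kf
    rw [LocalAux.one_sub_cross (m := m) (s := a i1 + a i2)]
    exact (cross_pt2 hq hq2 hm hpos hle hP he0 hsum E1 E2 hC hC' hB hBP (hη j hj)).2
  have hr : ∀ i ∈ (univ.erase i1).erase i2, ∀ j ∈ (univ.erase i1).erase i2, i ≠ j →
      1 - Kf (kap q m) A B a i j / (1 - y0 q m) ≤ 0.07 := by
    intro i hi j hj hij
    unfold Kf
    rw [LocalAux.rest_K' hy E1]
    refine rest_pt2 hq hq2 hm hpos hle hP he0 hsum hC hC' hB hBP ?_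
    rw [he]
    exact LocalAux.pair_le (η := fun k => a k + (a i1 + a i2) / m) hi hj hij
  have hKsymm : ∀ i j, Kf (kap q m) A B a i j = Kf (kap q m) A B a j i := by
    intro i j; unfold Kf; ring
  have hYY := YY_bounds hq1
  have h12 : Kf (kap q m) A B a i1 i2 = 1 - YY q := E2
  have hK : ∀ i j, i ≠ j → 0 < Kf (kap q m) A B a i j := by
    have k1 : ∀ j, j ≠ i1 → 0 < Kf (kap q m) A B a i1 j := by
      intro j hj1
      by_cases hj2 : j = i2
      · rw [hj2, h12]; linarith [hYY.2]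
      · have := hc1 j (LocalAux.mem_rest hj1 hj2)
        linarith
    have k2 : ∀ j, j ≠ i2 → 0 < Kf (kap q m) A B a i2 j := by
      intro j hj2
      by_cases hj1 : j = i1
      · rw [hj1, hKsymm, h12]; linarith [hYY.2]
      · have := hc2 j (LocalAux.mem_rest hj1 hj2)
        linarith
    intro i j hij
    by_cases hi1 : i = i1
    · rw [hi1]; exact k1 j (by rw [← hi1]; exact hij.symm)
    by_cases hi2 : i = i2
    · rw [hi2]; exact k2 j (by rw [← hi2]; exact hij.symm)
    by_cases hj1 : j = i1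
    · rw [hj1, hKsymm]; exact k1 i (by rw [← hj1]; exact hij)
    by_cases hj2 : j = i2
    · rw [hj2, hKsymm]; exact k2 i (by rw [← hj2]; exact hij)
    have h1 := hr i (LocalAux.mem_rest hi1 hi2) j (LocalAux.mem_rest hj1 hj2) hij
    have h2 : 0 < Kf (kap q m) A B a i j / (1 - y0 q m) := by norm_num at h1 ⊢; linarith
    exact (div_pos_iff_of_pos_right hy).1 h2
  have hlow := Local2Aux.lower hq hq2 hm hcard h0 hne E1 E2 hB hK hc1 hc2 hr he
  have hcost : 0 < e + (a i1 - a i2) ^ 2 → _ := loc_cost2 (c := chib q (ystar2 q))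
    (c' := chib q 0.07) hq hq2 hm hpos hle hP he0 hsum hC hC' hB hBP hB'
    (chib_nonneg hq0 hys.1 hys1) (chib_nonneg hq0 (by norm_num) (by norm_num)) (scal_loc2 hq hq2)
  refine ⟨A, B, hK, ?_, ?_⟩
  · by_cases hz : 0 < e + (a i1 - a i2) ^ 2
    · have := hcost hz
      linarith
    · have hD0 : 0 ≤ (a i1 - a i2) ^ 2 := sq_nonneg _
      have he1 : e = 0 := by linarith
      have hD1 : (a i1 - a i2) ^ 2 = 0 := by linarith
      have hD : a i1 - a i2 = 0 := by simpa using hD1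
      rw [he1, hD] at hlow
      norm_num at hlow
      linarith
  · intro hle2
    have hz : ¬ 0 < e + (a i1 - a i2) ^ 2 := by
      intro hz
      have := hcost hz
      linarith
    have hD0 : 0 ≤ (a i1 - a i2) ^ 2 := sq_nonneg _
    have he1 : e = 0 := by linarith
    have hD1 : (a i1 - a i2) ^ 2 = 0 := by linarith
    have hD : a i1 - a i2 = 0 := by simpa using hD1
    have hη0 : ∀ j ∈ (univ.erase i1).erase i2, a j + (a i1 + a i2) / m = 0 := by
      intro j hj
      have h := hη j hj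
      rw [he1] at h
      have h' : (a j + (a i1 + a i2) / m) ^ 2 = 0 := le_antisymm h (sq_nonneg _)
      simpa using h'
    have hLa := LL_add (q := q) hm2 E1 E2
    have hLs := LL_sub (κ := kap q m) (A := A) (B := B) (a1 := a i1) (a2 := a i2) hm0
    rw [hD] at hLa hLs
    norm_num at hLa hLs
    have hL1 : LL (kap q m) A B m (a i1 + a i2) (a i1) = 0 := by linarith
    have hL2 : LL (kap q m) A B m (a i1 + a i2) (a i2) = 0 := by linarith
    refine ⟨?_, ?_, ?_⟩
    · rw [h12]; unfold YY; ring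
    · intro j hj1 hj2
      have hj := hη0 j (LocalAux.mem_rest hj1 hj2)
      constructor
      · have h := LocalAux.one_sub_cross (κ := kap q m) (A := A) (B := B) (m := m)
          (s := a i1 + a i2) (a1 := a i1) (b := a j)
        rw [hj, hL1] at h
        unfold Kf
        linarith
      · have h := LocalAux.one_sub_cross (κ := kap q m) (A := A) (B := B) (m := m)
          (s := a i1 + a i2) (a1 := a i2) (b := a j)
        rw [hj, hL2] at h
        unfold Kf
        linarith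
    · intro i j hi1 hi2 hj1 hj2 hij
      have hi := hη0 i (LocalAux.mem_rest hi1 hi2)
      have hj := hη0 j (LocalAux.mem_rest hj1 hj2)
      have h := LocalAux.rest_K (b := a i) (c := a j) E1
      rw [hi, hj] at h
      unfold Kf
      rw [h]
      unfold y0
      ring


end

end Pool.Agent.RieszMix
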