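import Pool.Agent.RieszMix.Defs

set_option autoImplicit false

open Real Finset

namespace Pool.Agent.RieszMix

open Pool.Agent.RieszLin

namespace MixtureAux

open MeasureTheory Set

/-- the weight `t^(p-1) / (1+t)` -/
noncomputable def Wt (p t : ℝ) : ℝ := t ^ (p - 1) / (1 + t)

theorem Wt_pos {p t : ℝ} (ht : 0 < t) : 0 < Wt p t := by
  unfold Wt
  exact div_pos (Real.rpow_pos_of_pos ht _) (by linarith)

theorem Wt_ek {p t D : ℝ} (hp : p ∈ Ioo (0 : ℝ) 1) (ht : 0 < t) (hD : 0 < D) :
    Wt p t * ek (t / (1 + t)) D = (D ^ 2)⁻¹ * rpowIntegrand₀₁ p t D := by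
  rw [rpowIntegrand₀₁_eq_pow_div hp ht.le hD.le]
  unfold Wt ek
  have h1 : 1 + t ≠ 0 := by positivity
  have h2 : t + D ≠ 0 := by positivity
  have h3 : t / (1 + t) + (1 - t / (1 + t)) * D = (t + D) / (1 + t) := by
    field_simp
    ring
  rw [h3]
  field_simp

theorem K_int {p D : ℝ} (hp : p ∈ Ioo (0 : ℝ) 1) (hD : 0 < D) :
    IntegrableOn (fun t => Wt p t * ek (t / (1 + t)) D) (Ioi 0) ∧
      ∫ t in Ioi 0, Wt p t * ek (t / (1 + t)) D =
        D ^ (-(2 - p)) * ∫ t in Ioi 0, rpowIntegrand₀₁ p t 1 := by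
  have h1 : EqOn (fun t => Wt p t * ek (t / (1 + t)) D)
      (fun t => (D ^ 2)⁻¹ * rpowIntegrand₀₁ p t D) (Ioi 0) := fun t ht => Wt_ek hp ht hD
  refine ⟨?_, ?_⟩
  · rw [integrableOn_congr_fun h1 measurableSet_Ioi]
    exact Integrable.const_mul (integrableOn_rpowIntegrand₀₁_Ioi hp hD.le) _
  · rw [setIntegral_congr_fun measurableSet_Ioi h1, integral_const_mul,
      integral_rpowIntegrand₀₁_eq_rpow_mul_const hp hD.le, ← mul_assoc]
    congr 1
    have h2 : D ^ (-(2 - p)) = D ^ ((-2 : ℝ) + p) := by congr 1; ring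
    rw [h2, Real.rpow_add hD, Real.rpow_neg hD.le]
    congr 2
    exact (Real.rpow_two D).symm

theorem int3 {μ : Measure ℝ} {f g h : ℝ → ℝ} (hf : Integrable f μ) (hg : Integrable g μ)
    (hh : Integrable h μ) (a b c : ℝ) : Integrable (fun t => a * f t + b * g t + c * h t) μ ∧
      ∫ t, (a * f t + b * g t + c * h t) ∂μ = a * ∫ t, f t ∂μ + b * ∫ t, g t ∂μ +
        c * ∫ t, h t ∂μ := by
  have h1 := hf.const_mul a
  have h2 := hg.const_mul b
  have h3 := hh.const_mul c
  have h12 : Integrable (fun t => a * f t + b * g t) μ := h1.add h2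
  refine ⟨h12.add h3, ?_⟩
  rw [integral_add h12 h3, integral_add h1 h2, integral_const_mul, integral_const_mul,
    integral_const_mul]

end MixtureAux

section

variable {ι : Type*} [Fintype ι] [DecidableEq ι]

open MixtureAux MeasureTheory in
/-- MODULE RM18. Integral mixture. For `1 < q < 2` there is a positive constant `C` with
`D^(-q) = C ∫_{t>0} t^(1-q) / (D (D+t)) dt` for all `D > 0` (substitute `t = D u`; the constant
`1/C = ∫ u^(1-q)/(1+u) du` is finite and positive). In Mathlib: the integral representation of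
`x^p`, `0 < p < 1` (`Real.rpowIntegrand₀₁`, file `IntegralRepresentation` of the continuous functional
calculus `Rpow`): with `p = 2-q`, `D^(2-q) = C ∫ t^(p) (1/t - 1/(t+D)) dt`; divide by `D²`.
With `ρ = t/(1+t) ∈ (0,1)`: `1/(D(D+t)) = (1/(1+t)) e_ρ(D)`.
Strict inequality of integrals: the difference of the two integrands is positive at every `t > 0`. -/
theorem mixture {q m : ℝ} (hq : 1 < q) (hq2 : q < 2) (hm : 2 ≤ m) {D : ι → ι → ℝ}
    (hD : ∀ i j, i ≠ j → 0 < D i j)
    (h : ∀ ρ : ℝ, 0 < ρ → ρ < 1 →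
      2 * ek ρ 2 + 4 * m * ek ρ 1 + m * (m - 1) * ek ρ (m / (m - 1))
        < offsum (fun i j => ek ρ (D i j))) :
    2 * (2 : ℝ) ^ (-q) + 4 * m + m * (m - 1) * (1 - 1 / m) ^ q
      < offsum (fun i j => D i j ^ (-q)) := by
  obtain ⟨p, hp⟩ : ∃ p : ℝ, p = 2 - q := ⟨_, rfl⟩
  have hp1 : p ∈ Set.Ioo (0 : ℝ) 1 := ⟨by linarith, by linarith⟩
  have hqp : -(2 - p) = -q := by rw [hp]; ring
  obtain ⟨I, hI⟩ : ∃ I : ℝ, I = ∫ t in Set.Ioi 0, rpowIntegrand₀₁ p t 1 := ⟨_, rfl⟩
  have hIpos : 0 < I := hI ▸ integral_rpowIntegrand₀₁_one_pos hp1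
  have hm1 : 0 < m - 1 := by linarith
  have hm0 : 0 < m := by linarith
  -- one kernel
  have hK : ∀ d : ℝ, 0 < d → IntegrableOn (fun t => Wt p t * ek (t / (1 + t)) d) (Set.Ioi 0) ∧
      ∫ t in Set.Ioi 0, Wt p t * ek (t / (1 + t)) d = d ^ (-q) * I := by
    intro d hd
    have := K_int hp1 hd
    rwa [hqp, ← hI] at this
  -- the functions
  obtain ⟨g, hg⟩ : ∃ g : ℝ → ι → ι → ℝ, g = fun t i j =>
    if i = j then 0 else Wt p t * ek (t / (1 + t)) (D i j) := ⟨_, rfl⟩
  have hgint : ∀ i j, Integrable (fun t => g t i j) (volume.restrict (Set.Ioi 0)) ∧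
      ∫ t in Set.Ioi 0, g t i j = (if i = j then 0 else D i j ^ (-q)) * I := by
    intro i j
    rw [hg]
    by_cases hij : i = j
    · simp only [hij, if_true, zero_mul, integral_zero]
      exact ⟨integrable_zero _ _ _, trivial⟩
    · simp only [hij, if_false]
      exact hK _ (hD i j hij)
  obtain ⟨R, hR⟩ : ∃ R : ℝ → ℝ, R = fun t => ∑ i, ∑ j, g t i j := ⟨_, rfl⟩
  have hRint : Integrable R (volume.restrict (Set.Ioi 0)) := by
    rw [hR]
    exact integrable_finset_sum _ fun i _ => integrable_finset_sum _ fun j _ => (hgint i j).1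
  have hRval : ∫ t in Set.Ioi 0, R t = offsum (fun i j => D i j ^ (-q)) * I := by
    rw [hR, integral_finset_sum _ fun i _ => integrable_finset_sum _ fun j _ => (hgint i j).1]
    unfold offsum
    rw [Finset.sum_mul]
    refine Finset.sum_congr rfl fun i _ => ?_
    rw [integral_finset_sum _ fun j _ => (hgint i j).1, Finset.sum_mul]
    exact Finset.sum_congr rfl fun j _ => (hgint i j).2
  obtain ⟨k1, k1v⟩ := hK 2 (by norm_num)
  obtain ⟨k2, k2v⟩ := hK 1 one_pos
  obtain ⟨k3, k3v⟩ := hK (m / (m - 1)) (by positivity)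
  obtain ⟨L, hL⟩ : ∃ L : ℝ → ℝ, L = fun t => 2 * (Wt p t * ek (t / (1 + t)) 2) +
    4 * m * (Wt p t * ek (t / (1 + t)) 1) +
    m * (m - 1) * (Wt p t * ek (t / (1 + t)) (m / (m - 1))) := ⟨_, rfl⟩
  have hLint : Integrable L (volume.restrict (Set.Ioi 0)) := by
    rw [hL]
    exact (int3 k1 k2 k3 2 (4 * m) (m * (m - 1))).1
  have hLval : ∫ t in Set.Ioi 0, L t = (2 * (2 : ℝ) ^ (-q) + 4 * m +
      m * (m - 1) * (1 - 1 / m) ^ q) * I := by
    rw [hL, (int3 k1 k2 k3 2 (4 * m) (m * (m - 1))).2, k1v, k2v, k3v, Real.one_rpow]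
    have h1 : (m / (m - 1)) ^ (-q) = (1 - 1 / m) ^ q := by
      rw [Real.rpow_neg (by positivity), ← Real.inv_rpow (by positivity)]
      congr 1
      field_simp
    rw [h1]
    ring
  have hpos : 0 < ∫ t in Set.Ioi 0, (R t - L t) := by
    have hGpos : ∀ t ∈ Set.Ioi (0 : ℝ), 0 < R t - L t := by
      intro t ht
      have ht' : 0 < t := ht
      have h1 := h (t / (1 + t)) (by positivity) (by
        rw [div_lt_one (by positivity)]
        linarith)
      have h2 : R t - L t = Wt p t * (offsum (fun i j => ek (t / (1 + t)) (D i j)) -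
          (2 * ek (t / (1 + t)) 2 + 4 * m * ek (t / (1 + t)) 1 +
            m * (m - 1) * ek (t / (1 + t)) (m / (m - 1)))) := by
        have h3 : R t = Wt p t * offsum (fun i j => ek (t / (1 + t)) (D i j)) := by
          rw [hR, hg]
          unfold offsum
          rw [Finset.mul_sum]
          refine Finset.sum_congr rfl fun i _ => ?_
          rw [Finset.mul_sum]
          refine Finset.sum_congr rfl fun j _ => ?_
          by_cases hij : i = j
          · simp [hij]
          · simp [hij]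
        rw [h3, hL]
        ring
      rw [h2]
      exact mul_pos (Wt_pos ht') (by linarith)
    rw [integral_pos_iff_support_of_nonneg_ae]
    · have h1 : Set.Ioi (0 : ℝ) ⊆ Function.support (fun t => R t - L t) :=
        fun t ht => (hGpos t ht).ne'
      have h2 : (volume.restrict (Set.Ioi (0 : ℝ))) (Set.Ioi 0) ≤
          (volume.restrict (Set.Ioi (0 : ℝ))) (Function.support (fun t => R t - L t)) :=
        measure_mono h1
      rw [Measure.restrict_apply_self, Real.volume_Ioi] at h2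
      exact lt_of_lt_of_le (by simp) h2
    · exact ae_restrict_of_forall_mem measurableSet_Ioi fun t ht => (hGpos t ht).le
    · exact hRint.sub hLint
  rw [integral_sub hRint hLint, hRval, hLval, ← sub_mul] at hpos
  have := (mul_pos_iff_of_pos_right hIpos).1 hpos
  linarith

end

end Pool.Agent.RieszMix
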