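import Pool.Agent.RieszMix.Basic

set_option autoImplicit false

open Real Finset

namespace Pool.Agent.RieszMix

open Pool.Agent.RieszLin

namespace STermAux

/-- `P s² - h s ≥ - h² / (4 P)` -/
theorem quad {P s h : ℝ} (hP : 0 < P) : -(h ^ 2) / (4 * P) ≤ P * s ^ 2 - h * s := by
  rw [div_le_iff₀ (by positivity)]
  nlinarith [sq_nonneg (2 * P * s - h)]

/-- the exact form of `Γ` -/
theorem GG_form {ρ d : ℝ} (h0 : 0 < ρ) (h1 : ρ < 1) (_hd0 : 0 ≤ d) (hd1 : d ≤ 1) :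
    GG ρ d = 2 * kp ρ - (1 + (1 - ρ) + (1 - ρ) ^ 2 + 3 * (1 - ρ) ^ 3) * d
      + d ^ 2 * (1 - ρ) ^ 2 * (((1 - ρ) * om ρ d) * ((1 - ρ) * om ρ d + 3 * (1 - ρ) - 2)) := by
  have h2 : 1 - ρ * d ≠ 0 := by nlinarith
  have h3 : ρ ≠ 0 := h0.ne'
  have hw : om ρ d * (1 - ρ * d) = 1 := by
    unfold om
    exact one_div_mul_cancel h2
  unfold GG kp
  rw [div_eq_iff h3]
  linear_combination ((1 - ρ) ^ 4 * d * om ρ d - (1 - ρ) ^ 3 * (2 + (2 - 3 * (1 - ρ)) * d)) * hw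

/-- bound for the remainder -/
theorem rem_bd {ρ d : ℝ} (h0 : 0 < ρ) (h1 : ρ < 1) (hd0 : 0 ≤ d) (hd1 : d ≤ 1) :
    (GG ρ d - (2 * kp ρ - (1 + (1 - ρ) + (1 - ρ) ^ 2 + 3 * (1 - ρ) ^ 3) * d)) ^ 2
      ≤ 4 * (1 - ρ) ^ 4 * d ^ 4 := by
  obtain ⟨h2, h3, h4, -⟩ := om_facts h0 h1 hd0 hd1
  rw [GG_form h0 h1 hd0 hd1]
  set t := (1 - ρ) * om ρ d with ht
  have h5 : 0 ≤ t := by
    rw [ht]
    exact mul_nonneg (by linarith) (by linarith)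
  have h6 : (t * (t + 3 * (1 - ρ) - 2)) ^ 2 ≤ 4 := by
    have h7 : t ^ 2 ≤ 1 := by nlinarith
    have h8 : (t + 3 * (1 - ρ) - 2) ^ 2 ≤ 4 := by
      nlinarith
    rw [mul_pow]
    nlinarith [sq_nonneg (t + 3 * (1 - ρ) - 2), sq_nonneg t]
  have h9 : (2 * kp ρ - (1 + (1 - ρ) + (1 - ρ) ^ 2 + 3 * (1 - ρ) ^ 3) * d
      + d ^ 2 * (1 - ρ) ^ 2 * (t * (t + 3 * (1 - ρ) - 2))
      - (2 * kp ρ - (1 + (1 - ρ) + (1 - ρ) ^ 2 + 3 * (1 - ρ) ^ 3) * d)) ^ 2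
      = (d ^ 4 * (1 - ρ) ^ 4) * (t * (t + 3 * (1 - ρ) - 2)) ^ 2 := by ring
  rw [h9]
  have h10 : 0 ≤ d ^ 4 * (1 - ρ) ^ 4 := by positivity
  nlinarith

theorem sq2 {R y X : ℝ} (h : R ^ 2 ≤ X) : (R - y) ^ 2 ≤ 2 * y ^ 2 + 2 * X := by
  nlinarith [sq_nonneg (R + y)]

/-- final inequality -/
theorem fin_bd {δ β P X : ℝ} (hδ0 : 0 < δ) (hδ1 : δ < 1) (hβ0 : 0 < β) (hβ1 : β ≤ 3 * (1 + δ))
    (hP : 399 * (1 + δ) ≤ P) (hX : 0 ≤ X) :
    (2 * β ^ 2 * X + 2.01 * δ ^ 4) / (4 * P) ≤ 0.023 * X + 0.00126 * δ ^ 4 / (1 + δ) := by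
  have hP0 : 0 < P := by linarith
  have h7 : 2 * β ^ 2 ≤ 0.023 * (4 * P) := by
    have h8 : β ^ 2 ≤ 9 * (1 + δ) ^ 2 := by nlinarith
    have h9 : (1 + δ) ^ 2 ≤ 2 * (1 + δ) := by nlinarith
    norm_num
    linarith
  have h9 : 2.01 * δ ^ 4 / (4 * P) ≤ 0.00126 * δ ^ 4 / (1 + δ) := by
    rw [div_le_div_iff₀ (by positivity) (by positivity)]
    have h10 : 0 ≤ δ ^ 4 := by positivity
    have h11 : 2.01 * (1 + δ) ≤ 0.00126 * (4 * P) := by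
      norm_num
      linarith
    have h12 := mul_le_mul_of_nonneg_left h11 h10
    linarith
  rw [add_div]
  refine add_le_add ?_ h9
  rw [div_le_iff₀ (by positivity)]
  have h13 := mul_le_mul_of_nonneg_left h7 hX
  linarith

end STermAux

open STermAux

section

variable {ι : Type*} [Fintype ι] [DecidableEq ι] {V : Type*} [NormedAddCommGroup V]
  [InnerProductSpace ℝ V]

/-- MODULE RM11. With `h i = G i - c0 - c1 a i`, `H = ∑ h x`, `S = ∑ x`: `∑ G x = c0 S + H`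
(`∑ a x = 0`), so the right side is `(1/n)((nK-c0)‖S‖² - ⟪H,S⟫) ≥ -‖H‖²/(4n(nK-c0))` and
`‖H‖² ≤ (∑|h|)² ≤ n ∑ h²`. -/
theorem sterm {x : ι → V} (hx : ∀ i, ‖x i‖ = 1) {a : ι → ℝ} (hax : ∑ i, a i • x i = 0)
    {n K c0 c1 : ℝ} (hcard : (Fintype.card ι : ℝ) = n) (hn : 0 < n) (hpos : 0 < n * K - c0)
    (G : ι → ℝ) :
    -(∑ i, (G i - c0 - c1 * a i) ^ 2) / (4 * (n * K - c0))
      ≤ K * ‖∑ i, x i‖ ^ 2 - 1 / n * (inner ℝ (∑ i, G i • x i) (∑ i, x i) : ℝ) := by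
  set h : ι → ℝ := fun i => G i - c0 - c1 * a i with hh
  have h1 : ∑ i, G i • x i = ∑ i, h i • x i + c0 • ∑ i, x i := by
    have h2 : ∑ i, h i • x i = ∑ i, G i • x i - c0 • ∑ i, x i - c1 • ∑ i, a i • x i := by
      rw [Finset.smul_sum, Finset.smul_sum, ← Finset.sum_sub_distrib, ← Finset.sum_sub_distrib]
      refine Finset.sum_congr rfl (fun i _ => ?_)
      rw [hh]
      simp only [sub_smul, smul_smul]
    rw [h2, hax, smul_zero, sub_zero, sub_add_cancel]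
  set S := ∑ i, x i with hS
  set H := ∑ i, h i • x i with hH
  rw [h1, inner_add_left, inner_smul_left, real_inner_self_eq_norm_sq]
  have h3 : ‖H‖ ^ 2 ≤ n * ∑ i, h i ^ 2 := by
    have h4 : ‖H‖ ≤ ∑ i, |h i| := by
      refine (norm_sum_le _ _).trans (le_of_eq ?_)
      refine Finset.sum_congr rfl (fun i _ => ?_)
      rw [norm_smul, hx i, mul_one, Real.norm_eq_abs]
    have h5 : (∑ i, |h i|) ^ 2 ≤ (Fintype.card ι : ℝ) * ∑ i, |h i| ^ 2 := by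
      have := sq_sum_le_card_mul_sum_sq (s := (Finset.univ : Finset ι)) (f := fun i => |h i|)
      rw [Finset.card_univ] at this
      exact this
    rw [hcard] at h5
    simp only [sq_abs] at h5
    have h6 : 0 ≤ ‖H‖ := norm_nonneg _
    nlinarith
  have h7 : (inner ℝ H S : ℝ) ≤ ‖H‖ * ‖S‖ := real_inner_le_norm H S
  have h8 := quad (P := n * K - c0) (s := ‖S‖) (h := ‖H‖) hpos
  have h9 : -(∑ i, h i ^ 2) / (4 * (n * K - c0)) ≤ 1 / n * (-(‖H‖ ^ 2) / (4 * (n * K - c0))) := by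
    rw [one_div, inv_mul_eq_div, div_div, div_le_div_iff₀ (by positivity) (by positivity)]
    nlinarith
  have h10 : K * ‖S‖ ^ 2 - 1 / n * ((inner ℝ H S : ℝ) + (starRingEnd ℝ) c0 * ‖S‖ ^ 2)
      = 1 / n * ((n * K - c0) * ‖S‖ ^ 2 - (inner ℝ H S : ℝ)) := by
    have : (starRingEnd ℝ) c0 = c0 := rfl
    rw [this]
    field_simp
    ring
  refine h9.trans ?_
  rw [h10]
  refine mul_le_mul_of_nonneg_left ?_ (by positivity)
  linarith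

/-- MODULE RM12. `δ = 1-ρ`, `β = 1+δ+δ²+3δ³`, `t = δ ω(d)`:
`Γ(d) = 2κ - β d + d² δ² t (t + 3δ - 2)` (exact identity, checked with rational arithmetic).
Apply `sterm` with `K = 2-ρ = 1+δ`, `c0 = 2κ - 2β/n`, `c1 = -β A3`:
`h i = -β r i + rem i`, `r i = a i² - A3 a i - 1/n`, `∑ r² = A4 - A3² - 1/n`,
`|rem i| ≤ 2δ² d i²` (`t ≤ 1`, `|t+3δ-2| ≤ 2`), `∑ d⁴ ≤ (∑ d²)² ≤ 0.251` (`∑ d² = A4 + 3/n`), so
`∑ h² ≤ 2β²(A4-A3²-1/n) + 2.01 δ⁴`. `nK - c0 ≥ (n-4)(1+δ) ≥ 399(1+δ)`, `β ≤ 3(1+δ)`: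
`2β²/(4·399(1+δ)) ≤ 9·2/798 ≤ .023`, `2.01/(4·399) ≤ .00126`. -/
theorem sterm_GG {x : ι → V} (hx : ∀ i, ‖x i‖ = 1) {a : ι → ℝ} (h0 : ∑ i, a i = 0)
    (h2 : ∑ i, a i ^ 2 = 1) (hax : ∑ i, a i • x i = 0) {n ρ : ℝ}
    (hcard : (Fintype.card ι : ℝ) = n) (hn : 403 ≤ n) (hρ0 : 0 < ρ) (hρ1 : ρ < 1)
    (h4 : ∑ i, a i ^ 4 ≤ 0.493) :
    -(0.023 * (∑ i, a i ^ 4 - (∑ i, a i ^ 3) ^ 2 - 1 / n)) - 0.00126 * (1 - ρ) ^ 4 / (2 - ρ)
      ≤ (2 - ρ) * ‖∑ i, x i‖ ^ 2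
        - 1 / n * (inner ℝ (∑ i, GG ρ (1 / n + a i ^ 2) • x i) (∑ i, x i) : ℝ) := by
  have hn0 : 0 < n := by linarith
  have hcn : ∑ _i : ι, (1 : ℝ) = n := by
    rw [Finset.sum_const, Finset.card_univ, nsmul_eq_mul, mul_one, hcard]
  set A3 := ∑ i, a i ^ 3 with hA3
  set A4 := ∑ i, a i ^ 4 with hA4
  set δ := 1 - ρ with hδ
  have hδ0 : 0 < δ := by rw [hδ]; linarith
  have hδ1 : δ < 1 := by rw [hδ]; linarith
  set β := 1 + δ + δ ^ 2 + 3 * δ ^ 3 with hβ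
  have hi1 : 1 / n ≤ 1 / 403 := one_div_le_one_div_of_le (by norm_num) hn
  have hi0 : 0 < 1 / n := by positivity
  -- `0 ≤ d ≤ 1`
  have hd0 : ∀ i, 0 ≤ 1 / n + a i ^ 2 := fun i => by positivity
  have hd1 : ∀ i, 1 / n + a i ^ 2 ≤ 1 := by
    intro i
    have h5 : a i ^ 4 ≤ A4 :=
      Finset.single_le_sum (f := fun i => a i ^ 4) (fun j _ => by positivity) (Finset.mem_univ i)
    nlinarith [sq_nonneg (a i ^ 2)]
  -- the sum of the squares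
  have hr : ∑ i, (a i ^ 2 - A3 * a i - 1 / n) ^ 2 = A4 - A3 ^ 2 - 1 / n := by
    have h5 : ∀ i, (a i ^ 2 - A3 * a i - 1 / n) ^ 2 = a i ^ 4 + (A3 ^ 2 - 2 / n) * a i ^ 2
        - 2 * A3 * a i ^ 3 + 2 * A3 / n * a i + 1 / n ^ 2 * 1 := by
      intro i
      field_simp
      ring
    rw [Finset.sum_congr rfl (fun i _ => h5 i), Finset.sum_add_distrib, Finset.sum_add_distrib,
      Finset.sum_sub_distrib, Finset.sum_add_distrib, ← Finset.mul_sum, ← Finset.mul_sum,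
      ← Finset.mul_sum, ← Finset.mul_sum, hcn, h0, h2, ← hA3, ← hA4]
    field_simp
    ring
  have hd2 : ∑ i, (1 / n + a i ^ 2) ^ 2 = A4 + 3 / n := by
    have h5 : ∀ i, (1 / n + a i ^ 2) ^ 2 = a i ^ 4 + 2 / n * a i ^ 2 + 1 / n ^ 2 * 1 := by
      intro i
      field_simp
      ring
    rw [Finset.sum_congr rfl (fun i _ => h5 i), Finset.sum_add_distrib, Finset.sum_add_distrib,
      ← Finset.mul_sum, ← Finset.mul_sum, hcn, h2, ← hA4]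
    field_simp
    ring
  have hA40 : 0 ≤ A4 := Finset.sum_nonneg (fun i _ => by positivity)
  have hd4 : ∑ i, (1 / n + a i ^ 2) ^ 4 ≤ 0.251 := by
    have h5 : ∑ i, ((1 / n + a i ^ 2) ^ 2) ^ 2 ≤ (∑ i, (1 / n + a i ^ 2) ^ 2) ^ 2 :=
      Finset.sum_sq_le_sq_sum_of_nonneg (fun i _ => by positivity)
    have h6 : ∀ i, (1 / n + a i ^ 2) ^ 4 = ((1 / n + a i ^ 2) ^ 2) ^ 2 := fun i => by ring
    rw [Finset.sum_congr rfl (fun i _ => h6 i)]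
    refine h5.trans ?_
    rw [hd2]
    have h7 : (3 : ℝ) / n = 3 * (1 / n) := by ring
    have h8 : A4 + 3 / n ≤ 0.50045 := by
      rw [h7]
      norm_num at h4 hi1 ⊢
      linarith
    have h9 : 0 ≤ A4 + 3 / n := by positivity
    norm_num at h8 ⊢
    nlinarith
  -- the main estimate
  have hP : 399 * (1 + δ) ≤ n * (2 - ρ) - (2 * kp ρ - 2 * β / n) := by
    have h5 : 2 - ρ = 1 + δ := by rw [hδ]; ring
    have h6 : kp ρ = 1 + δ + δ ^ 2 := by unfold kp; rw [hδ]; ring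
    have h7 : 0 ≤ 2 * β / n := by positivity
    rw [h5, h6]
    nlinarith
  have hP0 : 0 < n * (2 - ρ) - (2 * kp ρ - 2 * β / n) := by linarith
  have hmain := sterm hx hax (K := 2 - ρ) (c0 := 2 * kp ρ - 2 * β / n) (c1 := -(β * A3)) hcard hn0
    hP0 (fun i => GG ρ (1 / n + a i ^ 2))
  refine le_trans ?_ hmain
  have hsum : ∑ i, (GG ρ (1 / n + a i ^ 2) - (2 * kp ρ - 2 * β / n) - -(β * A3) * a i) ^ 2
      ≤ 2 * β ^ 2 * (A4 - A3 ^ 2 - 1 / n) + 2.01 * δ ^ 4 := by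
    have h5 : ∀ i, (GG ρ (1 / n + a i ^ 2) - (2 * kp ρ - 2 * β / n) - -(β * A3) * a i) ^ 2
        ≤ 2 * β ^ 2 * (a i ^ 2 - A3 * a i - 1 / n) ^ 2
          + 8 * δ ^ 4 * (1 / n + a i ^ 2) ^ 4 := by
      intro i
      have h6 := rem_bd hρ0 hρ1 (hd0 i) (hd1 i)
      rw [← hδ, ← hβ] at h6
      set R := GG ρ (1 / n + a i ^ 2) - (2 * kp ρ - β * (1 / n + a i ^ 2)) with hR
      have h7 : GG ρ (1 / n + a i ^ 2) - (2 * kp ρ - 2 * β / n) - -(β * A3) * a i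
          = R - β * (a i ^ 2 - A3 * a i - 1 / n) := by
        rw [hR]
        field_simp
        ring
      rw [h7]
      refine (sq2 (y := β * (a i ^ 2 - A3 * a i - 1 / n)) h6).trans (le_of_eq ?_)
      ring
    refine (Finset.sum_le_sum (fun i _ => h5 i)).trans ?_
    rw [Finset.sum_add_distrib, ← Finset.mul_sum, ← Finset.mul_sum, hr]
    have h8 : 0 ≤ 8 * δ ^ 4 := by positivity
    have h9 := mul_le_mul_of_nonneg_left hd4 h8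
    have h10 : 8 * δ ^ 4 * 0.251 ≤ 2.01 * δ ^ 4 := by
      norm_num
      linarith
    linarith
  have hr0 : 0 ≤ A4 - A3 ^ 2 - 1 / n := by
    rw [← hr]
    exact Finset.sum_nonneg (fun i _ => sq_nonneg _)
  have hβ0 : 0 < β := by positivity
  have hβ1 : β ≤ 3 * (1 + δ) := by
    rw [hβ]
    nlinarith [mul_pos hδ0 hδ0, mul_pos (mul_pos hδ0 hδ0) hδ0]
  have h5 : 2 - ρ = 1 + δ := by rw [hδ]; ring
  rw [h5]
  rw [h5] at hP hP0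
  set P := n * (1 + δ) - (2 * kp ρ - 2 * β / n) with hPdef
  have h6 := fin_bd hδ0 hδ1 hβ0 hβ1 hP hr0
  have h12 : (∑ i, (GG ρ (1 / n + a i ^ 2) - (2 * kp ρ - 2 * β / n) - -(β * A3) * a i) ^ 2)
      / (4 * P) ≤ (2 * β ^ 2 * (A4 - A3 ^ 2 - 1 / n) + 2.01 * δ ^ 4) / (4 * P) :=
    div_le_div_of_nonneg_right hsum (by positivity)
  rw [neg_div]
  linarith

end

end Pool.Agent.RieszMix
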