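import Pool.Agent.RieszMix.Basic

set_option autoImplicit false

open Real Finset

namespace Pool.Agent.RieszMix

namespace ScalMixAux

lemma u_div {c m r A : ℝ} (hr : r < 2) (hm : m * (2 - r) ^ 3 = 0.4746 * (2 + r) ^ 2)
    (h : 0 ≤ c * (0.4746 * (2 + r) ^ 2) - A * (2 - r) ^ 3) : A ≤ c * m := by
  have h2 : 0 < (2 - r) ^ 3 := pow_pos (by linarith) 3
  by_contra hc
  push Not at hc
  have h3 : (c * m - A) * (2 - r) ^ 3 < 0 := mul_neg_of_neg_of_pos (by linarith) h2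
  have h4 : (c * m - A) * (2 - r) ^ 3 = c * (m * (2 - r) ^ 3) - A * (2 - r) ^ 3 := by ring
  rw [h4, hm] at h3
  linarith

lemma u_c1 {m r : ℝ} (h0 : 0 ≤ r) (h1 : r ≤ 1) (hm : m * (2 - r) ^ 3 = 0.4746 * (2 + r) ^ 2) :
    0.0071 * r - 0.0002 ≤ 0.004 * m := by
  apply u_div (r := r) (by linarith) hm
  nlinarith [sq_nonneg (r - 0.397), mul_nonneg (sq_nonneg (r - 0.397)) (sub_nonneg.mpr h1),
    mul_nonneg (sq_nonneg (r - 0.397)) (sq_nonneg r), mul_nonneg (sq_nonneg (r - 0.397)) h0]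

lemma u_ii {m r : ℝ} (h0 : 0 ≤ r) (h1 : r ≤ 1) (hm : m * (2 - r) ^ 3 = 0.4746 * (2 + r) ^ 2) :
    2.375 * r + 0.49493 * r ^ 2 ≤ 1.5625 * m := by
  apply u_div (r := r) (by linarith) hm
  nlinarith [sq_nonneg (r - 0.396), mul_nonneg (sq_nonneg (r - 0.396)) (sub_nonneg.mpr h1),
    mul_nonneg (sq_nonneg (r - 0.396)) (sq_nonneg r), mul_nonneg (sq_nonneg (r - 0.396)) h0,
    mul_nonneg (sq_nonneg (r - 0.396)) (pow_nonneg h0 3)]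

lemma u_iii {m r : ℝ} (h0 : 0 ≤ r) (h1 : r ≤ 1) (hm : m * (2 - r) ^ 3 = 0.4746 * (2 + r) ^ 2) :
    2 * r + 0.49493 * r ^ 2 ≤ m + 0.2485 := by
  have h : (2 * r + 0.49493 * r ^ 2) - 0.2485 ≤ 1 * m := by
    apply u_div (r := r) (by linarith) hm
    nlinarith [sq_nonneg (r - 0.506), mul_nonneg (sq_nonneg (r - 0.506)) (sub_nonneg.mpr h1),
      mul_nonneg (sq_nonneg (r - 0.506)) (sq_nonneg r), mul_nonneg (sq_nonneg (r - 0.506)) h0,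
      mul_nonneg (sq_nonneg (r - 0.506)) (pow_nonneg h0 3)]
  linarith

lemma u_iv {m r : ℝ} (h0 : 0.45 ≤ r) (h1 : r ≤ 1) (hm : m * (2 - r) ^ 3 = 0.4746 * (2 + r) ^ 2) :
    1.39 + 2 * r ≤ 3 * m := by
  have h : (1.39 + 2 * r) ≤ 3 * m := by
    apply u_div (r := r) (by linarith) hm
    have a : 0 ≤ r - 0.45 := by linarith
    have b : 0 ≤ 1 - r := by linarith
    nlinarith [mul_nonneg a b, mul_nonneg a (sq_nonneg r), mul_nonneg a (sq_nonneg (r - 0.45)),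
      mul_nonneg (mul_nonneg a b) a, mul_nonneg (mul_nonneg a a) (mul_nonneg a b)]
  linarith

lemma u_b0 {m r : ℝ} (h0 : 0 ≤ r) (h1 : r ≤ 1) (hm : m * (2 - r) ^ 3 = 0.4746 * (2 + r) ^ 2) :
    2 * r ≤ 3 * m := by
  have := u_ii h0 h1 hm
  nlinarith [sq_nonneg r]

/-- `C - 0.00005 - 0.0009765625 (3m - 2r) > 0` -/
lemma u_v {m r : ℝ} (h0 : 0 ≤ r) (h1 : r ≤ 0.45) (hm : m * (2 - r) ^ 3 = 0.4746 * (2 + r) ^ 2) :
    0.0009765625 * (3 * m - 2 * r) + 0.00005 < 0.00203 - 0.00063 * ((2 - r) / (2 + r)) := by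
  have hp : 0 < 2 + r := by linarith
  have hq : 0 < (2 - r) ^ 3 := pow_pos (by linarith) 3
  have hC : 0.00203 - 0.00063 * ((2 - r) / (2 + r)) = (0.0028 + 0.00266 * r) / (2 + r) := by
    field_simp
    ring
  rw [hC, lt_div_iff₀ hp]
  by_contra hc
  push Not at hc
  have h2 : (0.0028 + 0.00266 * r) * (2 - r) ^ 3 ≤
      (0.0009765625 * (3 * m - 2 * r) + 0.00005) * (2 + r) * (2 - r) ^ 3 :=
    mul_le_mul_of_nonneg_right hc hq.le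
  have h3 : (0.0009765625 * (3 * m - 2 * r) + 0.00005) * (2 + r) * (2 - r) ^ 3
      = 0.0009765625 * (3 * (0.4746 * (2 + r) ^ 2) - 2 * r * (2 - r) ^ 3) * (2 + r)
        + 0.00005 * (2 + r) * (2 - r) ^ 3 := by
    rw [← hm]; ring
  rw [h3] at h2
  have b : 0 ≤ 0.45 - r := by linarith
  nlinarith [mul_nonneg h0 b, mul_nonneg (mul_nonneg h0 b) h0, mul_nonneg (mul_nonneg h0 h0) (mul_nonneg h0 b),
    mul_nonneg (mul_nonneg h0 h0) (mul_nonneg h0 h0)]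

/-- the final estimate for `r ≤ 1` -/
lemma core_le {m r θ : ℝ} (h0 : 0 < r) (h1 : r ≤ 1)
    (hm : m * (2 - r) ^ 3 = 0.4746 * (2 + r) ^ 2) (hθ0 : 0 < θ) (hθ1 : θ ≤ 0.2047) :
    0.0071 * r * θ + (0.4929 * r ^ 2 + 2 * r) * θ ^ 2 + 2 * r * θ ^ 3 + 0.00203 * r ^ 2 * θ ^ 2
      < 0.00203 - 0.00063 * ((2 - r) / (2 + r)) + m * (0.004 * θ + θ ^ 2 + 3 * θ ^ 3) := by
  have c1 := u_c1 h0.le h1 hm
  have cb := u_b0 h0.le h1 hm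
  have t3 : 0.1875 * θ ^ 2 - 0.0009765625 ≤ θ ^ 3 := by
    nlinarith [mul_nonneg (sq_nonneg (θ - 0.125)) (by linarith : (0:ℝ) ≤ θ + 0.0625)]
  have hc1 : -0.00005 ≤ (0.004 * m - 0.0071 * r) * θ := by nlinarith
  rcases le_total r 0.45 with hr | hr
  · have cii := u_ii h0.le h1 hm
    have cv := u_v h0.le hr hm
    have e1 : (3 * m - 2 * r) * (0.1875 * θ ^ 2 - 0.0009765625) ≤ (3 * m - 2 * r) * θ ^ 3 :=
      mul_le_mul_of_nonneg_left t3 (by linarith)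
    have e2 : 0 ≤ (1.5625 * m - (2.375 * r + 0.49493 * r ^ 2)) * θ ^ 2 :=
      mul_nonneg (by linarith) (sq_nonneg θ)
    nlinarith
  · have ciii := u_iii h0.le h1 hm
    have civ := u_iv hr h1 hm
    have hC : (0.00163 : ℝ) ≤ 0.00203 - 0.00063 * ((2 - r) / (2 + r)) := by
      have : (2 - r) / (2 + r) ≤ 0.634 := by
        rw [div_le_iff₀ (by linarith)]
        linarith
      linarith
    have hθ3 : 0 ≤ θ ^ 3 := by positivity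
    have e1 : 1.39 * θ ^ 3 ≤ (3 * m - 2 * r) * θ ^ 3 :=
      mul_le_mul_of_nonneg_right (by linarith) hθ3
    have e2 : 0 ≤ (m + 0.2485 - (2 * r + 0.49493 * r ^ 2)) * θ ^ 2 :=
      mul_nonneg (by linarith) (sq_nonneg θ)
    nlinarith [sq_nonneg θ]

lemma m_ge {m r : ℝ} (h0 : 1 ≤ r) (h2 : r < 2) (hm : m * (2 - r) ^ 3 = 0.4746 * (2 + r) ^ 2) :
    4.27 * r ^ 2 ≤ m := by
  have h : 4.27 * r ^ 2 ≤ 1 * m := by
    apply u_div (r := r) h2 hm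
    have h3 : r * (2 - r) ≤ 1 := by nlinarith [sq_nonneg (r - 1)]
    have h4 : 0 ≤ r * (2 - r) := mul_nonneg (by linarith) (by linarith)
    have h5 : r ^ 2 * (2 - r) ^ 2 ≤ 1 := by
      have : r ^ 2 * (2 - r) ^ 2 = (r * (2 - r)) ^ 2 := by ring
      rw [this]
      nlinarith
    have h6 : r ^ 2 * (2 - r) ^ 3 ≤ 1 := by
      have : r ^ 2 * (2 - r) ^ 3 = (r ^ 2 * (2 - r) ^ 2) * (2 - r) := by ring
      rw [this]
      nlinarith [mul_nonneg (sq_nonneg r) (sq_nonneg (2 - r))]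
    nlinarith
  linarith

lemma C_bds {r : ℝ} (h0 : 0 < r) (h2 : r < 2) :
    (0.0014 : ℝ) ≤ 0.00203 - 0.00063 * ((2 - r) / (2 + r)) ∧
      0.00203 - 0.00063 * ((2 - r) / (2 + r)) ≤ (0.00203 : ℝ) := by
  constructor
  · have : (2 - r) / (2 + r) ≤ 1 := by
      rw [div_le_one (by linarith)]
      linarith
    linarith
  · have : 0 ≤ (2 - r) / (2 + r) := div_nonneg (by linarith) (by linarith)
    linarith

lemma fac {r θ : ℝ} (h0 : 0 < r) (h1 : r ≤ 1) (hθ0 : 0 < θ) (hθ1 : θ ≤ 0.2047) :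
    1 + 3 * θ ≤ (1 - r ^ 2 * θ ^ 2) * (1 + 3 * θ + 4 * θ ^ 2) := by
  have hr2 : r ^ 2 ≤ 1 := pow_le_one₀ h0.le h1
  have hA : 0 ≤ 1 + 3 * θ + 4 * θ ^ 2 := by positivity
  have hB : 1 + 3 * θ + 4 * θ ^ 2 ≤ 4 := by nlinarith
  have hC : r ^ 2 * (1 + 3 * θ + 4 * θ ^ 2) ≤ 1 * 4 := mul_le_mul hr2 hB hA (by norm_num)
  have a2 : 0 ≤ θ ^ 2 * (4 - r ^ 2 * (1 + 3 * θ + 4 * θ ^ 2)) :=
    mul_nonneg (sq_nonneg θ) (by linarith)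
  have e : (1 - r ^ 2 * θ ^ 2) * (1 + 3 * θ + 4 * θ ^ 2) =
    1 + 3 * θ + θ ^ 2 * (4 - r ^ 2 * (1 + 3 * θ + 4 * θ ^ 2)) := by ring
  rw [e]
  linarith

lemma core_small {m r θ : ℝ} (h0 : 0 < r) (h1 : r ≤ 1) (hm0 : 0 < m)
    (hm : m * (2 - r) ^ 3 = 0.4746 * (2 + r) ^ 2) (hθ0 : 0 < θ) (hθ1 : θ ≤ 0.2047) :
    r * θ * (0.0071 + (0.4929 * r + 2) * θ + 2 * θ ^ 2)
      < (1 - r ^ 2 * θ ^ 2) * (0.00203 - 0.00063 * ((2 - r) / (2 + r))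
        + m * ((1 + 3 * θ + 4 * θ ^ 2) * (θ + 0.002) ^ 2)) := by
  obtain ⟨hC0, hC1⟩ := C_bds h0 (by linarith : r < 2)
  have hT : θ ^ 2 + 0.004 * θ ≤ (θ + 0.002) ^ 2 := by nlinarith
  have k := core_le h0 h1 hm hθ0 hθ1
  generalize 0.00203 - 0.00063 * ((2 - r) / (2 + r)) = C at *
  have e1 := fac h0 h1 hθ0 hθ1
  have e2 : m * (0.004 * θ + θ ^ 2 + 3 * θ ^ 3) ≤
      m * (((1 - r ^ 2 * θ ^ 2) * (1 + 3 * θ + 4 * θ ^ 2)) * (θ + 0.002) ^ 2) := by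
    apply mul_le_mul_of_nonneg_left _ hm0.le
    have b1 : (1 + 3 * θ) * (θ ^ 2 + 0.004 * θ) ≤
        ((1 - r ^ 2 * θ ^ 2) * (1 + 3 * θ + 4 * θ ^ 2)) * (θ + 0.002) ^ 2 :=
      mul_le_mul e1 hT (by positivity) (le_trans (by positivity) e1)
    have b3 : 0 ≤ 0.012 * θ ^ 2 := by positivity
    have b4 : (1 + 3 * θ) * (θ ^ 2 + 0.004 * θ) =
      0.004 * θ + θ ^ 2 + 3 * θ ^ 3 + 0.012 * θ ^ 2 := by ring
    linarith
  have e3 : 0 ≤ (r ^ 2 * θ ^ 2) * (0.00203 - C) := mul_nonneg (by positivity) (by linarith)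
  have f : (1 - r ^ 2 * θ ^ 2) * (C + m * ((1 + 3 * θ + 4 * θ ^ 2) * (θ + 0.002) ^ 2)) =
      C - 0.00203 * r ^ 2 * θ ^ 2 + (r ^ 2 * θ ^ 2) * (0.00203 - C) +
      m * (((1 - r ^ 2 * θ ^ 2) * (1 + 3 * θ + 4 * θ ^ 2)) * (θ + 0.002) ^ 2) := by ring
  have g : r * θ * (0.0071 + (0.4929 * r + 2) * θ + 2 * θ ^ 2) =
      0.0071 * r * θ + (0.4929 * r ^ 2 + 2 * r) * θ ^ 2 + 2 * r * θ ^ 3 := by ring
  rw [f, g]
  linarith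

lemma core_big {m r θ : ℝ} (h1 : 1 ≤ r) (h2 : r < 2) (hm0 : 0 < m)
    (hm : m * (2 - r) ^ 3 = 0.4746 * (2 + r) ^ 2) (hθ0 : 0 < θ) (hθ1 : θ ≤ 0.2047) :
    r * θ * (0.0071 + (0.4929 * r + 2) * θ + 2 * θ ^ 2)
      < (1 - r ^ 2 * θ ^ 2) * (0.00203 - 0.00063 * ((2 - r) / (2 + r))
        + m * ((1 + 3 * θ + 4 * θ ^ 2) * (θ + 0.002) ^ 2)) := by
  have h0 : 0 < r := by linarith
  obtain ⟨hC0, hC1⟩ := C_bds h0 h2
  have hT : θ ^ 2 + 0.004 * θ ≤ (θ + 0.002) ^ 2 := by nlinarith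
  have k := m_ge h1 h2 hm
  generalize 0.00203 - 0.00063 * ((2 - r) / (2 + r)) = C at *
  have hrθ1 : r * θ ≤ 2 * 0.2047 := mul_le_mul h2.le hθ1 hθ0.le (by norm_num)
  have hrθ : r ^ 2 * θ ^ 2 ≤ 0.168 := by
    have : r ^ 2 * θ ^ 2 = (r * θ) ^ 2 := by ring
    rw [this]
    have h3 : 0 ≤ r * θ := by positivity
    nlinarith
  have g1 : 3.5 * r ^ 2 ≤ (1 - r ^ 2 * θ ^ 2) * m := by
    have : (0.832 : ℝ) * (4.27 * r ^ 2) ≤ (1 - r ^ 2 * θ ^ 2) * m :=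
      mul_le_mul (by linarith) k (by positivity) (by linarith)
    linarith [sq_nonneg r]
  have g2 : (1 + 3 * θ) * (θ ^ 2 + 0.004 * θ) ≤ (1 + 3 * θ + 4 * θ ^ 2) * (θ + 0.002) ^ 2 := by
    have g4 : 1 + 3 * θ ≤ 1 + 3 * θ + 4 * θ ^ 2 := by linarith [sq_nonneg θ]
    exact mul_le_mul g4 hT (by positivity) (by positivity)
  have g3 : (3.5 * r ^ 2) * ((1 + 3 * θ) * (θ ^ 2 + 0.004 * θ)) ≤ ((1 - r ^ 2 * θ ^ 2) * m) *
      ((1 + 3 * θ + 4 * θ ^ 2) * (θ + 0.002) ^ 2) :=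
    mul_le_mul g1 g2 (by positivity) (le_trans (by positivity) g1)
  have f2 : 0 < (1 - r ^ 2 * θ ^ 2) * C := mul_pos (by linarith) (by linarith)
  have i1 : 0 ≤ r ^ 2 - r := by
    have : r ^ 2 - r = r * (r - 1) := by ring
    rw [this]; exact mul_nonneg h0.le (by linarith)
  have i2 : 0 ≤ (r ^ 2 - r) * θ := mul_nonneg i1 hθ0.le
  have i3 : 0 ≤ (r ^ 2 - r) * θ ^ 2 := mul_nonneg i1 (sq_nonneg θ)
  have i4 : 0 ≤ (r ^ 2 - r) * θ ^ 3 := mul_nonneg i1 (by positivity)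
  have i5 : 0 ≤ r ^ 2 * θ := by positivity
  have i6 : 0 ≤ r ^ 2 * θ ^ 2 := by positivity
  have i7 : 0 ≤ r ^ 2 * θ ^ 3 := by positivity
  have j1 : r * θ * (0.0071 + (0.4929 * r + 2) * θ + 2 * θ ^ 2) =
    0.0071 * (r * θ) + 0.4929 * (r ^ 2 * θ ^ 2) + 2 * (r * θ ^ 2) + 2 * (r * θ ^ 3) := by ring
  have j2 : (3.5 * r ^ 2) * ((1 + 3 * θ) * (θ ^ 2 + 0.004 * θ)) =
    0.014 * (r ^ 2 * θ) + (3.5 + 0.042) * (r ^ 2 * θ ^ 2) + 10.5 * (r ^ 2 * θ ^ 3) := by ring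
  have f4 : (1 - r ^ 2 * θ ^ 2) * (C + m * ((1 + 3 * θ + 4 * θ ^ 2) * (θ + 0.002) ^ 2)) =
    (1 - r ^ 2 * θ ^ 2) * C +
      ((1 - r ^ 2 * θ ^ 2) * m) * ((1 + 3 * θ + 4 * θ ^ 2) * (θ + 0.002) ^ 2) := by ring
  rw [f4, j1]
  rw [j2] at g3
  linarith

lemma core {m r θ : ℝ} (h0 : 0 < r) (h2 : r < 2) (hm0 : 0 < m)
    (hm : m * (2 - r) ^ 3 = 0.4746 * (2 + r) ^ 2) (hθ0 : 0 < θ) (hθ1 : θ ≤ 0.2047) :
    r * θ * (0.0071 + (0.4929 * r + 2) * θ + 2 * θ ^ 2)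
      < (1 - r ^ 2 * θ ^ 2) * (0.00203 - 0.00063 * ((2 - r) / (2 + r))
        + m * ((1 + 3 * θ + 4 * θ ^ 2) * (θ + 0.002) ^ 2)) := by
  rcases le_total r 1 with h1 | h1
  · exact core_small h0 h1 hm0 hm hθ0 hθ1
  · exact core_big h1 h2 hm0 hm hθ0 hθ1

lemma Q_ge {θ : ℝ} (hθ0 : 0 < θ) (hθ1 : θ ≤ 0.2047) :
    (1 + 3 * θ + 4 * θ ^ 2) * (θ + 0.002) ^ 2 ≤
      2 * (((1 + 2 * θ) / (2 + 3 * θ)) ^ 2 * (θ + 0.002) ^ 2 / (1 / 2 - θ)) := by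
  have h1 : 0 < 1 / 2 - θ := by linarith
  have h2 : 0 < 2 + 3 * θ := by linarith
  have h3 : (1 + 3 * θ + 4 * θ ^ 2) * (1 / 2 - θ) ≤ 2 * ((1 + 2 * θ) / (2 + 3 * θ)) ^ 2 := by
    rw [div_pow, ← mul_div_assoc, le_div_iff₀ (by positivity)]
    nlinarith [pow_pos hθ0 2, pow_pos hθ0 3, pow_pos hθ0 4, pow_pos hθ0 5]
  rw [← mul_div_assoc, le_div_iff₀ h1]
  have h4 := mul_le_mul_of_nonneg_right h3 (sq_nonneg (θ + 0.002))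
  nlinarith

end ScalMixAux

open ScalMixAux in
/-- MODULE RM16. The scalar inequality of the mixture part. Minimum of right minus left: `.00106`, at
`1-ρ = .651`, `θ = .082`.
Idea. Put `δ = 1-ρ`, `r = 2(1-δ)/(1+δ) = ρ/(1-ρ/2)`. Then
`ρθ ω(1/2-θ) = rθ/(1+rθ)`, `ρθ ω(1/2+θ) = rθ/(1-rθ)`, and, with `.4929 = 1/2 - .0071`,
`ρθω₂(.4929) - ρθ(1/2+θ)²(ω₁+ω₂) = -.0071 rθ/(1+rθ) - rθ²(2+2θ+r/2)/(1-r²θ²)`.
`((1+2θ)/(2+3θ))²/(1/2-θ) ≥ (1+3θ+5θ²)/2`. So it suffices that, with `μ = .1186(1+δ)/δ³`,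
`.00203 - .00063δ - .0071rθ + μ(1+3θ+5θ²)(θ+.002)² ≥ rθ²(2+2θ+r/2)/(1-r²θ²)`.
Leading part: `c0 - aθ² + bθ³`, `a = r(2+r/2) - μ ≤ .2485`, `b = 3μ - 2r`; use
`θ³ ≥ (3/2)θ₀θ² - θ₀³/2` (AM-GM) with `θ₀ ≈ .13`: for `δ ≥ .65` with the full `b`, for `δ ≤ .65` with
`1.29 ≤ b`. Any other proof (case splitting in `δ`, nlinarith) is fine. -/
theorem scal_mix {ρ θ : ℝ} (hρ0 : 0 < ρ) (hρ1 : ρ < 1) (hθ0 : 0 < θ) (hθ1 : θ ≤ 0.2047) :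
    ρ * θ * (1 / 2 + θ) ^ 2 * (om ρ (1 / 2 + θ) + om ρ (1 / 2 - θ)) + 0.00063 * (1 - ρ)
      < 0.00203 + ρ * θ * om ρ (1 / 2 - θ) * 0.4929
        + 0.4746 * (1 - ρ / 2) / (1 - ρ) ^ 3
          * (((1 + 2 * θ) / (2 + 3 * θ)) ^ 2 * (θ + 0.002) ^ 2 / (1 / 2 - θ)) := by
  obtain ⟨r, hr0, hr2, hρ⟩ : ∃ r : ℝ, 0 < r ∧ r < 2 ∧ ρ = 2 * r / (2 + r) := by
    have h2 : 0 < 2 - ρ := by linarith
    refine ⟨2 * ρ / (2 - ρ), by positivity, ?_, ?_⟩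
    · rw [div_lt_iff₀ h2]; linarith
    · field_simp
      ring
  subst hρ
  have hp : 0 < 2 + r := by linarith
  have hq : 0 < 2 - r := by linarith
  have hrθ : r * θ < 1 := by nlinarith
  have hrθ' : 0 < r * θ := mul_pos hr0 hθ0
  have n1 : 0 < 1 - r * θ := by linarith
  have n2 : 0 < 1 + r * θ := by linarith
  have n3 : 0 < 1 - r ^ 2 * θ ^ 2 := by nlinarith
  have o1 : om (2 * r / (2 + r)) (1 / 2 + θ) = (2 + r) / (2 * (1 - r * θ)) := by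
    unfold om
    have : 1 - 2 * r / (2 + r) * (1 / 2 + θ) = 2 * (1 - r * θ) / (2 + r) := by
      field_simp
      ring
    rw [this, one_div_div]
  have o2 : om (2 * r / (2 + r)) (1 / 2 - θ) = (2 + r) / (2 * (1 + r * θ)) := by
    unfold om
    have : 1 - 2 * r / (2 + r) * (1 / 2 - θ) = 2 * (1 + r * θ) / (2 + r) := by
      field_simp
      ring
    rw [this, one_div_div]
  have o3 : 1 - 2 * r / (2 + r) = (2 - r) / (2 + r) := by field_simp; ring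
  have o4 : 1 - 2 * r / (2 + r) / 2 = 2 / (2 + r) := by field_simp; ring
  rw [o1, o2, o3, o4]
  obtain ⟨m, hm⟩ : ∃ m : ℝ, m = 0.4746 * (2 + r) ^ 2 / (2 - r) ^ 3 := ⟨_, rfl⟩
  have hm0 : 0 < m := by rw [hm]; positivity
  have hm1 : m * (2 - r) ^ 3 = 0.4746 * (2 + r) ^ 2 := by
    rw [hm]; field_simp
  have o5 : 0.4746 * (2 / (2 + r)) / ((2 - r) / (2 + r)) ^ 3 = 2 * m := by
    rw [hm]; field_simp
  rw [o5]
  have hc := core hr0 hr2 hm0 hm1 hθ0 hθ1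
  have hQ := Q_ge hθ0 hθ1
  set Q := ((1 + 2 * θ) / (2 + 3 * θ)) ^ 2 * (θ + 0.002) ^ 2 / (1 / 2 - θ) with hQd
  set Cc := (2 - r) / (2 + r) with hCc
  have key : r * θ * (0.0071 + (0.4929 * r + 2) * θ + 2 * θ ^ 2) / (1 - r ^ 2 * θ ^ 2)
      < 0.00203 - 0.00063 * Cc + 2 * m * Q := by
    rw [div_lt_iff₀ n3]
    have : m * ((1 + 3 * θ + 4 * θ ^ 2) * (θ + 0.002) ^ 2) ≤ m * (2 * Q) :=
      mul_le_mul_of_nonneg_left hQ hm0.le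
    have h2 := mul_le_mul_of_nonneg_left this n3.le
    nlinarith
  have e : 2 * r / (2 + r) * θ * (1 / 2 + θ) ^ 2 *
        ((2 + r) / (2 * (1 - r * θ)) + (2 + r) / (2 * (1 + r * θ)))
      - 2 * r / (2 + r) * θ * ((2 + r) / (2 * (1 + r * θ))) * 0.4929
      = r * θ * (0.0071 + (0.4929 * r + 2) * θ + 2 * θ ^ 2) / (1 - r ^ 2 * θ ^ 2) := by
    have n4 : 1 - r ^ 2 * θ ^ 2 = (1 - r * θ) * (1 + r * θ) := by ring
    rw [n4]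
    field_simp
    ring
  linarith

end Pool.Agent.RieszMix
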