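import Pool.Agent.RieszMix.Defs

set_option autoImplicit false

open Real Finset

namespace Pool.Agent.RieszMix

open Pool.Agent.RieszLin

namespace SumPairAux

/-- one row -/
lemma row {ι : Type*} [Fintype ι] {V : Type*} [NormedAddCommGroup V]
    [InnerProductSpace ℝ V] {x : ι → V} {a : ι → ℝ} (h0 : ∑ i, a i = 0)
    (h2 : ∑ i, a i ^ 2 = 1) (hax : ∑ i, a i • x i = 0) {n K u : ℝ}
    (hcard : (Fintype.card ι : ℝ) = n) (G A : ι → ℝ) (i : ι) :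
    ∑ j, (1 - (K - (u + a i * a j) * ((G i + G j) / 2))
          * ((1 - (inner ℝ (x i) (x j) : ℝ)) - 1)
        - (u + a i * a j) ^ 2 * ((A i + A j) / 2)
        + (u + a i * a j) ^ 2 / 2
          * (((u + a i ^ 2) + (u + a j ^ 2)) / 2 - (u + a i * a j)))
      = n + K * (inner ℝ (x i) (∑ j, x j) : ℝ) - u * (G i / 2) * (inner ℝ (x i) (∑ j, x j) : ℝ)
        - u / 2 * (inner ℝ (x i) (∑ j, G j • x j) : ℝ)
        - a i / 2 * (inner ℝ (x i) (∑ j, (a j * G j) • x j) : ℝ)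
        - A i / 2 * (u ^ 2 * n + a i ^ 2) - u ^ 2 / 2 * ∑ j, A j - u * a i * ∑ j, a j * A j
        - a i ^ 2 / 2 * ∑ j, a j ^ 2 * A j
        + 1 / 2 * (u ^ 2 * a i ^ 2 * n / 2 + u ^ 2 / 2 + u * a i * ∑ j, a j ^ 3
          - 2 * u * a i ^ 2 + a i ^ 4 / 2 + a i ^ 2 * (∑ j, a j ^ 4) / 2
          - a i ^ 3 * ∑ j, a j ^ 3) := by
  have e0 : ∑ j, a j * (inner ℝ (x i) (x j) : ℝ) = 0 := by
    have h : (inner ℝ (x i) (∑ j, a j • x j) : ℝ) = 0 := by rw [hax, inner_zero_right]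
    rw [inner_sum] at h
    simpa only [real_inner_smul_right] using h
  have hn : ∑ _j : ι, (1 : ℝ) = n := by
    rw [Finset.sum_const, nsmul_eq_mul, mul_one, Finset.card_univ, hcard]
  have e1 : ∀ j, (1 - (K - (u + a i * a j) * ((G i + G j) / 2))
          * ((1 - (inner ℝ (x i) (x j) : ℝ)) - 1)
        - (u + a i * a j) ^ 2 * ((A i + A j) / 2)
        + (u + a i * a j) ^ 2 / 2
          * (((u + a i ^ 2) + (u + a j ^ 2)) / 2 - (u + a i * a j)))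
      = (1 - A i / 2 * u ^ 2 + 1 / 4 * u ^ 2 * a i ^ 2) * 1
        + (K - u * (G i / 2)) * (inner ℝ (x i) (x j) : ℝ)
        - (a i * G i / 2) * (a j * (inner ℝ (x i) (x j) : ℝ))
        - u / 2 * (G j * (inner ℝ (x i) (x j) : ℝ))
        - a i / 2 * ((a j * G j) * (inner ℝ (x i) (x j) : ℝ))
        - u ^ 2 / 2 * A j - u * a i * (a j * A j) - a i ^ 2 / 2 * (a j ^ 2 * A j)
        + (- (A i) * u * a i - 1 / 2 * u ^ 2 * a i + 1 / 2 * u * a i ^ 3) * a j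
        + (- (A i) / 2 * a i ^ 2 + 1 / 4 * u ^ 2 - u * a i ^ 2 + 1 / 4 * a i ^ 4) * a j ^ 2
        + (1 / 2 * u * a i - 1 / 2 * a i ^ 3) * a j ^ 3
        + (1 / 4 * a i ^ 2) * a j ^ 4 := by
    intro j
    ring
  rw [Finset.sum_congr rfl (fun j _ => e1 j)]
  simp only [Finset.sum_add_distrib, Finset.sum_sub_distrib, ← Finset.mul_sum, hn, h0, h2, e0,
    inner_sum, real_inner_smul_right]
  ring

end SumPairAux

section

variable {ι : Type*} [Fintype ι] [DecidableEq ι] {V : Type*} [NormedAddCommGroup V]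
  [InnerProductSpace ℝ V]

/-- MODULE RM10. Summation of the pair inequality; `G`, `A` arbitrary functions, `X i j = 1/n + a i a j`
(`X` is the projection onto `span(1, a)`), `d i = 1/n + a i ^ 2 = X i i`, `⟪,⟫ = D - 1` up to sign.
`offsum_eq`; full sums: `∑∑ K ⟪x i, x j⟫ = K‖S‖²`;
`∑∑ X i j (G i + G j)/2 ⟪x i, x j⟫ = (1/n)⟪∑ G x, S⟫` (`∑ a i x i = 0`);
`∑∑ X i j² A i = ∑ A i d i` (`∑_j X i j² = d i`, as `∑ a = 0`, `∑ a² = 1`, `card = n`);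
`∑∑ X i j³ = 1/n + 3/n + A3²` ... so that
`offsum (X² ((d i + d j)/2 - X)) = A4 - A3² - 1/n`. Diagonal: `⟪x i, x i⟫ = 1`. -/
theorem sum_pair {x : ι → V} (hx : ∀ i, ‖x i‖ = 1) {a : ι → ℝ} (h0 : ∑ i, a i = 0)
    (h2 : ∑ i, a i ^ 2 = 1) (hax : ∑ i, a i • x i = 0) {n K : ℝ}
    (hcard : (Fintype.card ι : ℝ) = n) (hn : 0 < n) (G A : ι → ℝ) :
    offsum (fun i j => 1 - (K - (1 / n + a i * a j) * ((G i + G j) / 2))
          * ((1 - (inner ℝ (x i) (x j) : ℝ)) - 1)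
        - (1 / n + a i * a j) ^ 2 * ((A i + A j) / 2)
        + (1 / n + a i * a j) ^ 2 / 2
          * (((1 / n + a i ^ 2) + (1 / n + a j ^ 2)) / 2 - (1 / n + a i * a j)))
      = n ^ 2 - ∑ i, (1 + K - (1 / n + a i ^ 2) * G i
            + (1 / n + a i ^ 2) * (1 - (1 / n + a i ^ 2)) * A i)
        + 1 / 2 * (∑ i, a i ^ 4 - (∑ i, a i ^ 3) ^ 2 - 1 / n)
        + K * ‖∑ i, x i‖ ^ 2 - 1 / n * (inner ℝ (∑ i, G i • x i) (∑ i, x i) : ℝ) := by
  obtain ⟨u, hu⟩ : ∃ u : ℝ, u = 1 / n := ⟨_, rfl⟩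
  rw [← hu]
  have hun : u * n = 1 := by rw [hu]; field_simp
  rw [offsum_eq]
  rw [Finset.sum_congr rfl (fun i _ => SumPairAux.row h0 h2 hax hcard G A i)]
  have hn1 : ∑ _j : ι, (1 : ℝ) = n := by
    rw [Finset.sum_const, nsmul_eq_mul, mul_one, Finset.card_univ, hcard]
  have hS : ∑ i, (inner ℝ (x i) (∑ j, x j) : ℝ) = ‖∑ i, x i‖ ^ 2 := by
    rw [← sum_inner, real_inner_self_eq_norm_sq]
  have hGS : ∑ i, G i * (inner ℝ (x i) (∑ j, x j) : ℝ)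
      = (inner ℝ (∑ i, G i • x i) (∑ i, x i) : ℝ) := by
    rw [sum_inner]
    refine Finset.sum_congr rfl (fun i _ => ?_)
    rw [real_inner_smul_left]
  have hST : ∑ i, (inner ℝ (x i) (∑ j, G j • x j) : ℝ)
      = (inner ℝ (∑ i, G i • x i) (∑ i, x i) : ℝ) := by
    rw [← sum_inner, real_inner_comm]
  have hU : ∑ i, a i * (inner ℝ (x i) (∑ j, (a j * G j) • x j) : ℝ) = 0 := by
    have h : (inner ℝ (∑ i, a i • x i) (∑ j, (a j * G j) • x j) : ℝ) = 0 := by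
      rw [hax, inner_zero_left]
    rw [sum_inner] at h
    simpa only [real_inner_smul_left] using h
  have hd : ∀ i, (inner ℝ (x i) (x i) : ℝ) = 1 := by
    intro i
    rw [real_inner_self_eq_norm_sq, hx i]
    norm_num
  have e1 : ∀ i, (n + K * (inner ℝ (x i) (∑ j, x j) : ℝ)
        - u * (G i / 2) * (inner ℝ (x i) (∑ j, x j) : ℝ)
        - u / 2 * (inner ℝ (x i) (∑ j, G j • x j) : ℝ)
        - a i / 2 * (inner ℝ (x i) (∑ j, (a j * G j) • x j) : ℝ)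
        - A i / 2 * (u ^ 2 * n + a i ^ 2) - u ^ 2 / 2 * ∑ j, A j - u * a i * ∑ j, a j * A j
        - a i ^ 2 / 2 * ∑ j, a j ^ 2 * A j
        + 1 / 2 * (u ^ 2 * a i ^ 2 * n / 2 + u ^ 2 / 2 + u * a i * ∑ j, a j ^ 3
          - 2 * u * a i ^ 2 + a i ^ 4 / 2 + a i ^ 2 * (∑ j, a j ^ 4) / 2
          - a i ^ 3 * ∑ j, a j ^ 3))
      = (n - u ^ 2 / 2 * (∑ j, A j) + u ^ 2 / 4) * 1 + K * (inner ℝ (x i) (∑ j, x j) : ℝ)
        - u / 2 * (G i * (inner ℝ (x i) (∑ j, x j) : ℝ))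
        - u / 2 * (inner ℝ (x i) (∑ j, G j • x j) : ℝ)
        - 1 / 2 * (a i * (inner ℝ (x i) (∑ j, (a j * G j) • x j) : ℝ))
        - (u ^ 2 * n) / 2 * A i - 1 / 2 * (a i ^ 2 * A i)
        + (- u * (∑ j, a j * A j) + 1 / 2 * u * ∑ j, a j ^ 3) * a i
        + (- 1 / 2 * (∑ j, a j ^ 2 * A j) + 1 / 4 * u ^ 2 * n - u + 1 / 4 * (∑ j, a j ^ 4)) * a i ^ 2
        + (- 1 / 2 * ∑ j, a j ^ 3) * a i ^ 3 + 1 / 4 * a i ^ 4 := by
    intro i
    ring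
  rw [Finset.sum_congr rfl (fun i _ => e1 i)]
  have e2 : ∀ i, (1 - (K - (u + a i * a i) * ((G i + G i) / 2))
          * ((1 - (inner ℝ (x i) (x i) : ℝ)) - 1)
        - (u + a i * a i) ^ 2 * ((A i + A i) / 2)
        + (u + a i * a i) ^ 2 / 2
          * (((u + a i ^ 2) + (u + a i ^ 2)) / 2 - (u + a i * a i)))
      = (1 + K - (u + a i ^ 2) * G i + (u + a i ^ 2) * (1 - (u + a i ^ 2)) * A i)
        - u * A i - a i ^ 2 * A i := by
    intro i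
    rw [hd i]
    ring
  rw [Finset.sum_congr rfl (fun i _ => e2 i)]
  rw [Finset.sum_sub_distrib, Finset.sum_sub_distrib]
  obtain ⟨Z, hZ⟩ : ∃ Z, Z = ∑ i, (1 + K - (u + a i ^ 2) * G i
      + (u + a i ^ 2) * (1 - (u + a i ^ 2)) * A i) := ⟨_, rfl⟩
  rw [← hZ]
  simp only [Finset.sum_add_distrib, Finset.sum_sub_distrib, ← Finset.mul_sum, hn1, h0, h2, hS,
    hGS, hST, hU]
  have hun2 : u ^ 2 * n = u := by
    rw [pow_two, mul_assoc, hun, mul_one]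
  linear_combination (- ∑ j, A j + 1 / 2) * hun2

end

end Pool.Agent.RieszMix
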