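import Pool.Agent.RieszMix.Basic

set_option autoImplicit false

open Real Finset

namespace Pool.Agent.RieszMix

/-- the coefficient `c_ρ = δ³ / ((1-ρ/m)² (1-ρ/2))` -/
noncomputable def cr (ρ m : ℝ) : ℝ := (1 - ρ) ^ 3 / ((1 - ρ / m) ^ 2 * (1 - ρ / 2))

/-- MODULE RM13. Energy of the block in terms of `Θ`. -/
theorem block_ek {ρ m : ℝ} (h0 : 0 < ρ) (h1 : ρ < 1) (hm : 2 ≤ m) :
    2 * ek ρ 2 + 4 * m * ek ρ 1 + m * (m - 1) * ek ρ (m / (m - 1))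
      = (m + 2) ^ 2 - 2 * Th ρ (1 / 2) - m * Th ρ (1 / m) := by
  have hm0 : m ≠ 0 := by linarith
  have hm1 : m - 1 ≠ 0 := by linarith
  have hmr : m - ρ ≠ 0 := by linarith
  have h2r : 2 - ρ ≠ 0 := by linarith
  have e2 : ek ρ 2 = 1 / (2 * (2 - ρ)) := by
    unfold ek
    congr 1
    ring
  have e1 : ek ρ 1 = 1 := by
    unfold ek
    norm_num
  have e3 : ek ρ (m / (m - 1)) = (m - 1) ^ 2 / (m * (m - ρ)) := by
    have h : ρ + (1 - ρ) * (m / (m - 1)) = (m - ρ) / (m - 1) := by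
      field_simp
      ring
    unfold ek
    rw [h]
    field_simp
  have e4 : Th ρ (1 / 2) = (7 / 2 - 2 * ρ) / (2 - ρ) := by
    have h : 1 - ρ * (1 / 2) = (2 - ρ) / 2 := by ring
    unfold Th
    rw [h]
    field_simp
    ring
  have e5 : Th ρ (1 / m) = ((3 - ρ) * m ^ 2 - 3 * m + 1) / (m * (m - ρ)) := by
    have h : 1 - ρ * (1 / m) = (m - ρ) / m := by
      field_simp
    unfold Th
    rw [h]
    field_simp
  rw [e1, e2, e3, e4, e5]
  field_simp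
  ring

namespace ThSumAux

/-- the expansion of `Θ` at `1/m` -/
theorem expand {ρ m d : ℝ} (h0 : 0 < ρ) (h1 : ρ < 1) (hm : 2 ≤ m) (hd : 1 - ρ * d ≠ 0) :
    Th ρ d = Th ρ (1 / m) + (-1 / ρ + (1 - ρ) ^ 3 / (ρ * (1 - ρ / m) ^ 2)) * (d - 1 / m)
      + cr ρ m * ((d - 1 / m) ^ 2 + ρ * ((d - 1 / m) ^ 2 * (d - 1 / 2) * om ρ d)) := by
  have hm0 : m ≠ 0 := by linarith
  have hmr : m - ρ ≠ 0 := by linarith
  have h2r : 2 - ρ ≠ 0 := by linarith
  have hr : ρ ≠ 0 := h0.ne'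
  have h3 : 1 - ρ * (1 / m) = (m - ρ) / m := by
    field_simp
  have h4 : 1 - ρ / m = (m - ρ) / m := by
    field_simp
  have h5 : 1 - ρ / 2 = (2 - ρ) / 2 := by ring
  unfold Th cr om
  rw [h3, h4, h5]
  field_simp
  ring

end ThSumAux

section

variable {ι : Type*} [Fintype ι] [DecidableEq ι]

open ThSumAux in
/-- `Θ(d) = (affine in d) + (δ³/ρ²) ω(d)`, hence
`Θ(d) = Θ(1/m) + T₁ (d - 1/m) + c_ρ (d-1/m)² (1 + ρ (d-1/2) ω(d))` with a constant `T₁`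
(`T₁ = Θ'(1/m)`), for all `d`, in particular for `d = 1/2`. Sum over `i` with `d i = 1/n + a i²`,
`∑ d i = 2`, `n = m+2`, `∑ (d i - 1/m)² = A4 + 3/n - 4/m + n/m²`; subtract the same for the block values
(`1/2` twice, `1/m` `m` times). -/
theorem th_sum {a : ι → ℝ} (h2 : ∑ i, a i ^ 2 = 1) {n m ρ : ℝ}
    (hcard : (Fintype.card ι : ℝ) = n) (hn : n = m + 2) (hm : 2 ≤ m) (hρ0 : 0 < ρ) (hρ1 : ρ < 1)
    (hd : ∀ i, 1 / n + a i ^ 2 ≤ 1) :
    ∑ i, Th ρ (1 / n + a i ^ 2) = 2 * Th ρ (1 / 2) + m * Th ρ (1 / m)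
      + cr ρ m * (∑ i, a i ^ 4 - (1 / 2 + 1 / m - 3 / n)
        + ρ * ∑ i, ((1 / n + a i ^ 2) - 1 / m) ^ 2 * ((1 / n + a i ^ 2) - 1 / 2)
          * om ρ (1 / n + a i ^ 2)) := by
  have hm0 : m ≠ 0 := by linarith
  have hn0 : n ≠ 0 := by linarith
  have hnpos : 0 < n := by linarith
  have hden : ∀ i, 1 - ρ * (1 / n + a i ^ 2) ≠ 0 := by
    intro i
    have h3 := hd i
    have h4 : 0 < 1 / n + a i ^ 2 := by positivity
    nlinarith
  have hhalf : 1 - ρ * (1 / 2) ≠ 0 := by linarith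
  have hE := expand hρ0 hρ1 hm hhalf
  rw [sub_self, mul_zero, zero_mul, mul_zero, add_zero] at hE
  rw [Finset.sum_congr rfl fun i _ => expand hρ0 hρ1 hm (hden i), hE]
  set T1 : ℝ := -1 / ρ + (1 - ρ) ^ 3 / (ρ * (1 - ρ / m) ^ 2) with hT1
  set X : ℝ := ∑ i, ((1 / n + a i ^ 2) - 1 / m) ^ 2 * ((1 / n + a i ^ 2) - 1 / 2)
          * om ρ (1 / n + a i ^ 2) with hX
  have hs1 : ∑ i, (1 / n + a i ^ 2 - 1 / m) = 1 - 2 / m := by
    rw [Finset.sum_sub_distrib, Finset.sum_add_distrib, Finset.sum_const, Finset.sum_const, h2,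
      Finset.card_univ, nsmul_eq_mul, nsmul_eq_mul, hcard, hn]
    have : m + 2 ≠ 0 := by linarith
    field_simp
    ring
  have hs2 : ∑ i, (1 / n + a i ^ 2 - 1 / m) ^ 2 = ∑ i, a i ^ 4 + 3 / n - 4 / m + n / m ^ 2 := by
    have h3 : ∀ i, (1 / n + a i ^ 2 - 1 / m) ^ 2
        = a i ^ 4 + 2 * (1 / n - 1 / m) * a i ^ 2 + (1 / n - 1 / m) ^ 2 := fun i => by ring
    rw [Finset.sum_congr rfl fun i _ => h3 i, Finset.sum_add_distrib, Finset.sum_add_distrib,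
      ← Finset.mul_sum, h2, Finset.sum_const, Finset.card_univ, nsmul_eq_mul, hcard]
    field_simp
    ring
  rw [Finset.sum_add_distrib, Finset.sum_add_distrib, Finset.sum_const, Finset.card_univ,
    nsmul_eq_mul, hcard, ← Finset.mul_sum, ← Finset.mul_sum, Finset.sum_add_distrib,
    ← Finset.mul_sum, ← hX, hs1, hs2]
  have h6 : 3 / n - 4 / m + n / m ^ 2 = 2 * (1 / 2 - 1 / m) ^ 2 - (1 / 2 + 1 / m - 3 / n) := by
    rw [hn]
    have : m + 2 ≠ 0 := by linarith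
    field_simp
    ring
  have h7 : ∑ i, a i ^ 4 + 3 / n - 4 / m + n / m ^ 2
      = ∑ i, a i ^ 4 + (3 / n - 4 / m + n / m ^ 2) := by ring
  rw [h7, h6]
  rw [show n * Th ρ (1 / m) = (m + 2) * Th ρ (1 / m) by rw [hn]]
  ring

end

end Pool.Agent.RieszMix
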