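import Pool.Agent.RieszMix.LTwo

set_option autoImplicit false

open Real Finset

namespace Pool.Agent.RieszMix

namespace XBoundAux

theorem om_pos' {ρ d : ℝ} (h0 : 0 < ρ) (h1 : ρ < 1) (hd : d ≤ 1) : 0 < om ρ d := by
  unfold om
  have h2 : ρ * d ≤ ρ * 1 := mul_le_mul_of_nonneg_left hd h0.le
  have h3 : 0 < 1 - ρ * d := by linarith
  exact one_div_pos.2 h3

theorem om_step {ρ d e : ℝ} (h0 : 0 < ρ) (h1 : ρ < 1) (hde : d ≤ e) (he : e ≤ 1 / 2) :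
    (1 / 2 - e) * om ρ e ≤ (1 / 2 - d) * om ρ d := by
  unfold om
  have h2 : ρ * e ≤ ρ * 1 := mul_le_mul_of_nonneg_left (by linarith) h0.le
  have h3 : ρ * d ≤ ρ * 1 := mul_le_mul_of_nonneg_left (by linarith) h0.le
  have h4 : 0 < 1 - ρ * e := by linarith
  have h5 : 0 < 1 - ρ * d := by linarith
  rw [mul_one_div, mul_one_div, div_le_div_iff₀ h4 h5]
  nlinarith [mul_nonneg (sub_nonneg.2 hde) (by linarith : (0 : ℝ) ≤ 1 - ρ / 2)]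

end XBoundAux

open XBoundAux

section

variable {ι : Type*} [Fintype ι] [DecidableEq ι] {a : ι → ℝ}

/-- the sum `X = ∑ (d-1/m)² (d-1/2) ω(d)` -/
noncomputable def XX (ρ n m : ℝ) (a : ι → ℝ) : ℝ :=
  ∑ i, ((1 / n + a i ^ 2) - 1 / m) ^ 2 * ((1 / n + a i ^ 2) - 1 / 2) * om ρ (1 / n + a i ^ 2)

/-- MODULE RM15. Easy case. -/
theorem X_nonpos {ρ n m : ℝ} (hρ0 : 0 < ρ) (hρ1 : ρ < 1)
    (hd : ∀ i, 1 / n + a i ^ 2 ≤ 1 / 2) (hn : 0 < n) : XX ρ n m a ≤ 0 := by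
  unfold XX
  refine Finset.sum_nonpos fun i _ => ?_
  have h1 := hd i
  have h2 : 0 < om ρ (1 / n + a i ^ 2) := om_pos' hρ0 hρ1 (by linarith)
  refine mul_nonpos_of_nonpos_of_nonneg ?_ h2.le
  exact mul_nonpos_of_nonneg_of_nonpos (sq_nonneg _) (by linarith)

/-- One `d` above `1/2`. For `i ≠ i1`: `d i ≤ 1/2 - θ` (`d_bounds`), and `(1/2-d) ω(d)` is decreasing in
`d` so `≥ θ ω(1/2-θ)`; `d i - 1/m = a i² - 2/(mn)`, so
`∑_{i≠i1} (d i-1/m)² ≥ A4 - a i1⁴ - 4/(mn)`, `4/(mn) ≤ .00003`;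
`(d i1 - 1/m)² ≤ (1/2+θ)²`, `a i1⁴ ≤ (1/2+θ)²`. -/
theorem X_le {ρ n m : ℝ} (hρ0 : 0 < ρ) (hρ1 : ρ < 1) (h2 : ∑ i, a i ^ 2 = 1)
    (hm : 401 ≤ m) (hn : n = m + 2) (h4 : ∑ i, a i ^ 4 ≤ 0.493) {i1 : ι} {θ : ℝ}
    (hθ : a i1 ^ 2 + 1 / n = 1 / 2 + θ) (hθ0 : 0 < θ) :
    XX ρ n m a ≤ θ * ((1 / 2 + θ) ^ 2 * (om ρ (1 / 2 + θ) + om ρ (1 / 2 - θ))
      - (∑ i, a i ^ 4 - 0.00003) * om ρ (1 / 2 - θ)) := by
  have hm0 : 0 < m := by linarith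
  have hn0 : 0 < n := by linarith
  obtain ⟨hb1, hb2⟩ := d_bounds h4 (n := n) (by linarith)
  have hd1 : 1 / n + a i1 ^ 2 = 1 / 2 + θ := by linarith
  have hθ1 : 1 / 2 + θ ≤ 0.7047 := by rw [← hd1]; exact hb1 i1
  have ho1 : 0 < om ρ (1 / 2 + θ) := om_pos' hρ0 hρ1 (by linarith)
  have ho2 : 0 < om ρ (1 / 2 - θ) := om_pos' hρ0 hρ1 (by linarith)
  have hm1 : 1 / m ≤ 1 / 401 := one_div_le_one_div_of_le (by norm_num) hm
  have hm2 : 0 < 1 / m := one_div_pos.2 hm0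
  have hn1 : 0 < 1 / n := one_div_pos.2 hn0
  set κ : ℝ := 2 / (m * n) with hκ
  have hκ0 : 0 < κ := by positivity
  have hκe : 1 / n - 1 / m = - κ := by
    rw [hκ, hn]
    have h5 : m + 2 ≠ 0 := by linarith
    field_simp
    ring
  have hκ1 : 2 * κ ≤ 0.00003 := by
    have h5 : (401 : ℝ) * 403 ≤ m * n := by nlinarith
    have h6 : κ ≤ 2 / (401 * 403) := by
      rw [hκ]
      exact div_le_div_of_nonneg_left (by norm_num) (by norm_num) h5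
    have h7 : (2 : ℝ) * (2 / (401 * 403)) ≤ 0.00003 := by norm_num
    linarith
  -- the terms `i ≠ i1`
  have hterm : ∀ i ∈ univ.erase i1,
      ((1 / n + a i ^ 2) - 1 / m) ^ 2 * ((1 / n + a i ^ 2) - 1 / 2) * om ρ (1 / n + a i ^ 2)
        ≤ (a i ^ 4 - 2 * κ * a i ^ 2) * (-(θ * om ρ (1 / 2 - θ))) := by
    intro i hi
    have hne : i ≠ i1 := (Finset.mem_erase.1 hi).1
    have h5 := hb2 i i1 hne
    rw [hd1] at h5
    have h6 : 1 / n + a i ^ 2 ≤ 1 / 2 - θ := by linarith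
    have h7 := om_step hρ0 hρ1 h6 (by linarith)
    have h8 : (1 / 2 - (1 / 2 - θ)) = θ := by ring
    rw [h8] at h7
    have h9 : (1 / n + a i ^ 2) - 1 / m = a i ^ 2 - κ := by linarith
    have h10 : a i ^ 4 - 2 * κ * a i ^ 2 ≤ (a i ^ 2 - κ) ^ 2 := by nlinarith [sq_nonneg κ]
    have h11 : 0 ≤ θ * om ρ (1 / 2 - θ) := mul_nonneg hθ0.le ho2.le
    calc ((1 / n + a i ^ 2) - 1 / m) ^ 2 * ((1 / n + a i ^ 2) - 1 / 2) * om ρ (1 / n + a i ^ 2)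
        = (a i ^ 2 - κ) ^ 2 * (-((1 / 2 - (1 / n + a i ^ 2)) * om ρ (1 / n + a i ^ 2))) := by
          rw [h9]; ring
      _ ≤ (a i ^ 2 - κ) ^ 2 * (-(θ * om ρ (1 / 2 - θ))) :=
          mul_le_mul_of_nonneg_left (by linarith) (sq_nonneg _)
      _ ≤ (a i ^ 4 - 2 * κ * a i ^ 2) * (-(θ * om ρ (1 / 2 - θ))) := by nlinarith
  have hsum4 : ∑ i ∈ univ.erase i1, a i ^ 4 = ∑ i, a i ^ 4 - a i1 ^ 4 := by
    rw [← Finset.add_sum_erase univ (fun i => a i ^ 4) (Finset.mem_univ i1)]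
    ring
  have hsum2 : ∑ i ∈ univ.erase i1, a i ^ 2 = 1 - a i1 ^ 2 := by
    rw [← h2, ← Finset.add_sum_erase univ (fun i => a i ^ 2) (Finset.mem_univ i1)]
    ring
  have hrest : ∑ i ∈ univ.erase i1,
      ((1 / n + a i ^ 2) - 1 / m) ^ 2 * ((1 / n + a i ^ 2) - 1 / 2) * om ρ (1 / n + a i ^ 2)
        ≤ ((∑ i, a i ^ 4 - a i1 ^ 4) - 2 * κ * (1 - a i1 ^ 2)) * (-(θ * om ρ (1 / 2 - θ))) := by
    refine (Finset.sum_le_sum hterm).trans (le_of_eq ?_)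
    rw [← Finset.sum_mul, Finset.sum_sub_distrib, ← Finset.mul_sum, hsum4, hsum2]
  have h1 : ((1 / n + a i1 ^ 2) - 1 / m) ^ 2 ≤ (1 / 2 + θ) ^ 2 := by
    rw [hd1]
    have h5 : 0 ≤ 1 / 2 + θ - 1 / m := by linarith
    have h6 : 1 / 2 + θ - 1 / m ≤ 1 / 2 + θ := by linarith
    exact pow_le_pow_left₀ h5 h6 2
  have h3 : a i1 ^ 4 ≤ (1 / 2 + θ) ^ 2 := by
    have h5 : a i1 ^ 4 = (a i1 ^ 2) ^ 2 := by ring
    rw [h5]
    exact pow_le_pow_left₀ (sq_nonneg _) (by linarith) 2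
  unfold XX
  rw [← Finset.add_sum_erase univ (fun i => ((1 / n + a i ^ 2) - 1 / m) ^ 2 *
    ((1 / n + a i ^ 2) - 1 / 2) * om ρ (1 / n + a i ^ 2)) (Finset.mem_univ i1)]
  have h5 : ((1 / n + a i1 ^ 2) - 1 / m) ^ 2 * ((1 / n + a i1 ^ 2) - 1 / 2) *
      om ρ (1 / n + a i1 ^ 2) ≤ (1 / 2 + θ) ^ 2 * (θ * om ρ (1 / 2 + θ)) := by
    have h6 : ((1 / n + a i1 ^ 2) - 1 / m) ^ 2 * ((1 / n + a i1 ^ 2) - 1 / 2) *
      om ρ (1 / n + a i1 ^ 2) = ((1 / n + a i1 ^ 2) - 1 / m) ^ 2 * (θ * om ρ (1 / 2 + θ)) := by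
      rw [hd1]; ring
    rw [h6]
    exact mul_le_mul_of_nonneg_right h1 (mul_nonneg hθ0.le ho1.le)
  have h6 : ((∑ i, a i ^ 4 - a i1 ^ 4) - 2 * κ * (1 - a i1 ^ 2)) * (-(θ * om ρ (1 / 2 - θ)))
      ≤ ((∑ i, a i ^ 4 - (1 / 2 + θ) ^ 2) - 0.00003) * (-(θ * om ρ (1 / 2 - θ))) := by
    refine mul_le_mul_of_nonpos_right ?_ (by
      have := mul_nonneg hθ0.le ho2.le
      linarith)
    have h7 : 0 ≤ 2 * κ * a i1 ^ 2 := by positivity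
    nlinarith
  have h7 := add_le_add h5 (hrest.trans h6)
  refine h7.trans (le_of_eq ?_)
  ring

end

end Pool.Agent.RieszMix
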