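import Pool.Agent.RieszMix.PairD
import Pool.Agent.RieszMix.SumPair
import Pool.Agent.RieszMix.STerm
import Pool.Agent.RieszMix.ThSum
import Pool.Agent.RieszMix.XBound
import Pool.Agent.RieszMix.ScalMix

set_option autoImplicit false

open Real Finset

namespace Pool.Agent.RieszMix

open Pool.Agent.RieszLin

/-- MODULE RM17 (a). Scalar assembly. `c_ρ > 0`, `1/c_ρ ≥ .995 (1-ρ/2)/δ³` (`(1-ρ/m)² ≥ .995`),
`0.00126 δ⁴/(2-ρ) ≤ .00063 δ c_ρ` (`c_ρ ≥ δ³/(1-ρ/2) = 2δ³/(2-ρ)`). With `.477 = 1/2 - .023` and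
`.4746 ≤ .995·.477`, `1/2+1/m-3/n ≥ .49503`. If `θ > 0`: for `x ≤ .493` the function
`.49503 - x + ρθω₂ x` is decreasing in `x` (`ρθω₂ < 1`). -/
theorem regB_scal {ρ m n x L X : ℝ} (hρ0 : 0 < ρ) (hρ1 : ρ < 1) (hm : 401 ≤ m) (hn : n = m + 2)
    (hx : x ≤ 0.493) (hL : 0 ≤ L)
    (h : X ≤ 0 ∨ ∃ θ : ℝ, 0 < θ ∧ θ ≤ 0.2047 ∧
      X ≤ θ * ((1 / 2 + θ) ^ 2 * (om ρ (1 / 2 + θ) + om ρ (1 / 2 - θ))
        - (x - 0.00003) * om ρ (1 / 2 - θ)) ∧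
      ((1 + 2 * θ) / (2 + 3 * θ)) ^ 2 * (θ + 0.002) ^ 2 / (1 / 2 - θ) ≤ L) :
    cr ρ m * (x - (1 / 2 + 1 / m - 3 / n) + ρ * X)
      < 0.477 * L - 0.00126 * (1 - ρ) ^ 4 / (2 - ρ) := by
  have hδ : 0 < 1 - ρ := by linarith
  have hm0 : 0 < m := by linarith
  have hρm : ρ / m ≤ 1 / 401 := by
    rw [div_le_iff₀ hm0]
    nlinarith
  have hρm0 : 0 < ρ / m := div_pos hρ0 hm0
  have hρ2 : 0 < 1 - ρ / 2 := by linarith
  have hq0 : 0 < (1 - ρ / m) ^ 2 := by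
    apply pow_pos
    linarith
  have hq1 : (1 - ρ / m) ^ 2 ≤ 1 := by nlinarith
  have hq2 : (0.995 : ℝ) ≤ (1 - ρ / m) ^ 2 := by nlinarith
  have hc0 : 0 < cr ρ m := by
    unfold cr
    positivity
  -- `c_ρ ≥ 2 δ³ / (2 - ρ)`
  have hc1 : 0.00126 * (1 - ρ) ^ 4 / (2 - ρ) ≤ 0.00063 * (1 - ρ) * cr ρ m := by
    have h1 : (1 - ρ) ^ 3 / (1 - ρ / 2) ≤ cr ρ m := by
      unfold cr
      apply div_le_div_of_nonneg_left (by positivity) (by positivity)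
      calc (1 - ρ / m) ^ 2 * (1 - ρ / 2) ≤ 1 * (1 - ρ / 2) :=
            mul_le_mul_of_nonneg_right hq1 hρ2.le
        _ = 1 - ρ / 2 := one_mul _
    have h2 : 0.00126 * (1 - ρ) ^ 4 / (2 - ρ) = 0.00063 * (1 - ρ) * ((1 - ρ) ^ 3 / (1 - ρ / 2)) := by
      have h3 : (2 - ρ) ≠ 0 := by linarith
      have h4 : (1 - ρ / 2) ≠ 0 := hρ2.ne'
      field_simp
      ring
    rw [h2]
    exact mul_le_mul_of_nonneg_left h1 (by positivity)
  -- `1/2 + 1/m - 3/n ≥ .49503`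
  have hE : (0.49503 : ℝ) ≤ 1 / 2 + 1 / m - 3 / n := by
    have hn0 : 0 < n := by linarith
    have h1 : 1 / 2 + 1 / m - 3 / n - 0.49503 = (0.00497 * (m * n) + n - 3 * m) / (m * n) := by
      field_simp
      ring
    have h2 : 0 ≤ (0.00497 * (m * n) + n - 3 * m) / (m * n) := by
      apply div_nonneg _ (by positivity)
      rw [hn]
      nlinarith
    linarith
  rcases h with hX | ⟨θ, hθ0, hθ1, hX, hB⟩
  · have h1 : x - (1 / 2 + 1 / m - 3 / n) + ρ * X ≤ -0.00203 := by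
      have : ρ * X ≤ 0 := mul_nonpos_of_nonneg_of_nonpos hρ0.le hX
      linarith
    have h2 : cr ρ m * (x - (1 / 2 + 1 / m - 3 / n) + ρ * X) ≤ cr ρ m * (-0.00203) :=
      mul_le_mul_of_nonneg_left h1 hc0.le
    have h3 : 0.00063 * (1 - ρ) * cr ρ m ≤ 0.00063 * cr ρ m := by
      have : (1 - ρ) * cr ρ m ≤ 1 * cr ρ m := mul_le_mul_of_nonneg_right (by linarith) hc0.le
      linarith
    linarith
  · have hmix := scal_mix hρ0 hρ1 hθ0 hθ1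
    set w1 := om ρ (1 / 2 + θ) with hw1
    set w2 := om ρ (1 / 2 - θ) with hw2
    set B := ((1 + 2 * θ) / (2 + 3 * θ)) ^ 2 * (θ + 0.002) ^ 2 / (1 / 2 - θ) with hBdef
    have hθh : 0 < 1 / 2 - θ := by linarith
    have hB0 : 0 ≤ B := by
      rw [hBdef]
      positivity
    have hden : 0 < 1 - ρ * (1 / 2 - θ) := by nlinarith
    have hw20 : 0 < w2 := by
      rw [hw2]
      unfold om
      positivity
    have hw21 : ρ * θ * w2 ≤ 1 := by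
      rw [hw2]
      unfold om
      rw [mul_one_div, div_le_one hden]
      nlinarith
    -- replace `x` by `.493`
    have h1 : x - (1 / 2 + 1 / m - 3 / n) + ρ * X ≤
        -0.00203 + ρ * θ * (1 / 2 + θ) ^ 2 * (w1 + w2) - 0.4929 * (ρ * θ * w2) := by
      have h2 : ρ * X ≤ ρ * (θ * ((1 / 2 + θ) ^ 2 * (w1 + w2) - (x - 0.00003) * w2)) :=
        mul_le_mul_of_nonneg_left hX hρ0.le
      have h3 : (x - 0.493) * (1 - ρ * θ * w2) ≤ 0 :=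
        mul_nonpos_of_nonpos_of_nonneg (by linarith) (by linarith)
      have h4 : 0 ≤ ρ * θ * w2 := by positivity
      nlinarith
    have h5 : x - (1 / 2 + 1 / m - 3 / n) + ρ * X <
        -(0.00063 * (1 - ρ)) + 0.4746 * (1 - ρ / 2) / (1 - ρ) ^ 3 * B := by
      linarith
    have h6 : cr ρ m * (x - (1 / 2 + 1 / m - 3 / n) + ρ * X) <
        cr ρ m * (-(0.00063 * (1 - ρ)) + 0.4746 * (1 - ρ / 2) / (1 - ρ) ^ 3 * B) :=
      mul_lt_mul_of_pos_left h5 hc0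
    have h7 : cr ρ m * (0.4746 * (1 - ρ / 2) / (1 - ρ) ^ 3 * B) ≤ 0.477 * L := by
      have h8 : cr ρ m * (0.4746 * (1 - ρ / 2) / (1 - ρ) ^ 3 * B) =
          0.4746 / (1 - ρ / m) ^ 2 * B := by
        unfold cr
        have h9 : (1 - ρ / 2) ≠ 0 := hρ2.ne'
        have h10 : (1 - ρ) ^ 3 ≠ 0 := (pow_pos hδ 3).ne'
        have h11 : (1 - ρ / m) ^ 2 ≠ 0 := hq0.ne'
        generalize (1 - ρ / m) ^ 2 = q at h11 ⊢
        generalize (1 - ρ) ^ 3 = d at h10 ⊢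
        generalize (1 - ρ / 2) = r at h9 ⊢
        field_simp
      rw [h8]
      have h12 : 0.4746 / (1 - ρ / m) ^ 2 ≤ 0.477 := by
        rw [div_le_iff₀ hq0]
        nlinarith
      calc 0.4746 / (1 - ρ / m) ^ 2 * B ≤ 0.477 * B := mul_le_mul_of_nonneg_right h12 hB0
        _ ≤ 0.477 * L := mul_le_mul_of_nonneg_left hB (by norm_num)
    have h13 : cr ρ m * (-(0.00063 * (1 - ρ)) + 0.4746 * (1 - ρ / 2) / (1 - ρ) ^ 3 * B) =
        -(0.00063 * (1 - ρ) * cr ρ m) + cr ρ m * (0.4746 * (1 - ρ / 2) / (1 - ρ) ^ 3 * B) := by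
      ring
    linarith

section

variable {ι : Type*} [Fintype ι] [DecidableEq ι] {V : Type*} [NormedAddCommGroup V]
  [InnerProductSpace ℝ V]

/-- MODULE RM17 (b). The mixture part: for every `ρ ∈ (0,1)` the kernel energy beats the block.
`offsum_le` with `pair_D` (`d i = 1/n+a i² > 0`, `d i + d j ≤ 1` (`d_bounds`),
`(1/n+a i a j)² ≤ d i d j`), `sum_pair` (with `K = 2-ρ`, `G i = GG ρ (d i)`, `A i = AA ρ (d i)`;
`Th_eq` identifies the summand), `sterm_GG`, `th_sum`, `block_ek`, `X_nonpos`/`X_le`,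
`L2_nonneg`/`L2_low`, `regB_scal`. -/
theorem regB {x : ι → V} (hx : ∀ i, ‖x i‖ = 1)
    (hlt : ∀ i j, i ≠ j → (inner ℝ (x i) (x j) : ℝ) < 1) {a : ι → ℝ} (h0 : ∑ i, a i = 0)
    (h2 : ∑ i, a i ^ 2 = 1) (hax : ∑ i, a i • x i = 0) {m ρ : ℝ} (hm : 401 ≤ m)
    (hcard : (Fintype.card ι : ℝ) = m + 2) (h4 : ∑ i, a i ^ 4 ≤ 0.493) (hρ0 : 0 < ρ)
    (hρ1 : ρ < 1) :
    2 * ek ρ 2 + 4 * m * ek ρ 1 + m * (m - 1) * ek ρ (m / (m - 1))
      < offsum (fun i j => ek ρ (1 - (inner ℝ (x i) (x j) : ℝ))) := by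
  obtain ⟨n, hn⟩ : ∃ n : ℝ, n = m + 2 := ⟨_, rfl⟩
  have hcardn : (Fintype.card ι : ℝ) = n := by rw [hcard, hn]
  have hn403 : 403 ≤ n := by linarith
  have hn0 : 0 < n := by linarith
  obtain ⟨hd1, hd2⟩ := d_bounds h4 hn403
  have hin : 0 < 1 / n := by positivity
  have hdpos : ∀ i, 0 < 1 / n + a i ^ 2 := fun i => by positivity
  have hd01 : ∀ i, 1 / n + a i ^ 2 ≤ 1 := fun i => (hd1 i).trans (by norm_num)
  -- the pair inequality
  have hpair := offsum_le (ι := ι)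
    (f := fun i j => 1 - ((2 - ρ) - (1 / n + a i * a j) *
          ((GG ρ (1 / n + a i ^ 2) + GG ρ (1 / n + a j ^ 2)) / 2))
          * ((1 - (inner ℝ (x i) (x j) : ℝ)) - 1)
        - (1 / n + a i * a j) ^ 2 * ((AA ρ (1 / n + a i ^ 2) + AA ρ (1 / n + a j ^ 2)) / 2)
        + (1 / n + a i * a j) ^ 2 / 2
          * (((1 / n + a i ^ 2) + (1 / n + a j ^ 2)) / 2 - (1 / n + a i * a j)))
    (g := fun i j => ek ρ (1 - (inner ℝ (x i) (x j) : ℝ)))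
    (fun i j hij => pair_D hρ0 hρ1 (hdpos i) (hdpos j) (hd2 i j hij)
      (by nlinarith [mul_nonneg hin.le (sq_nonneg (a i - a j))])
      (by linarith [hlt i j hij]))
  have hsum := sum_pair (K := 2 - ρ) hx h0 h2 hax hcardn hn0 (fun i => GG ρ (1 / n + a i ^ 2))
    (fun i => AA ρ (1 / n + a i ^ 2))
  rw [hsum] at hpair
  have hTh : ∑ i, (1 + (2 - ρ) - (1 / n + a i ^ 2) * GG ρ (1 / n + a i ^ 2)
      + (1 / n + a i ^ 2) * (1 - (1 / n + a i ^ 2)) * AA ρ (1 / n + a i ^ 2)) =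
      ∑ i, Th ρ (1 / n + a i ^ 2) :=
    Finset.sum_congr rfl fun i _ => (Th_eq hρ0 hρ1 (hdpos i).le (hd01 i)).symm
  rw [hTh] at hpair
  have hst := sterm_GG hx h0 h2 hax hcardn hn403 hρ0 hρ1 h4
  have hths := th_sum h2 hcardn hn (by linarith) hρ0 hρ1 hd01
  rw [hths] at hpair
  have hblock := block_ek hρ0 hρ1 (show 2 ≤ m by linarith)
  have hL0 : 0 ≤ ∑ i, a i ^ 4 - (∑ i, a i ^ 3) ^ 2 - 1 / n := by
    rw [← L2_nonneg h0 h2 hcardn hn0]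
    exact Finset.sum_nonneg fun i _ => sq_nonneg _
  have hscal := regB_scal (ρ := ρ) (m := m) (n := n) (x := ∑ i, a i ^ 4)
    (L := ∑ i, a i ^ 4 - (∑ i, a i ^ 3) ^ 2 - 1 / n) (X := XX ρ n m a) hρ0 hρ1 hm hn h4 hL0 (by
      by_cases hall : ∀ i, 1 / n + a i ^ 2 ≤ 1 / 2
      · exact Or.inl (X_nonpos hρ0 hρ1 hall hn0)
      · push Not at hall
        obtain ⟨i1, hi1⟩ := hall
        have hθ : a i1 ^ 2 + 1 / n = 1 / 2 + (a i1 ^ 2 + 1 / n - 1 / 2) := by ring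
        have hθ0 : 0 < a i1 ^ 2 + 1 / n - 1 / 2 := by linarith
        refine Or.inr ⟨a i1 ^ 2 + 1 / n - 1 / 2, hθ0, ?_, ?_, ?_⟩
        · have := hd1 i1
          norm_num at this ⊢
          linarith
        · exact X_le hρ0 hρ1 h2 hm hn h4 hθ hθ0
        · exact L2_low h0 h2 hcardn hn403 h4 hθ hθ0)
  have hXX : XX ρ n m a = ∑ i, ((1 / n + a i ^ 2) - 1 / m) ^ 2 * ((1 / n + a i ^ 2) - 1 / 2)
          * om ρ (1 / n + a i ^ 2) := rfl
  rw [hXX] at hscal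
  rw [hblock, ← hn]
  linarith

end

end Pool.Agent.RieszMix
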