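import Pool.Agent.RieszLin.Lower
import Pool.Agent.RieszMix.Global2
import Pool.Agent.RieszMix.Local2
import Pool.Agent.RieszMix.RegB
import Pool.Agent.RieszMix.Mixture

set_option autoImplicit false

open Real Finset

namespace Pool.Agent.RieszMix

open Pool.Agent.RieszSmall Pool.Agent.RieszLin

section

variable {ι : Type*} [Fintype ι] [DecidableEq ι] {V : Type*} [NormedAddCommGroup V]
  [InnerProductSpace ℝ V] [FiniteDimensional ℝ V]

/-- The mixture part in terms of the energy. -/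
theorem mix_lower {q m : ℝ} (hq : 1 < q) (hq2 : q < 2) (hm : 401 ≤ m)
    (hcard : (Fintype.card ι : ℝ) = m + 2) {x : ι → V} (hx : ∀ i, ‖x i‖ = 1)
    (hlt : ∀ i j, i ≠ j → (inner ℝ (x i) (x j) : ℝ) < 1) {a : ι → ℝ} (h0 : ∑ i, a i = 0)
    (h2 : ∑ i, a i ^ 2 = 1) (hax : ∑ i, a i • x i = 0) (h4 : ∑ i, a i ^ 4 ≤ 0.493) :
    TT q m < En q x := by
  have hm2 : (2 : ℝ) ≤ m := by linarith
  have h := mixture (ι := ι) hq hq2 hm2 (D := fun i j => 1 - (inner ℝ (x i) (x j) : ℝ))
    (fun i j hij => sub_pos.2 (hlt i j hij))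
    (fun ρ hρ0 hρ1 => regB hx hlt h0 h2 hax hm hcard h4 hρ0 hρ1)
  rw [← TT_eq hm2] at h
  exact h

/-- The lower bound for the energy and its equality case, `1 < q < 2`. -/
theorem lower2 {q m : ℝ} (hq : 1 < q) (hq2 : q < 2) (hm : 401 ≤ m)
    (hcard : (Fintype.card ι : ℝ) = m + 2)
    {x : ι → V} (hfr : Module.finrank ℝ V + 2 ≤ Fintype.card ι) (hx : ∀ i, ‖x i‖ = 1)
    (hlt : ∀ i j, i ≠ j → (inner ℝ (x i) (x j) : ℝ) < 1) :
    TT q m ≤ En q x ∧ (En q x = TT q m → ∃ P : Finset ι, P.card = 2 ∧ OrthSimplices P x) := by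
  obtain ⟨a, h0, h2, hax⟩ := exists_aff x hfr
  have hq0 : (0 : ℝ) < q := by linarith
  have hm2 : (2 : ℝ) ≤ m := by linarith
  have hκ := (kap_facts (q := q) (m := m) hq.le hm2).1.le
  by_cases hP : ∀ i j, i ≠ j → a i * a j ≤ 8 / 17
  · rcases le_total (∑ i, a i ^ 4) 0.493 with h4 | h4
    · have := mix_lower hq hq2 hm hcard hx hlt h0 h2 hax h4
      exact ⟨this.le, fun h => absurd h this.ne'⟩
    · obtain ⟨A, B, hK, hlow⟩ := glob_main2 hq.le hq2.le hm hcard h0 h2 hP h4
      obtain ⟨d1, -⟩ := dual_bound hx hlt h0 hax hq0 hκ hK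
      rw [hcard] at d1
      exact ⟨by linarith, fun h => by linarith⟩
  · push Not at hP
    obtain ⟨i, j, hij, hlt'⟩ := hP
    -- choose signs and order
    have key : ∀ (b : ι → ℝ) (i1 i2 : ι), i1 ≠ i2 → ∑ i, b i = 0 → ∑ i, b i ^ 2 = 1 →
        ∑ i, b i • x i = 0 → 0 < b i2 → b i2 ≤ b i1 → 8 / 17 ≤ b i1 * b i2 →
        TT q m ≤ En q x ∧ (En q x = TT q m → ∃ P : Finset ι, P.card = 2 ∧ OrthSimplices P x) := by
      intro b i1 i2 hne hb0 hb2 hbx hpos hle hPb
      obtain ⟨A, B, hK, hlow, heq⟩ := loc_main2 hq.le hq2.le hm hcard hb0 hb2 hne hpos hle hPb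
      obtain ⟨d1, d2⟩ := dual_bound hx hlt hb0 hbx hq0 hκ hK
      rw [hcard] at d1 d2
      refine ⟨by linarith, fun h => ?_⟩
      obtain ⟨e1, e2, e3⟩ := heq (by linarith)
      exact orth_of_K (q := q) (m := m) hq.le hcard hm2 hlt hne (d2 (by linarith)) e1 e2 e3
    have hneg2 : ∑ i, (-a i) ^ 2 = 1 := by simpa using h2
    have hneg0 : ∑ i, -a i = 0 := by simpa using h0
    have hnegx : ∑ i, (-a i) • x i = 0 := by simpa using hax
    rcases lt_or_ge 0 (a j) with hj | hj
    · rcases le_total (a j) (a i) with h | h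
      · exact key a i j hij h0 h2 hax hj h hlt'.le
      · have hi : 0 < a i := by
          by_contra hcon
          push Not at hcon
          nlinarith
        exact key a j i hij.symm h0 h2 hax hi h (by rw [mul_comm]; exact hlt'.le)
    · have hj' : a j < 0 := by
        rcases hj.lt_or_eq with h | h
        · exact h
        · rw [h, mul_zero] at hlt'; norm_num at hlt'
      have hi' : a i < 0 := by
        by_contra hcon
        push Not at hcon
        nlinarith
      rcases le_total (a j) (a i) with h | h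
      · exact key (fun k => -a k) j i hij.symm hneg0 hneg2 hnegx (by linarith) (by linarith)
          (by nlinarith)
      · exact key (fun k => -a k) i j hij hneg0 hneg2 hnegx (by linarith) (by linarith)
          (by nlinarith)

end

end Pool.Agent.RieszMix
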