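import Pool.Agent.RieszMix.Defs

set_option autoImplicit false

open Real Finset

namespace Pool.Agent.RieszMix

/-- MODULE RM1. Elementary facts; `δ = 1 - ρ`. -/
theorem om_facts {ρ d : ℝ} (h0 : 0 < ρ) (h1 : ρ < 1) (hd0 : 0 ≤ d) (hd1 : d ≤ 1) :
    1 ≤ om ρ d ∧ (1 - ρ) * om ρ d ≤ 1 ∧ 0 < 1 - ρ * d ∧ om ρ d - 1 = ρ * d * om ρ d := by
  have h2 : ρ * d ≤ ρ := by nlinarith
  have h3 : 0 < 1 - ρ * d := by linarith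
  have h4 : 0 ≤ ρ * d := mul_nonneg h0.le hd0
  refine ⟨?_, ?_, h3, ?_⟩
  · unfold om
    rw [le_div_iff₀ h3]
    linarith
  · unfold om
    rw [mul_one_div, div_le_one h3]
    linarith
  · unfold om
    field_simp
    ring

namespace BasicAux

/-- the defining relation of `ω` -/
theorem om_rel {ρ d : ℝ} (h0 : 0 < ρ) (h1 : ρ < 1) (hd0 : 0 ≤ d) (hd1 : d ≤ 1) :
    om ρ d - 1 - ρ * d * om ρ d = 0 := by
  rw [(om_facts h0 h1 hd0 hd1).2.2.2]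
  ring

theorem AA_mul {ρ d : ℝ} (h0 : 0 < ρ) :
    ρ * AA ρ d = 1 - (1 - ρ) ^ 3 * om ρ d ^ 2 := by
  unfold AA
  field_simp

theorem GG_mul {ρ d : ℝ} (h0 : 0 < ρ) :
    ρ * GG ρ d = 2 - d - (1 - ρ) ^ 3 * om ρ d * (2 - (1 - ρ) * d * om ρ d) := by
  unfold GG
  field_simp

/-- `Γ(d) = (κ - d) ω + (1 - d) A(d)` -/
theorem GG_form {ρ d : ℝ} (h0 : 0 < ρ) (h1 : ρ < 1) (hd0 : 0 ≤ d) (hd1 : d ≤ 1) :
    GG ρ d = (kp ρ - d) * om ρ d + (1 - d) * AA ρ d := by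
  have h := om_rel h0 h1 hd0 hd1
  have hA := AA_mul (d := d) h0
  have hG := GG_mul (d := d) h0
  apply mul_left_cancel₀ h0.ne'
  rw [hG, mul_add, ← mul_assoc ρ (1 - d), mul_comm ρ (1 - d), mul_assoc (1 - d), hA]
  unfold kp
  linear_combination ((1 - ρ) ^ 3 * om ρ d - 1) * h

end BasicAux

open BasicAux

/-- `κ - A(d) = δ³ d ω (1+ω)` -/
theorem kp_sub_AA {ρ d : ℝ} (h0 : 0 < ρ) (h1 : ρ < 1) (hd0 : 0 ≤ d) (hd1 : d ≤ 1) :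
    kp ρ - AA ρ d = (1 - ρ) ^ 3 * d * om ρ d * (1 + om ρ d) := by
  have h := om_rel h0 h1 hd0 hd1
  have hA := AA_mul (d := d) h0
  apply mul_left_cancel₀ h0.ne'
  rw [mul_sub, hA]
  unfold kp
  linear_combination ((1 - ρ) ^ 3 * (1 + om ρ d)) * h

/-- `κ + A(d) - Γ(d) = d (A(d) + δ³ ω)` -/
theorem kp_AA_GG {ρ d : ℝ} (h0 : 0 < ρ) (h1 : ρ < 1) (hd0 : 0 ≤ d) (hd1 : d ≤ 1) :
    kp ρ + AA ρ d - GG ρ d = d * (AA ρ d + (1 - ρ) ^ 3 * om ρ d) := by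
  have h := om_rel h0 h1 hd0 hd1
  rw [GG_form h0 h1 hd0 hd1]
  unfold kp
  linear_combination (-(3 - 3 * ρ + ρ ^ 2)) * h

/-- `δ ω ≤ 1` gives `δ³ω² ≤ δ = 1 - ρ`; `δ³ ω² ≥ δ³`. -/
theorem AA_bounds {ρ d : ℝ} (h0 : 0 < ρ) (h1 : ρ < 1) (hd0 : 0 ≤ d) (hd1 : d ≤ 1) :
    1 ≤ AA ρ d ∧ AA ρ d ≤ kp ρ := by
  obtain ⟨hw1, hw2, hw3, hw4⟩ := om_facts h0 h1 hd0 hd1
  have hA := AA_mul (d := d) h0
  have hδ : 0 < 1 - ρ := by linarith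
  constructor
  · have h2 : 0 ≤ (1 - ρ) * om ρ d := mul_nonneg hδ.le (by linarith)
    have h3 : ((1 - ρ) * om ρ d) ^ 2 ≤ 1 := by nlinarith
    have h4 : (1 - ρ) * ((1 - ρ) * om ρ d) ^ 2 ≤ (1 - ρ) * 1 :=
      mul_le_mul_of_nonneg_left h3 hδ.le
    have h5 : ρ * 1 ≤ ρ * AA ρ d := by
      rw [hA]
      nlinarith
    exact le_of_mul_le_mul_left h5 h0
  · have h2 := kp_sub_AA h0 h1 hd0 hd1
    have h3 : 0 ≤ (1 - ρ) ^ 3 * d * om ρ d * (1 + om ρ d) := by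
      have : 0 ≤ om ρ d := by linarith
      positivity
    linarith

/-- `A(d) + δ³ ω ≥ 1 + δ²` (decreasing in `ω` on `[1, 1/δ]`) -/
theorem AA_om {ρ d : ℝ} (h0 : 0 < ρ) (h1 : ρ < 1) (hd0 : 0 ≤ d) (hd1 : d ≤ 1) :
    1 + (1 - ρ) ^ 2 ≤ AA ρ d + (1 - ρ) ^ 3 * om ρ d := by
  obtain ⟨hw1, hw2, hw3, hw4⟩ := om_facts h0 h1 hd0 hd1
  have hA := AA_mul (d := d) h0
  have hδ : 0 < 1 - ρ := by linarith
  have h2 : 0 ≤ (1 - ρ) * om ρ d := mul_nonneg hδ.le (by linarith)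
  have h3 : 0 ≤ (1 - ρ) * ((1 - (1 - ρ) * om ρ d) *
      ((1 + (1 - ρ) * om ρ d) - (1 - ρ) * ρ)) := by
    apply mul_nonneg hδ.le
    apply mul_nonneg (by linarith)
    nlinarith
  have h5 : ρ * (1 + (1 - ρ) ^ 2) ≤ ρ * (AA ρ d + (1 - ρ) ^ 3 * om ρ d) := by
    rw [mul_add ρ (AA ρ d), hA]
    nlinarith
  exact le_of_mul_le_mul_left h5 h0

/-- `Γ(d) = (κ-d) ω + (1-d) A(d) ≥ (κ-d) ω ≥ 1` -/
theorem GG_ge_one {ρ d : ℝ} (h0 : 0 < ρ) (h1 : ρ < 1) (hd0 : 0 ≤ d) (hd1 : d ≤ 1) :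
    1 ≤ GG ρ d := by
  obtain ⟨hw1, hw2, hw3, hw4⟩ := om_facts h0 h1 hd0 hd1
  have hA := (AA_bounds h0 h1 hd0 hd1).1
  rw [GG_form h0 h1 hd0 hd1]
  have h2 : 0 ≤ (1 - d) * AA ρ d := mul_nonneg (by linarith) (by linarith)
  have h3 : 0 ≤ (kp ρ - 1 - (1 - ρ) * d) * om ρ d := by
    apply mul_nonneg _ (by linarith)
    unfold kp
    nlinarith
  nlinarith

/-- With `t = δ ω(d)`, `s = δ ω(e)`:
`Γ(d) - Γ(e) = (e - d) ((1 - δ t s (t + s - δ))/ρ + 2 δ t s)`, `δ ≤ t, s ≤ 1`. -/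
theorem GG_anti {ρ d e : ℝ} (h0 : 0 < ρ) (h1 : ρ < 1) (hd0 : 0 ≤ d) (hde : d ≤ e) (he1 : e ≤ 1) :
    GG ρ e ≤ GG ρ d := by
  obtain ⟨hw1, hw2, hw3, hw4⟩ := om_facts h0 h1 hd0 (hde.trans he1)
  obtain ⟨hv1, hv2, hv3, hv4⟩ := om_facts h0 h1 (hd0.trans hde) he1
  have hG := GG_mul (d := d) h0
  have hG' := GG_mul (d := e) h0
  have hδ : 0 < 1 - ρ := by linarith
  generalize om ρ d = w at *
  generalize om ρ e = v at *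
  have e1 : v - w = ρ * (e - d) * (w * v) := by
    linear_combination w * hv4 - v * hw4
  have key : ρ * (ρ * GG ρ d - ρ * GG ρ e) = ρ * ((e - d) *
      (1 - (1 - ρ) * (((1 - ρ) * w) * ((1 - ρ) * v)) * ((1 - ρ) * w + (1 - ρ) * v - (1 - ρ)) +
        2 * (1 - ρ) * ρ * (((1 - ρ) * w) * ((1 - ρ) * v)))) := by
    rw [hG, hG']
    linear_combination (2 * ρ * (1 - ρ) ^ 3 - (1 - ρ) ^ 4 * (v + w - 1)) * e1 +
      (1 - ρ) ^ 4 * v * hv4 - (1 - ρ) ^ 4 * w * hw4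
  have key2 := mul_left_cancel₀ h0.ne' key
  have ht0 : 0 ≤ (1 - ρ) * w := mul_nonneg hδ.le (by linarith)
  have hs0 : 0 ≤ (1 - ρ) * v := mul_nonneg hδ.le (by linarith)
  have hts0 : 0 ≤ ((1 - ρ) * w) * ((1 - ρ) * v) := mul_nonneg ht0 hs0
  have hts1 : ((1 - ρ) * w) * ((1 - ρ) * v) ≤ 1 := by nlinarith
  have hdt : 1 - ρ ≤ (1 - ρ) * w := by nlinarith
  have h3 : (1 - ρ) * (((1 - ρ) * w) * ((1 - ρ) * v)) *
      ((1 - ρ) * w + (1 - ρ) * v - (1 - ρ)) ≤ (1 - ρ) * 1 * (2 - (1 - ρ)) := by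
    apply mul_le_mul
    · exact mul_le_mul_of_nonneg_left hts1 hδ.le
    · linarith
    · linarith
    · linarith
  have h4 : 0 ≤ 1 - (1 - ρ) * (((1 - ρ) * w) * ((1 - ρ) * v)) *
      ((1 - ρ) * w + (1 - ρ) * v - (1 - ρ)) +
        2 * (1 - ρ) * ρ * (((1 - ρ) * w) * ((1 - ρ) * v)) := by
    have h5 : 0 ≤ 2 * (1 - ρ) * ρ * (((1 - ρ) * w) * ((1 - ρ) * v)) := by positivity
    nlinarith
  have h5 : 0 ≤ ρ * GG ρ d - ρ * GG ρ e := by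
    rw [key2]
    exact mul_nonneg (by linarith) h4
  exact le_of_mul_le_mul_left (by linarith) h0

/-- `Θ(d) = 1 + (2-ρ) - d Γ(d) + d (1-d) A(d)` -/
theorem Th_eq {ρ d : ℝ} (h0 : 0 < ρ) (h1 : ρ < 1) (hd0 : 0 ≤ d) (hd1 : d ≤ 1) :
    Th ρ d = 1 + (2 - ρ) - d * GG ρ d + d * (1 - d) * AA ρ d := by
  have h := om_rel h0 h1 hd0 hd1
  have e : Th ρ d = (3 - ρ - 3 * d + d ^ 2) * om ρ d := by
    unfold Th om
    ring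
  rw [e, GG_form h0 h1 hd0 hd1]
  unfold kp
  linear_combination (3 - ρ) * h

end Pool.Agent.RieszMix
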