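import Pool.Agent.RieszMix.Defs

set_option autoImplicit false

open Real Finset

namespace Pool.Agent.RieszMix

/-- MODULE RM3. Three polynomial inequalities; `0 ≤ k`, `0 < s`, `k + s ≤ 1`,
`0 ≤ n ≤ (1-s-k)(1+k)`; note `1 - n ≥ k² + s(1+k)`.
(A) Left minus right is monotone in `n`, so `n = (1-s-k)(1+k)`, where the difference is
`P = (1+k)k⁴ + 2k²(1+k)²s + (-k+3k³+2k⁴)s² + (1+3k+3k²)s³ - (1+3k+2k²)s⁴ ≥ 0`:
`P ≥ 2k²s + s³(1-s) - k s²`; if `k ≤ s(1-s)` use `s²(s(1-s) - k) ≥ 0`; otherwise `s³(1-s) ≥ s³k` and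
`k s (2k - s(1-s)) ≥ 0`. -/
theorem claim_A {k s n : ℝ} (hk : 0 ≤ k) (hs : 0 < s) (hks : k + s ≤ 1) (hn0 : 0 ≤ n)
    (hn : n ≤ (1 - s - k) * (1 + k)) :
    s ^ 2 * (1 + 4 * k + 2 * k ^ 2 + 2 * k ^ 2 * n - (1 - s) * (1 + 2 * k) * (1 - n))
      ≤ (1 + k) * (1 - n) ^ 2 := by
  have hs1 : s ≤ 1 := by linarith
  have hk1 : 0 ≤ 1 + k := by linarith
  set m : ℝ := 1 - n with hm
  have hn' : n = 1 - m := by rw [hm]; ring
  have hmm : k ^ 2 + s * (1 + k) ≤ m := by rw [hm]; nlinarith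
  have hm0 : 0 ≤ k ^ 2 + s * (1 + k) := by positivity
  have hc : 0 ≤ 2 * k ^ 2 + (1 - s) * (1 + 2 * k) := by
    have : 0 ≤ (1 - s) * (1 + 2 * k) := mul_nonneg (by linarith) (by linarith)
    positivity
  have hmono : 0 ≤ (m - (k ^ 2 + s * (1 + k))) * ((1 + k) * (m + (k ^ 2 + s * (1 + k))) +
      s ^ 2 * (2 * k ^ 2 + (1 - s) * (1 + 2 * k))) := by
    refine mul_nonneg (by linarith) (add_nonneg (mul_nonneg hk1 (by linarith)) ?_)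
    exact mul_nonneg (sq_nonneg s) hc
  have h1 : 0 ≤ 2 * k ^ 2 - k * s + s ^ 2 * (1 - s) := by
    rcases le_total k (s * (1 - s)) with h | h
    · have : 0 ≤ s * (s * (1 - s) - k) := mul_nonneg hs.le (by linarith)
      nlinarith [sq_nonneg k]
    · have h2 : s ^ 2 * k ≤ s ^ 2 * (1 - s) :=
        mul_le_mul_of_nonneg_left (by linarith) (sq_nonneg s)
      have h3 : 0 ≤ k * (2 * k - s * (1 - s)) := mul_nonneg hk (by linarith)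
      nlinarith
  have h2 : 0 ≤ s * (2 * k ^ 2 - k * s + s ^ 2 * (1 - s)) := mul_nonneg hs.le h1
  have h3 : s ^ 4 ≤ s ^ 3 := pow_le_pow_of_le_one hs.le hs1 (by norm_num)
  have h4 : 0 ≤ (3 * k + 2 * k ^ 2) * (s ^ 3 - s ^ 4) :=
    mul_nonneg (by positivity) (by linarith)
  have h5 : 0 ≤ (1 + k) * k ^ 4 + 2 * k ^ 2 * (2 * k + k ^ 2) * s + (3 * k ^ 3 + 2 * k ^ 4) * s ^ 2 +
      k ^ 2 * s ^ 3 := by positivity
  rw [hn']
  linear_combination hmono + h2 + h4 + h5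

/-- (B) `1 - n ≥ s(1+k)` and `1.15 (1+k)² ≥ 1 + 3k`. -/
theorem claim_B {k s n : ℝ} (hk : 0 ≤ k) (hs : 0 < s) (hks : k + s ≤ 1) (hn0 : 0 ≤ n)
    (hn : n ≤ (1 - s - k) * (1 + k)) :
    s ^ 2 * ((1 + 3 * k) * (1 + k) - n * ((1 + k) ^ 2 - 1 / 2)) ≤ 1.15 * (1 + k) * (1 - n) ^ 2 := by
  have hs1 : s ≤ 1 := by linarith
  have hk1 : 0 ≤ 1 + k := by linarith
  set m : ℝ := 1 - n with hm
  have hmm : k ^ 2 + s * (1 + k) ≤ m := by rw [hm]; nlinarith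
  have hm1 : s * (1 + k) ≤ m := by nlinarith [sq_nonneg k]
  have hm0 : 0 ≤ s * (1 + k) := by positivity
  have h1 : (s * (1 + k)) ^ 2 ≤ m ^ 2 := pow_le_pow_left₀ hm0 hm1 2
  have h2 : 0 ≤ n * ((1 + k) ^ 2 - 1 / 2) := mul_nonneg hn0 (by nlinarith)
  have h3 : 1 + 3 * k ≤ 1.15 * (1 + k) ^ 2 := by nlinarith [sq_nonneg (k - 7 / 23)]
  calc s ^ 2 * ((1 + 3 * k) * (1 + k) - n * ((1 + k) ^ 2 - 1 / 2))
      ≤ s ^ 2 * ((1 + 3 * k) * (1 + k)) :=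
        mul_le_mul_of_nonneg_left (by linarith) (sq_nonneg s)
    _ ≤ s ^ 2 * ((1.15 * (1 + k) ^ 2) * (1 + k)) := by
        refine mul_le_mul_of_nonneg_left ?_ (sq_nonneg s)
        exact mul_le_mul_of_nonneg_right h3 hk1
    _ = 1.15 * (1 + k) * (s * (1 + k)) ^ 2 := by ring
    _ ≤ 1.15 * (1 + k) * m ^ 2 := mul_le_mul_of_nonneg_left h1 (by positivity)

/-- (C) The bracket on the right is `≥ 2k + 2k² + s(1+2k) ≥ 0`; if `s⁴ - ks(1+s+s²) ≤ 0` trivial,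
otherwise the left side is `≤ (1+k)s⁴ ≤ s³·s(1+2k)`. -/
theorem claim_C {k s n : ℝ} (hk : 0 ≤ k) (hs : 0 < s) (hks : k + s ≤ 1) (hn0 : 0 ≤ n)
    (hn : n ≤ (1 - s - k) * (1 + k)) :
    (1 + k) * (1 - n) ^ 2 * (s ^ 4 - k * s * (1 + s + s ^ 2))
      ≤ s ^ 3 * (1 + 4 * k + 2 * k ^ 2 + 2 * k ^ 2 * n - (1 - s) * (1 + 2 * k) * (1 - n)) := by
  have hs1 : s ≤ 1 := by linarith
  have hk1 : 0 ≤ 1 + k := by linarith
  set m : ℝ := 1 - n with hm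
  have hmm : k ^ 2 + s * (1 + k) ≤ m := by rw [hm]; nlinarith
  have hm0 : 0 ≤ m := le_trans (by positivity) hmm
  have hm1 : m ≤ 1 := by linarith
  have hb : s * (1 + 2 * k) ≤
      1 + 4 * k + 2 * k ^ 2 + 2 * k ^ 2 * n - (1 - s) * (1 + 2 * k) * m := by
    have h1 : (1 - s) * (1 + 2 * k) * m ≤ (1 - s) * (1 + 2 * k) * 1 :=
      mul_le_mul_of_nonneg_left hm1 (mul_nonneg (by linarith) (by linarith))
    have h2 : 0 ≤ 2 * k ^ 2 * n := by positivity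
    nlinarith [sq_nonneg k]
  have hb0 : 0 ≤ s * (1 + 2 * k) := by positivity
  have hR : s ^ 3 * (s * (1 + 2 * k)) ≤ s ^ 3 *
      (1 + 4 * k + 2 * k ^ 2 + 2 * k ^ 2 * n - (1 - s) * (1 + 2 * k) * m) :=
    mul_le_mul_of_nonneg_left hb (by positivity)
  rcases le_total (s ^ 4 - k * s * (1 + s + s ^ 2)) 0 with h | h
  · have h1 : (1 + k) * m ^ 2 * (s ^ 4 - k * s * (1 + s + s ^ 2)) ≤ 0 :=
      mul_nonpos_of_nonneg_of_nonpos (by positivity) h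
    have h2 : 0 ≤ s ^ 3 * (s * (1 + 2 * k)) := by positivity
    linarith
  · have h1 : m ^ 2 ≤ 1 := pow_le_one₀ hm0 hm1
    have h2 : (1 + k) * m ^ 2 * (s ^ 4 - k * s * (1 + s + s ^ 2)) ≤
        (1 + k) * 1 * (s ^ 4 - k * s * (1 + s + s ^ 2)) := by
      gcongr
    have h3 : 0 ≤ k * s * (1 + s + s ^ 2) := by positivity
    have h4 : (1 + k) * 1 * (s ^ 4 - k * s * (1 + s + s ^ 2)) ≤ (1 + k) * 1 * s ^ 4 := by
      gcongr
      linarith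
    have h5 : (1 + k) * 1 * s ^ 4 ≤ s ^ 3 * (s * (1 + 2 * k)) := by
      have : 0 ≤ k * s ^ 4 := by positivity
      nlinarith
    linarith

end Pool.Agent.RieszMix
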