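import Pool.Agent.RieszLin.Defs

set_option autoImplicit false

open Real Finset

namespace Pool.Agent.RieszMix

/-- `ω(d) = 1 / (1 - ρ d)` -/
noncomputable def om (ρ d : ℝ) : ℝ := 1 / (1 - ρ * d)

/-- `A(d) = (1 - δ³ ω²) / ρ`, `δ = 1 - ρ` -/
noncomputable def AA (ρ d : ℝ) : ℝ := (1 - (1 - ρ) ^ 3 * om ρ d ^ 2) / ρ

/-- `Γ(d) = (2 - d - δ³ ω (2 - δ d ω)) / ρ` -/
noncomputable def GG (ρ d : ℝ) : ℝ :=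
  (2 - d - (1 - ρ) ^ 3 * om ρ d * (2 - (1 - ρ) * d * om ρ d)) / ρ

/-- `κ = 3 - 3ρ + ρ² = 1 + δ + δ²` -/
noncomputable def kp (ρ : ℝ) : ℝ := 3 - 3 * ρ + ρ ^ 2

/-- `Θ(d) = (3 - ρ - 3d + d²) / (1 - ρ d)` -/
noncomputable def Th (ρ d : ℝ) : ℝ := (3 - ρ - 3 * d + d ^ 2) / (1 - ρ * d)

/-- the kernel `e_ρ(D) = 1 / (D (ρ + (1-ρ) D))` -/
noncomputable def ek (ρ D : ℝ) : ℝ := 1 / (D * (ρ + (1 - ρ) * D))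

/-- `Φ(z) = z² (κ - z) / (1 - ρ z)` -/
noncomputable def Ph (ρ z : ℝ) : ℝ := z ^ 2 * (kp ρ - z) / (1 - ρ * z)

/-- average of `A(d), A(e)` as a function of `m₁ = (d+e)/2` and `Ω = ω(d) ω(e)` -/
noncomputable def Abar (ρ m1 Ω : ℝ) : ℝ :=
  (1 - (1 - ρ) ^ 3 * (2 * (1 - ρ * m1) ^ 2 * Ω ^ 2 - Ω)) / ρ

/-- average of `Γ(d), Γ(e)` as a function of `m₁ = (d+e)/2` and `Ω = ω(d) ω(e)` -/
noncomputable def Gbar (ρ m1 Ω : ℝ) : ℝ :=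
  (2 - m1 - 2 * (1 - ρ) ^ 3 * ((1 - ρ * m1) * Ω)
    + (1 - ρ) ^ 4 * ((2 * (1 - ρ * m1) ^ 2 * Ω ^ 2 - Ω) - (1 - ρ * m1) * Ω) / ρ) / ρ

/-- the pair function -/
noncomputable def FF (ρ x m1 z Ω : ℝ) : ℝ :=
  Ph ρ z - x * z * Gbar ρ m1 Ω + x ^ 2 * (1 - z) * Abar ρ m1 Ω - x ^ 2 / 2 * (m1 - x) * (1 - z)

end Pool.Agent.RieszMix
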