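import Pool.Agent.RieszMix.Claims

set_option autoImplicit false

open Real Finset

namespace Pool.Agent.RieszMix

namespace ExtremeAux

theorem om_eq {c s : ℝ} (hc : c ≠ 0) (hcs : c - s ≠ 0) :
    om ((c - s) / c) ((c - 1) / (c - s)) = c := by
  unfold om
  have h : 1 - (c - s) / c * ((c - 1) / (c - s)) = 1 / c := by
    field_simp
    ring
  rw [h, one_div_one_div]

theorem Om_eq {c s n : ℝ} (hc : c ≠ 0) (hcs : c - s ≠ 0) (_hn : 1 - n ≠ 0) :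
    1 / (1 - 2 * ((c - s) / c) * ((c - 1) / (c - s) + n / (2 * c * (c - s))) +
      ((c - s) / c) ^ 2 * ((c - 1) / (c - s)) ^ 2) = c ^ 2 / (1 - n) := by
  have h : 1 - 2 * ((c - s) / c) * ((c - 1) / (c - s) + n / (2 * c * (c - s))) +
      ((c - s) / c) ^ 2 * ((c - 1) / (c - s)) ^ 2 = (1 - n) / c ^ 2 := by
    field_simp
    ring
  rw [h, one_div_div]

theorem m_eq {c s n : ℝ} (hc : c ≠ 0) (hcs : c - s ≠ 0) :
    1 - (c - s) / c * ((c - 1) / (c - s) + n / (2 * c * (c - s))) = (2 * c - n) / (2 * c ^ 2) := by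
  field_simp
  ring

theorem d_eq {c s : ℝ} (hc : c ≠ 0) : 1 - (c - s) / c = s / c := by
  field_simp
  ring

theorem id1 {c s n : ℝ} (hc : c ≠ 0) (hcs : c - s ≠ 0) (hn : 1 - n ≠ 0) :
    AA ((c - s) / c) ((c - 1) / (c - s)) -
      Abar ((c - s) / c) ((c - 1) / (c - s) + n / (2 * c * (c - s))) (c ^ 2 / (1 - n)) =
    n / (2 * c * (c - s)) * (s ^ 3 * (6 * c ^ 2 - 4 * c - n * (2 * c ^ 2 - 1)) /
      (c * (1 - n) ^ 2)) := by
  unfold AA Abar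
  rw [om_eq hc hcs, m_eq hc hcs, d_eq hc]
  field_simp
  ring

theorem id2 {c s n : ℝ} (hc : c ≠ 0) (hcs : c - s ≠ 0) (hn : 1 - n ≠ 0) :
    GG ((c - s) / c) ((c - 1) / (c - s)) -
      Gbar ((c - s) / c) ((c - 1) / (c - s) + n / (2 * c * (c - s))) (c ^ 2 / (1 - n)) =
    n / (2 * c * (c - s)) * ((c ^ 2 * (1 - n) ^ 2 - s ^ 3 * (1 + 4 * (c - 1) + 2 * (c - 1) ^ 2 +
      2 * (c - 1) ^ 2 * n - (1 - s) * (1 + 2 * (c - 1)) * (1 - n))) / (c * (c - s) * (1 - n) ^ 2)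
      + (1 - (c - 1) / (c - s)) * (s ^ 3 * (6 * c ^ 2 - 4 * c - n * (2 * c ^ 2 - 1)) /
      (c * (1 - n) ^ 2))) := by
  unfold GG Gbar
  rw [om_eq hc hcs, m_eq hc hcs, d_eq hc]
  field_simp
  ring

end ExtremeAux

open ExtremeAux

/-- MODULE RM4. The extreme value `Ω* = 1/(1 - 2ρ(x+M) + ρ²x²)`.
Proof. Put `c = 1/(1-ρx) ≥ 1`, `k = c - 1 = ρxc`, `s = (1-ρ)c ∈ (0,1]`, `μ = ρMc`, `n = 2cμ`. Then
`ρ = (c-s)/c`, `x = (c-1)/(c-s)`, `M = μ/(c-s)`, `1 - x = (1-s)/(c-s)`, `Ω* = c²/(1-n)`, and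
`n ≤ (1-s-k)(1+k)` (since `2M ≤ 1 - 2x`). Define
`J = s³ (6c² - 4c - n(2c²-1)) / (c (1-n)²)` and
`Y0 = ((1+k)²(1-n)² - s³(1+4k+2k²+2k²n-(1-s)(1+2k)(1-n))) / ((1+k)(k+1-s)(1-n)²)`.
(Exact identities `A(x) - Abar = M J`, `Γ(x) - Gbar = M (Y0 + (1-x) J)`, checked with exact rational
arithmetic; express everything through `c, s, μ` and use `field_simp; ring`.)
`Y0 ≥ 1` is `claim_A` (times `s`), `J ≤ 2.3 s` is `claim_B` (`6c²-4c = 2(1+3k)(1+k)`),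
`Y0 ≤ 1+s+s²+s³` is `claim_C`: `(1+k) - (k+1-s)(1+s+s²+s³) = s⁴ - ks(1+s+s²)`. `J ≥ 0`:
`6c²-4c ≥ 2c²-1` and `n ≤ 1`. If `x = M = 0`-type degenerations occur: `c - s = ρ c > 0` always. -/
theorem extreme {ρ x M : ℝ} (h0 : 0 < ρ) (h1 : ρ < 1) (hx : 0 ≤ x) (hM : 0 ≤ M)
    (hxM : x + M ≤ 1 / 2) :
    ∃ Y0 J : ℝ, 1 ≤ Y0 ∧
      Y0 ≤ 1 + (1 - ρ) * om ρ x + ((1 - ρ) * om ρ x) ^ 2 + ((1 - ρ) * om ρ x) ^ 3 ∧
      0 ≤ J ∧ J ≤ 2.3 * ((1 - ρ) * om ρ x) ∧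
      AA ρ x - Abar ρ (x + M) (1 / (1 - 2 * ρ * (x + M) + ρ ^ 2 * x ^ 2)) = M * J ∧
      GG ρ x - Gbar ρ (x + M) (1 / (1 - 2 * ρ * (x + M) + ρ ^ 2 * x ^ 2))
        = M * (Y0 + (1 - x) * J) := by
  have hx1 : x ≤ 1 / 2 := by linarith
  have hρx : ρ * x ≤ 1 / 2 := by nlinarith
  have hd : 0 < 1 - ρ * x := by linarith
  obtain ⟨c, hc⟩ : ∃ c, c = 1 / (1 - ρ * x) := ⟨_, rfl⟩
  obtain ⟨s, hs⟩ : ∃ s, s = (1 - ρ) * c := ⟨_, rfl⟩
  obtain ⟨n, hn⟩ : ∃ n, n = 2 * ρ * M * c ^ 2 := ⟨_, rfl⟩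
  have hcp : 0 < c := by rw [hc]; positivity
  have hc1 : c * (1 - ρ * x) = 1 := by rw [hc]; field_simp
  have hcge : 1 ≤ c := by
    have : 0 ≤ c * (ρ * x) := by positivity
    nlinarith
  have hom : om ρ x = c := by rw [hc]; rfl
  have hsp : 0 < s := by
    rw [hs]
    have : 0 < 1 - ρ := by linarith
    positivity
  have hcs : c - s = ρ * c := by rw [hs]; ring
  have hcsp : 0 < c - s := by rw [hcs]; positivity
  have hρe : (c - s) / c = ρ := by rw [hcs]; field_simp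
  have hxe : (c - 1) / (c - s) = x := by
    rw [hcs, div_eq_iff (by positivity)]
    linarith
  have hMe : n / (2 * c * (c - s)) = M := by
    rw [hcs, hn, div_eq_iff (by positivity)]
    ring
  have hn0 : 0 ≤ n := by rw [hn]; positivity
  have hks : (c - 1) + s ≤ 1 := by
    have h2 : (c - 1) + s = 1 - c * (ρ * (1 - 2 * x)) := by
      rw [hs]
      linear_combination (2 : ℝ) * hc1
    rw [h2]
    have : 0 ≤ c * (ρ * (1 - 2 * x)) := by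
      have : 0 ≤ 1 - 2 * x := by linarith
      positivity
    linarith
  have hnle : n ≤ (1 - s - (c - 1)) * (1 + (c - 1)) := by
    have h2 : (1 - s - (c - 1)) * (1 + (c - 1)) = ρ * c ^ 2 * (1 - 2 * x) := by
      rw [hs]
      linear_combination (-2 * c : ℝ) * hc1
    rw [h2, hn]
    have h3 : 0 ≤ ρ * c ^ 2 * (1 - 2 * x - 2 * M) := by
      have : 0 ≤ 1 - 2 * x - 2 * M := by linarith
      positivity
    nlinarith
  have hn1 : n < 1 := by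
    have : (1 - s - (c - 1)) * (1 + (c - 1)) < 1 := by nlinarith
    linarith
  have hA := claim_A (k := c - 1) (s := s) (n := n) (by linarith) hsp hks hn0 hnle
  have hB := claim_B (k := c - 1) (s := s) (n := n) (by linarith) hsp hks hn0 hnle
  have hC := claim_C (k := c - 1) (s := s) (n := n) (by linarith) hsp hks hn0 hnle
  have hn2 : 0 < (1 - n) ^ 2 := by
    have : 0 < 1 - n := by linarith
    positivity
  refine ⟨(c ^ 2 * (1 - n) ^ 2 - s ^ 3 * (1 + 4 * (c - 1) + 2 * (c - 1) ^ 2 +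
      2 * (c - 1) ^ 2 * n - (1 - s) * (1 + 2 * (c - 1)) * (1 - n))) / (c * (c - s) * (1 - n) ^ 2),
    s ^ 3 * (6 * c ^ 2 - 4 * c - n * (2 * c ^ 2 - 1)) / (c * (1 - n) ^ 2), ?_, ?_, ?_, ?_, ?_, ?_⟩
  · rw [le_div_iff₀ (by positivity)]
    have := mul_le_mul_of_nonneg_left hA hsp.le
    linarith
  · rw [hom, ← hs, div_le_iff₀ (by positivity)]
    linarith
  · refine div_nonneg (mul_nonneg (by positivity) ?_) (by positivity)
    nlinarith [sq_nonneg (2 * c - 1)]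
  · rw [hom, ← hs, div_le_iff₀ (by positivity)]
    have := mul_le_mul_of_nonneg_left hB hsp.le
    linarith
  · have h := id1 (c := c) (s := s) (n := n) hcp.ne' hcsp.ne' (by linarith)
    have h' := Om_eq (c := c) (s := s) (n := n) hcp.ne' hcsp.ne' (by linarith)
    rw [hρe, hxe, hMe] at h h'
    rw [h', h]
  · have h := id2 (c := c) (s := s) (n := n) hcp.ne' hcsp.ne' (by linarith)
    have h' := Om_eq (c := c) (s := s) (n := n) hcp.ne' hcsp.ne' (by linarith)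
    rw [hρe, hxe, hMe] at h h'
    rw [h', h]

end Pool.Agent.RieszMix
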