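import Pool.Agent.RieszLin.PsiSum
import Pool.Agent.RieszLin.J0
import Pool.Agent.RieszLin.GlobRed
import Pool.Agent.RieszLin.Block
import Pool.Agent.RieszLin.PsiBd

set_option autoImplicit false

open Real Finset

namespace Pool.Agent.RieszMix

open Pool.Agent.RieszLin

namespace GlobAAux

lemma rpow_low1 {q : ℝ} (hq : 1 ≤ q) : (1 / 2 : ℝ) * (1 - 0.6932 * (q - 1)) ≤ (2 : ℝ) ^ (-q) := by
  have h1 : (2 : ℝ) ^ (-q) = (1 / 2) * Real.exp (-(Real.log 2 * (q - 1))) := by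
    rw [Real.rpow_def_of_pos (by norm_num : (0 : ℝ) < 2)]
    have : Real.log 2 * -q = Real.log (1 / 2) + -(Real.log 2 * (q - 1)) := by
      rw [one_div, Real.log_inv]; ring
    rw [this, Real.exp_add, Real.exp_log (by norm_num : (0 : ℝ) < 1 / 2)]
  rw [h1]
  have h2 := Real.add_one_le_exp (-(Real.log 2 * (q - 1)))
  have h3 := Real.log_two_lt_d9
  have h4 : Real.log 2 * (q - 1) ≤ 0.6932 * (q - 1) :=
    mul_le_mul_of_nonneg_right (by linarith) (by linarith)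
  nlinarith

lemma rpow_low2 {q : ℝ} (hq : q ≤ 2) : (1 / 4 : ℝ) * (1 + 0.6931 * (2 - q)) ≤ (2 : ℝ) ^ (-q) := by
  have h1 : (2 : ℝ) ^ (-q) = (1 / 4) * Real.exp (Real.log 2 * (2 - q)) := by
    rw [Real.rpow_def_of_pos (by norm_num : (0 : ℝ) < 2)]
    have h4 : Real.log (1 / 4) = -(2 * Real.log 2) := by
      rw [one_div, Real.log_inv, show (4 : ℝ) = 2 ^ 2 by norm_num, Real.log_pow]
      push_cast; ring
    have : Real.log 2 * -q = Real.log (1 / 4) + Real.log 2 * (2 - q) := by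
      rw [h4]; ring
    rw [this, Real.exp_add, Real.exp_log (by norm_num : (0 : ℝ) < 1 / 4)]
  rw [h1]
  have h2 := Real.add_one_le_exp (Real.log 2 * (2 - q))
  have h3 := Real.log_two_gt_d9
  have h4 : 0.6931 * (2 - q) ≤ Real.log 2 * (2 - q) :=
    mul_le_mul_of_nonneg_right (by linarith) (by linarith)
  nlinarith

lemma lin_sq {Y c : ℝ} : 2 * c * Y - c ^ 2 ≤ Y ^ 2 := by nlinarith [sq_nonneg (Y - c)]

lemma lin_cube {Y c : ℝ} (hY : 0 ≤ Y) (hc : 0 ≤ c) : 3 * c ^ 2 * Y - 2 * c ^ 3 ≤ Y ^ 3 := by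
  nlinarith [mul_nonneg (add_nonneg hY (mul_nonneg (by norm_num : (0:ℝ) ≤ 2) hc)) (sq_nonneg (Y - c))]

lemma key {q Y : ℝ} (hq : 1 ≤ q) (hq2 : q ≤ 2) (hY0 : 3 / 4 ≤ Y) (hY1 : Y < 1)
    (h1 : Y ≤ 1 - (1 / 4) * (1 - 0.6932 * (q - 1))) (h2 : Y ≤ 1 - (1 / 8) * (1 + 0.6931 * (2 - q))) :
    1.16 * (q + 1) ^ 2 * ((q + 2) * Y - (q + 1)) ≤
      1.08 * (q * (q + 1)) * Y ^ 2 + 0.188 * (q * (q + 2)) * Y ^ 3 := by
  have hYn : 0 ≤ Y := by linarith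
  have hqq : 0 ≤ q * (q + 1) := by nlinarith
  have hqq2 : 0 ≤ q * (q + 2) := by nlinarith
  rcases le_total q 1.45 with h | h
  · have hs := @lin_sq Y 0.8
    have hc := @lin_cube Y 0.8 hYn (by norm_num)
    have e1 : 1.08 * (q * (q + 1)) * (2 * 0.8 * Y - 0.8 ^ 2) ≤ 1.08 * (q * (q + 1)) * Y ^ 2 :=
      mul_le_mul_of_nonneg_left hs (by linarith)
    have e2 : 0.188 * (q * (q + 2)) * (3 * 0.8 ^ 2 * Y - 2 * 0.8 ^ 3) ≤
        0.188 * (q * (q + 2)) * Y ^ 3 := mul_le_mul_of_nonneg_left hc (by linarith)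
    have hD : 0 ≤ 1.16 * (q + 1) ^ 2 * (q + 2) - 1.08 * (q * (q + 1)) * (2 * 0.8)
        - 0.188 * (q * (q + 2)) * (3 * 0.8 ^ 2) := by nlinarith
    have e3 := mul_le_mul_of_nonneg_left h1 hD
    have hpoly : 1.16 * (q + 1) ^ 2 * ((q + 2) * (1 - (1 / 4) * (1 - 0.6932 * (q - 1))) - (q + 1)) ≤
      1.08 * (q * (q + 1)) * (2 * 0.8 * (1 - (1 / 4) * (1 - 0.6932 * (q - 1))) - 0.8 ^ 2)
      + 0.188 * (q * (q + 2)) * (3 * 0.8 ^ 2 * (1 - (1 / 4) * (1 - 0.6932 * (q - 1))) - 2 * 0.8 ^ 3) := by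
      obtain ⟨t, rfl⟩ : ∃ t, q = 1 + t := ⟨q - 1, by ring⟩
      have ht0 : 0 ≤ t := by linarith
      have ht1 : t ≤ 0.45 := by linarith
      nlinarith [mul_nonneg ht0 (sub_nonneg.2 ht1), mul_nonneg (mul_nonneg ht0 ht0) (sub_nonneg.2 ht1),
        mul_nonneg (mul_nonneg (mul_nonneg ht0 ht0) ht0) (sub_nonneg.2 ht1), pow_nonneg ht0 3,
        pow_nonneg ht0 4]
    linarith
  · have hs := @lin_sq Y 0.85
    have hc := @lin_cube Y 0.85 hYn (by norm_num)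
    have e1 : 1.08 * (q * (q + 1)) * (2 * 0.85 * Y - 0.85 ^ 2) ≤ 1.08 * (q * (q + 1)) * Y ^ 2 :=
      mul_le_mul_of_nonneg_left hs (by linarith)
    have e2 : 0.188 * (q * (q + 2)) * (3 * 0.85 ^ 2 * Y - 2 * 0.85 ^ 3) ≤
        0.188 * (q * (q + 2)) * Y ^ 3 := mul_le_mul_of_nonneg_left hc (by linarith)
    have hD : 0 ≤ 1.16 * (q + 1) ^ 2 * (q + 2) - 1.08 * (q * (q + 1)) * (2 * 0.85)
        - 0.188 * (q * (q + 2)) * (3 * 0.85 ^ 2) := by nlinarith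
    have e3 := mul_le_mul_of_nonneg_left h2 hD
    have hpoly : 1.16 * (q + 1) ^ 2 * ((q + 2) * (1 - (1 / 8) * (1 + 0.6931 * (2 - q))) - (q + 1)) ≤
      1.08 * (q * (q + 1)) * (2 * 0.85 * (1 - (1 / 8) * (1 + 0.6931 * (2 - q))) - 0.85 ^ 2)
      + 0.188 * (q * (q + 2)) * (3 * 0.85 ^ 2 * (1 - (1 / 8) * (1 + 0.6931 * (2 - q))) - 2 * 0.85 ^ 3) := by
      obtain ⟨t, rfl⟩ : ∃ t, q = 2 - t := ⟨2 - q, by ring⟩
      have ht0 : 0 ≤ t := by linarith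
      have ht1 : t ≤ 0.55 := by linarith
      nlinarith [mul_nonneg ht0 (sub_nonneg.2 ht1), mul_nonneg (mul_nonneg ht0 ht0) (sub_nonneg.2 ht1),
        mul_nonneg (mul_nonneg (mul_nonneg ht0 ht0) ht0) (sub_nonneg.2 ht1), pow_nonneg ht0 3,
        pow_nonneg ht0 4]
    linarith

end GlobAAux

open GlobAAux in
/-- MODULE RM19. Monotonicity in `x`: with `c2 = psi2 Y²`, `c3 = psi3 Y³`, `c4 = Ψ(Y)-c2-c3`, `z = 17/8`,
`f(x) = c2 z²(1-x) + c3 z³(x-x²) + c4 z⁴(x²-x³)` is decreasing on `[.493, 1]`: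
`f' = -c2 z² + c3 z³(1-2x) + c4 z⁴(2x-3x²) ≤ -c2 z² + .014 c3 z³ + .2569 c4 z⁴ < 0`
(`c3 ≤ c2/2`, `c4 ≤ .6 c2` on `1 ≤ q ≤ 2`; `c2 = .1406, c3 = .0527, c4 = .0566` at `q = 1`,
`.2552, .0992, .1455` at `q = 2`). -/
theorem scal_mono {q x : ℝ} (hq : 1 ≤ q) (hq2 : q ≤ 2) (hx0 : 0.493 ≤ x) (hx1 : x ≤ 1) :
    psi2 q * YY q ^ 2 * (17 / 8) ^ 2 * (1 - x) + psi3 q * YY q ^ 3 * (17 / 8) ^ 3 * (x - x ^ 2)
        + (Psi q (YY q) - psi2 q * YY q ^ 2 - psi3 q * YY q ^ 3) * (17 / 8) ^ 4 * (x ^ 2 - x ^ 3)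
      ≤ psi2 q * YY q ^ 2 * (17 / 8) ^ 2 * (1 - 0.493)
        + psi3 q * YY q ^ 3 * (17 / 8) ^ 3 * (0.493 - 0.493 ^ 2)
        + (Psi q (YY q) - psi2 q * YY q ^ 2 - psi3 q * YY q ^ 3) * (17 / 8) ^ 4
          * (0.493 ^ 2 - 0.493 ^ 3) := by
  have hqp : 0 < q := by linarith
  obtain ⟨hY0, hY1⟩ := YY_bounds hq
  have hYeq := YY_eq q
  have hPsi := Psi_YY hqp
  have hlow := Psi_lower hqp (by linarith : (0 : ℝ) ≤ YY q) hY1
  have hr1 := rpow_low1 hq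
  have hr2 := rpow_low2 hq2
  have hk := key hq hq2 hY0 hY1 (by rw [hYeq]; linarith) (by rw [hYeq]; linarith)
  have h3n : 0 ≤ psi3 q := by
    have e : psi3 q = q * (q + 2) / (6 * (q + 1) ^ 2) := by unfold psi3; field_simp; ring
    rw [e]; positivity
  have h2n : 0 ≤ psi2 q := by unfold psi2; positivity
  have hg : (2 : ℝ) ^ (-q) = 2 * (1 - YY q) := by rw [hYeq]; ring
  rw [hg] at hPsi
  have hPsi' : Psi q (YY q) = (q + 2) * YY q - (q + 1) := by rw [hPsi]; ring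
  set Y := YY q with hYdef
  have hc2 : psi2 q * Y ^ 2 * (q + 1) ^ 2 = q * (q + 1) / 2 * Y ^ 2 := by
    unfold psi2; field_simp
  have hc3 : psi3 q * Y ^ 3 * (q + 1) ^ 2 = q * (q + 2) / 6 * Y ^ 3 := by
    unfold psi3; field_simp; ring
  have hq1 : 0 < (q + 1) ^ 2 := by positivity
  have hc3n : 0 ≤ psi3 q * Y ^ 3 := mul_nonneg h3n (pow_nonneg (by linarith) 3)
  have hc2n : 0 ≤ psi2 q * Y ^ 2 := mul_nonneg h2n (sq_nonneg _)
  have hc3b : 0 ≤ q * (q + 2) / 6 * Y ^ 3 := by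
    rw [← hc3]; exact mul_nonneg hc3n hq1.le
  generalize psi2 q * Y ^ 2 = c2 at *
  generalize psi3 q * Y ^ 3 = c3 at *
  have hc4n : 0 ≤ Psi q Y - c2 - c3 := by linarith
  rw [hPsi'] at hc4n ⊢
  have hmain : 0 ≤ c2 - 0.02975 * c3 - 1.16 * ((q + 2) * Y - (q + 1) - c2 - c3) := by
    by_contra hcon
    push_neg at hcon
    have := mul_neg_of_neg_of_pos hcon hq1
    have e : (c2 - 0.02975 * c3 - 1.16 * ((q + 2) * Y - (q + 1) - c2 - c3)) * (q + 1) ^ 2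
        = 2.16 * (c2 * (q + 1) ^ 2) + 1.13025 * (c3 * (q + 1) ^ 2)
          - 1.16 * (q + 1) ^ 2 * ((q + 2) * Y - (q + 1)) := by ring
    rw [e, hc2, hc3] at this
    nlinarith
  generalize (q + 2) * Y - (q + 1) - c2 - c3 = c4 at *
  have hx : 0 ≤ x - 0.493 := by linarith
  have hbr : 0 ≤ c2 * (17 / 8) ^ 2 + c3 * (17 / 8) ^ 3 * (x + 0.493 - 1)
      + c4 * (17 / 8) ^ 4 * (x ^ 2 + x * 0.493 + 0.493 ^ 2 - x - 0.493) := by
    have a1 : c3 * (-0.014) ≤ c3 * (x + 0.493 - 1) := mul_le_mul_of_nonneg_left (by linarith) hc3n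
    have a2 : c4 * (-0.256853) ≤ c4 * (x ^ 2 + x * 0.493 + 0.493 ^ 2 - x - 0.493) := by
      refine mul_le_mul_of_nonneg_left ?_ hc4n
      nlinarith
    nlinarith
  have := mul_nonneg hx hbr
  nlinarith

end Pool.Agent.RieszMix
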