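import Pool.Agent.RieszMix.Basic

set_option autoImplicit false

open Real Finset

namespace Pool.Agent.RieszMix

section

variable {ι : Type*} [Fintype ι] [DecidableEq ι] {a : ι → ℝ}

/-- MODULE RM14. `A4 - A3² - 1/n = ∑ (a² - A3 a - 1/n)² ≥ 0`. -/
theorem L2_nonneg (h0 : ∑ i, a i = 0) (h2 : ∑ i, a i ^ 2 = 1) {n : ℝ}
    (hcard : (Fintype.card ι : ℝ) = n) (hn : 0 < n) :
    ∑ i, (a i ^ 2 - (∑ k, a k ^ 3) * a i - 1 / n) ^ 2
      = ∑ i, a i ^ 4 - (∑ i, a i ^ 3) ^ 2 - 1 / n := by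
  set A3 := ∑ k, a k ^ 3 with hA3
  have h1 : ∀ i, (a i ^ 2 - A3 * a i - 1 / n) ^ 2
      = a i ^ 4 - 2 * A3 * a i ^ 3 + (A3 ^ 2 - 2 / n) * a i ^ 2 + 2 * A3 / n * a i
        + (1 / n) ^ 2 := by
    intro i
    ring
  simp only [h1, Finset.sum_add_distrib, Finset.sum_sub_distrib, ← Finset.mul_sum, h0, h2,
    Finset.sum_const, Finset.card_univ, nsmul_eq_mul, hcard, ← hA3]
  field_simp
  ring

namespace LTwoAux

/-- Cauchy-Schwarz part -/
theorem cs (h0 : ∑ i, a i = 0) (h2 : ∑ i, a i ^ 2 = 1) {n : ℝ}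
    (hcard : (Fintype.card ι : ℝ) = n) (hn : 0 < n) (i1 : ι) :
    (a i1 ^ 2 - (∑ k, a k ^ 3) * a i1 - 1 / n) ^ 2
      ≤ (1 - a i1 ^ 2 - 1 / n) * (∑ i, a i ^ 4 - (∑ i, a i ^ 3) ^ 2 - 1 / n) := by
  rw [← L2_nonneg h0 h2 hcard hn]
  set A3 := ∑ k, a k ^ 3 with hA3
  set r : ι → ℝ := fun i => a i ^ 2 - A3 * a i - 1 / n with hr
  set g : ι → ℝ := fun i => (if i = i1 then 1 else 0) - 1 / n - a i1 * a i with hg
  have hsr : ∑ i, r i = 0 := by
    simp only [hr, Finset.sum_sub_distrib, ← Finset.mul_sum, h0, h2, Finset.sum_const,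
      Finset.card_univ, nsmul_eq_mul, hcard]
    field_simp
    ring
  have hsar : ∑ i, a i * r i = 0 := by
    have h1 : ∀ i, a i * r i = a i ^ 3 - A3 * a i ^ 2 - 1 / n * a i := by
      intro i
      simp only [hr]
      ring
    simp only [h1, Finset.sum_sub_distrib, ← Finset.mul_sum, h0, h2, ← hA3]
    ring
  have hgr : ∑ i, g i * r i = r i1 := by
    have h1 : ∀ i, g i * r i = (if i = i1 then r i else 0) - 1 / n * r i - a i1 * (a i * r i) := by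
      intro i
      simp only [hg]
      split_ifs <;> ring
    simp only [h1, Finset.sum_sub_distrib, ← Finset.mul_sum, hsr, hsar, Finset.sum_ite_eq',
      Finset.mem_univ, if_true]
    ring
  have hgg : ∑ i, g i ^ 2 = 1 - a i1 ^ 2 - 1 / n := by
    have h1 : ∀ i, g i ^ 2 = (if i = i1 then 1 - 2 * (1 / n) - 2 * a i1 * a i else 0)
        + (1 / n) ^ 2 + 2 * (1 / n) * a i1 * a i + a i1 ^ 2 * a i ^ 2 := by
      intro i
      simp only [hg]
      split_ifs <;> ring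
    simp only [h1, Finset.sum_add_distrib, ← Finset.mul_sum, h0, h2, Finset.sum_ite_eq',
      Finset.mem_univ, if_true, Finset.sum_const, Finset.card_univ, nsmul_eq_mul, hcard]
    field_simp
    ring
  have hcs := Finset.sum_mul_sq_le_sq_mul_sq univ g r
  rw [hgr, hgg] at hcs
  exact hcs

end LTwoAux

/-- Let `w = a i1²`, `x = A4`, `ε = 1/n`, `L2 = A4 - A3² - 1/n`, `r = a i1² - A3 a i1 - ε`.
(1) `L2 ≥ r²/(1-w-ε)`: Cauchy-Schwarz for `r i` (all `i`) against `g i = [i=i1] - ε - a i1 a i`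
(`∑ g r = r i1` because `∑ r = 0`, `∑ a r = 0`; `∑ g² = 1 - ε - w`).
(2) `A3² = x - ε - L2 ≤ x - ε`, so `r ≥ w - ε - √(w(x-ε))`, and
`√(w(x-ε)) ≤ (w+x-ε)/2`, `(w-ε)² - w(x-ε) ≥ w(w-x-ε)`, so `r ≥ 2w(w-x-ε)/(3w+x)` when `w ≥ x+ε`.
(3) With `w = 1/2+θ-ε`, `x ≤ .493` (the bound decreases in `x`), `ε ≤ 1/403`: `w-x-ε ≥ θ + .002`,
`2w/(3w+x) ≥ (1+2θ)/(2+3θ)`, `1-w-ε = 1/2-θ > 0` (`w² ≤ x ≤ .493`). -/
theorem L2_low (h0 : ∑ i, a i = 0) (h2 : ∑ i, a i ^ 2 = 1) {n : ℝ}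
    (hcard : (Fintype.card ι : ℝ) = n) (hn : 403 ≤ n) (h4 : ∑ i, a i ^ 4 ≤ 0.493) {i1 : ι} {θ : ℝ}
    (hθ : a i1 ^ 2 + 1 / n = 1 / 2 + θ) (hθ0 : 0 < θ) :
    ((1 + 2 * θ) / (2 + 3 * θ)) ^ 2 * (θ + 0.002) ^ 2 / (1 / 2 - θ)
      ≤ ∑ i, a i ^ 4 - (∑ i, a i ^ 3) ^ 2 - 1 / n := by
  have hn0 : 0 < n := by linarith
  have hcs := LTwoAux.cs h0 h2 hcard hn0 i1
  have hL0 : 0 ≤ ∑ i, a i ^ 4 - (∑ i, a i ^ 3) ^ 2 - 1 / n := by
    rw [← L2_nonneg h0 h2 hcard hn0]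
    exact Finset.sum_nonneg fun i _ => sq_nonneg _
  have hsingle : (a i1 ^ 2) ^ 2 ≤ ∑ i, a i ^ 4 := by
    have h3 := Finset.single_le_sum (f := fun i => a i ^ 4) (fun j _ => by positivity)
      (Finset.mem_univ i1)
    calc (a i1 ^ 2) ^ 2 = a i1 ^ 4 := by ring
      _ ≤ _ := h3
  set x := ∑ i, a i ^ 4 with hx
  set A3 := ∑ i, a i ^ 3 with hA3
  set w := a i1 ^ 2 with hw
  set ε := 1 / n with hε
  have hε0 : 0 < ε := by rw [hε]; positivity
  have hε1 : ε ≤ 1 / 403 := by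
    rw [hε]
    exact one_div_le_one_div_of_le (by norm_num) hn
  have hw0 : 0 ≤ w := sq_nonneg _
  have hw1 : w ≤ 0.7022 := by
    by_contra hcon
    push Not at hcon
    nlinarith
  have hθ1 : 0 < 1 / 2 - θ := by linarith
  have hw2 : w = 1 / 2 + θ - ε := by linarith
  have hwpos : 0 < w := by linarith
  -- the linear term
  set s := A3 * a i1 with hs
  have hs2 : s ^ 2 ≤ w * (x - ε) := by
    have h5 : A3 ^ 2 ≤ x - ε := by linarith
    calc s ^ 2 = w * A3 ^ 2 := by rw [hs, hw]; ring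
      _ ≤ _ := mul_le_mul_of_nonneg_left h5 hw0
  have hx0 : 0 ≤ x - ε := by
    have := sq_nonneg A3
    linarith
  have hsabs : |s| ≤ (w + (x - ε)) / 2 := by
    apply abs_le_of_sq_le_sq _ (by linarith)
    nlinarith [sq_nonneg (w - (x - ε))]
  have hab2 : |s| ^ 2 = s ^ 2 := sq_abs s
  have hwx : θ + 0.002 ≤ w - x - ε := by
    rw [hw2]
    norm_num at *
    linarith
  have hprod : w * (θ + 0.002) ≤ (w - ε - |s|) * (w - ε + |s|) := by
    have h6 : (w - ε - |s|) * (w - ε + |s|) = (w - ε) ^ 2 - s ^ 2 := by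
      rw [← hab2]
      ring
    rw [h6]
    have h7 : w * (θ + 0.002) ≤ w * (w - x - ε) := mul_le_mul_of_nonneg_left hwx hw0
    nlinarith [sq_nonneg ε]
  have hden : w - ε + |s| ≤ (3 * w + 0.493) / 2 := by linarith
  have hden0 : 0 < w - ε + |s| := by
    have := abs_nonneg s
    linarith
  have hnum0 : 0 ≤ w - ε - |s| := by
    by_contra hcon
    push Not at hcon
    have h8 : (w - ε - |s|) * (w - ε + |s|) < 0 := mul_neg_of_neg_of_pos hcon hden0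
    have h9 : 0 ≤ w * (θ + 0.002) := by positivity
    linarith
  have h10 : w * (θ + 0.002) ≤ (w - ε - |s|) * ((3 * w + 0.493) / 2) :=
    hprod.trans (mul_le_mul_of_nonneg_left hden hnum0)
  have h11 : (1 + 2 * θ) * (3 * w + 0.493) ≤ 2 * w * (2 + 3 * θ) := by
    nlinarith
  set ρ := (1 + 2 * θ) / (2 + 3 * θ) * (θ + 0.002) with hρ
  have hρ0 : 0 ≤ ρ := by positivity
  have h12 : ρ ≤ w - ε - |s| := by
    have h13 : ρ * (2 + 3 * θ) = (1 + 2 * θ) * (θ + 0.002) := by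
      rw [hρ]
      field_simp
    have h14 : 0 < 3 * w + 0.493 := by linarith
    have h15 : ρ * (2 + 3 * θ) * (3 * w + 0.493) ≤ (w - ε - |s|) * (2 + 3 * θ) * (3 * w + 0.493) := by
      calc ρ * (2 + 3 * θ) * (3 * w + 0.493)
          = ((1 + 2 * θ) * (3 * w + 0.493)) * (θ + 0.002) := by rw [h13]; ring
        _ ≤ (2 * w * (2 + 3 * θ)) * (θ + 0.002) :=
            mul_le_mul_of_nonneg_right h11 (by positivity)
        _ = 2 * (2 + 3 * θ) * (w * (θ + 0.002)) := by ring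
        _ ≤ 2 * (2 + 3 * θ) * ((w - ε - |s|) * ((3 * w + 0.493) / 2)) :=
            mul_le_mul_of_nonneg_left h10 (by positivity)
        _ = _ := by ring
    have h16 := le_of_mul_le_mul_right h15 h14
    exact le_of_mul_le_mul_right h16 (by positivity)
  have h17 : ρ ≤ w - s - ε := by
    have := le_abs_self s
    linarith
  have h18 : ρ ^ 2 ≤ (w - s - ε) ^ 2 := pow_le_pow_left₀ hρ0 h17 2
  have h19 : 1 - w - ε = 1 / 2 - θ := by linarith
  rw [h19] at hcs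
  rw [div_le_iff₀ hθ1]
  calc ((1 + 2 * θ) / (2 + 3 * θ)) ^ 2 * (θ + 0.002) ^ 2 = ρ ^ 2 := by rw [hρ]; ring
    _ ≤ (w - s - ε) ^ 2 := h18
    _ ≤ _ := hcs
    _ = _ := by ring

/-- from `A4 ≤ .493`: `a i⁴ ≤ .493`, and for `i ≠ j`, `(a i² + a j²)² ≤ 2 A4 ≤ .986`. -/
theorem d_bounds (h4 : ∑ i, a i ^ 4 ≤ 0.493) {n : ℝ} (hn : 403 ≤ n) :
    (∀ i, 1 / n + a i ^ 2 ≤ 0.7047) ∧
    (∀ i j, i ≠ j → (1 / n + a i ^ 2) + (1 / n + a j ^ 2) ≤ 1) := by
  have hε1 : 1 / n ≤ 1 / 403 := one_div_le_one_div_of_le (by norm_num) hn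
  constructor
  · intro i
    have h3 := Finset.single_le_sum (f := fun i => a i ^ 4) (fun j _ => by positivity)
      (Finset.mem_univ i)
    have h5 : (a i ^ 2) ^ 2 ≤ 0.493 := by
      calc (a i ^ 2) ^ 2 = a i ^ 4 := by ring
        _ ≤ _ := h3
        _ ≤ _ := h4
    have h6 : a i ^ 2 ≤ 0.7022 := by
      by_contra hcon
      push Not at hcon
      nlinarith
    norm_num at *
    linarith
  · intro i j hij
    have h3 : a i ^ 4 + a j ^ 4 ≤ ∑ i, a i ^ 4 := by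
      rw [← Finset.add_sum_erase _ _ (Finset.mem_univ i)]
      have h7 := Finset.single_le_sum (f := fun i => a i ^ 4) (s := univ.erase i)
        (fun j _ => by positivity) (Finset.mem_erase.2 ⟨hij.symm, Finset.mem_univ j⟩)
      linarith
    have h5 : (a i ^ 2 + a j ^ 2) ^ 2 ≤ 0.986 := by
      nlinarith [sq_nonneg (a i ^ 2 - a j ^ 2)]
    have h6 : a i ^ 2 + a j ^ 2 ≤ 0.993 := by
      by_contra hcon
      push Not at hcon
      nlinarith
    norm_num at *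
    linarith

end

end Pool.Agent.RieszMix
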