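import Pool.Agent.RieszMix.Basic

set_option autoImplicit false

open Real Finset

namespace Pool.Agent.RieszMix

namespace MonoAux

theorem FF_diff {ρ x m1 z Ω Ω' : ℝ} (h0 : 0 < ρ) :
    FF ρ x m1 z Ω - FF ρ x m1 z Ω' = x * (1 - ρ) ^ 3 / ρ * (Ω' - Ω) *
      (-z * (2 + (1 - ρ) / ρ) * (1 - ρ * m1) + (z * ((1 - ρ) / ρ) + x * (1 - z)) *
        (2 * (1 - ρ * m1) ^ 2 * (Ω + Ω') - 1)) := by
  unfold FF Gbar Abar
  field_simp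
  ring

theorem quad_le {a b c α β γ g0 : ℝ} (hα : 0 ≤ α) (hab : a ≤ b) (hbc : b ≤ c)
    (h1 : α * a ^ 2 + β * a + γ ≤ g0) (h2 : α * c ^ 2 + β * c + γ ≤ g0) :
    α * b ^ 2 + β * b + γ ≤ g0 := by
  rcases eq_or_lt_of_le (hab.trans hbc) with h | h
  · have : b = a := le_antisymm (by rw [h]; exact hbc) hab
    rw [this]
    exact h1
  · have e : (c - a) * (g0 - (α * b ^ 2 + β * b + γ)) =
        (c - b) * (g0 - (α * a ^ 2 + β * a + γ)) + (b - a) * (g0 - (α * c ^ 2 + β * c + γ)) +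
          α * ((c - a) * ((b - a) * (c - b))) := by ring
    have p1 : 0 ≤ (c - b) * (g0 - (α * a ^ 2 + β * a + γ)) :=
      mul_nonneg (by linarith) (by linarith)
    have p2 : 0 ≤ (b - a) * (g0 - (α * c ^ 2 + β * c + γ)) :=
      mul_nonneg (by linarith) (by linarith)
    have p3 : 0 ≤ α * ((c - a) * ((b - a) * (c - b))) :=
      mul_nonneg hα (mul_nonneg (by linarith) (mul_nonneg (by linarith) (by linarith)))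
    have p4 : 0 ≤ (c - a) * (g0 - (α * b ^ 2 + β * b + γ)) := by linarith
    have p5 := nonneg_of_mul_nonneg_right p4 (by linarith : 0 < c - a)
    linarith

theorem Gbar_quad {ρ m1 Ω : ℝ} (h0 : 0 < ρ) : Gbar ρ m1 Ω =
    2 * (1 - ρ) ^ 4 * (1 - ρ * m1) ^ 2 / ρ ^ 2 * Ω ^ 2 +
      (-2 * (1 - ρ) ^ 3 * (1 - ρ * m1) - (1 - ρ) ^ 4 / ρ * (1 + (1 - ρ * m1))) / ρ * Ω +
      (2 - m1) / ρ := by
  unfold Gbar
  field_simp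
  ring

theorem Gbar_at {ρ m1 : ℝ} (h0 : 0 < ρ) (hu : 0 < 1 - ρ * m1) :
    Gbar ρ m1 (1 / (1 - ρ * m1) ^ 2) = GG ρ m1 := by
  have hu' := hu.ne'
  have h0' := h0.ne'
  have hp : om ρ m1 * (1 - ρ * m1) = 1 := one_div_mul_cancel hu'
  have e1 : 1 / (1 - ρ * m1) ^ 2 = om ρ m1 ^ 2 := by
    unfold om
    rw [div_pow, one_pow]
  have e2 : (1 - ρ * m1) * om ρ m1 ^ 2 = om ρ m1 := by
    linear_combination om ρ m1 * hp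
  have e3 : 2 * (1 - ρ * m1) ^ 2 * (om ρ m1 ^ 2) ^ 2 - om ρ m1 ^ 2 = om ρ m1 ^ 2 := by
    have : 2 * (1 - ρ * m1) ^ 2 * (om ρ m1 ^ 2) ^ 2 = 2 * ((1 - ρ * m1) * om ρ m1 ^ 2) ^ 2 := by
      ring
    rw [this, e2]
    ring
  have e4 : om ρ m1 ^ 2 - om ρ m1 = ρ * (m1 * om ρ m1 ^ 2) := by
    linear_combination om ρ m1 * hp
  rw [e1]
  unfold Gbar GG
  rw [e3, e2, e4, show (1 - ρ) ^ 4 * (ρ * (m1 * om ρ m1 ^ 2)) / ρ =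
    (1 - ρ) ^ 4 * (m1 * om ρ m1 ^ 2) by field_simp]
  ring

end MonoAux

open MonoAux

/-- MODULE RM7. Dependence on `Ω`. `FF` decreases in `Ω`: with `δ = 1-ρ`, `u = 1 - ρ m₁`,
`FF(Ω) - FF(Ω') = (xδ³/ρ)(Ω'-Ω) (-z(2+δ/ρ)u + (zδ/ρ + x(1-z))(2u²(Ω+Ω')-1))`, and
`2u²(Ω+Ω') - 1 ≥ 3`, so the last factor is
`≥ 3zδ/ρ + 3x(1-z) - z(2+δ/ρ)u ≥ 2zδ/ρ + 3x(1-z) - 2zu`, linear in `z`, nonnegative at `z = 0` and at
`z = x` (`2δ/ρ + 3(1-x) - 2(1-ρm₁) ≥ 2/ρ - 1 - x(3-2ρ) ≥ 0` as `m₁ ≥ x`, `x ≤ 1/2`,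
`2/ρ + ρ ≥ 5/2`). -/
theorem FF_mono {ρ x m1 z Ω Ω' : ℝ} (h0 : 0 < ρ) (h1 : ρ < 1) (hz : 0 ≤ z) (hzx : z ≤ x)
    (hxm : x ≤ m1) (hm1 : m1 ≤ 1 / 2) (hΩ : 1 ≤ (1 - ρ * m1) ^ 2 * Ω) (hΩ' : Ω ≤ Ω') :
    FF ρ x m1 z Ω' ≤ FF ρ x m1 z Ω := by
  have hd := FF_diff (ρ := ρ) (x := x) (m1 := m1) (z := z) (Ω := Ω) (Ω' := Ω') h0
  have hx0 : 0 ≤ x := hz.trans hzx
  have hm0 : 0 ≤ m1 := hx0.trans hxm
  have hz1 : z ≤ 1 / 2 := by linarith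
  have ha : 1 - ρ ≤ (1 - ρ) / ρ := by
    rw [le_div_iff₀ h0]
    nlinarith
  have hu0 : 0 < 1 - ρ * m1 := by nlinarith
  have hu1 : 1 - ρ * m1 ≤ 1 - ρ * z := by nlinarith
  have hu2 : 1 - ρ * m1 ≤ 1 := by nlinarith [mul_nonneg h0.le hm0]
  have hS : 3 ≤ 2 * (1 - ρ * m1) ^ 2 * (Ω + Ω') - 1 := by
    have := mul_le_mul_of_nonneg_left hΩ' (sq_nonneg (1 - ρ * m1))
    nlinarith
  generalize (1 - ρ) / ρ = a at hd ha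
  generalize 1 - ρ * m1 = u at hd hu0 hu1 hu2 hS
  generalize 2 * u ^ 2 * (Ω + Ω') - 1 = S at hd hS
  have ha0 : 0 ≤ a := by linarith
  have hb : 0 ≤ z * a + x * (1 - z) :=
    add_nonneg (mul_nonneg hz ha0) (mul_nonneg hx0 (by linarith))
  have h3 : 3 * (z * a + x * (1 - z)) ≤ (z * a + x * (1 - z)) * S := by
    rw [mul_comm 3]
    exact mul_le_mul_of_nonneg_left hS hb
  have h4 : z * (1 - z) ≤ x * (1 - z) := mul_le_mul_of_nonneg_right hzx (by linarith)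
  have h5 : z * a * u ≤ z * a := by
    have := mul_le_mul_of_nonneg_left hu2 (mul_nonneg hz ha0)
    linarith
  have h6 : z * u ≤ z * (1 - ρ * z) := mul_le_mul_of_nonneg_left hu1 hz
  have h7 : 0 ≤ z * (2 * a + 1 - z * (3 - 2 * ρ)) := by
    apply mul_nonneg hz
    nlinarith
  have hpos : 0 ≤ -z * (2 + a) * u + (z * a + x * (1 - z)) * S := by nlinarith
  have h8 : 0 ≤ x * (1 - ρ) ^ 3 / ρ * (Ω' - Ω) := by
    apply mul_nonneg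
    · exact div_nonneg (mul_nonneg hx0 (pow_nonneg (by linarith) 3)) h0.le
    · linarith
  have h9 := mul_nonneg h8 hpos
  linarith

/-- `g(Ω) = g₀ - Gbar(Ω)` is a concave quadratic in `Ω`; nonnegative at `Ω₀ = 1/(1-ρm₁)²` (where
`Gbar = Γ(m₁)`) and at `Ω'`, hence in between. -/
theorem Gbar_le {ρ m1 Ω Ω' g0 : ℝ} (h0 : 0 < ρ) (h1 : ρ < 1) (hm0 : 0 ≤ m1) (hm1 : m1 ≤ 1 / 2)
    (hΩ : 1 ≤ (1 - ρ * m1) ^ 2 * Ω) (hΩ' : Ω ≤ Ω') (hg : GG ρ m1 ≤ g0) (hg' : Gbar ρ m1 Ω' ≤ g0) :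
    Gbar ρ m1 Ω ≤ g0 := by
  have hu0 : 0 < 1 - ρ * m1 := by nlinarith
  have hΩ0 : 1 / (1 - ρ * m1) ^ 2 ≤ Ω := by
    rw [div_le_iff₀ (pow_pos hu0 2)]
    linarith
  rw [← Gbar_at h0 hu0] at hg
  rw [Gbar_quad h0] at hg hg' ⊢
  exact quad_le (by positivity) hΩ0 hΩ' hg hg'

/-- Identification of `Abar`, `Gbar` and the range of `Ω = ω(d) ω(e)`:
`(1-ρd)(1-ρe) = 1 - 2ρm₁ + ρ²de`, `de ≥ x²`, `(1-ρd)(1-ρe) ≤ (1-ρm₁)²`. -/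
theorem bar_eq {ρ d e x : ℝ} (h0 : 0 < ρ) (h1 : ρ < 1) (hd : 0 < d) (he : 0 < e)
    (hde : d + e ≤ 1) (hx0 : 0 ≤ x) (hx : x ^ 2 ≤ d * e) :
    Abar ρ ((d + e) / 2) (om ρ d * om ρ e) = (AA ρ d + AA ρ e) / 2 ∧
    Gbar ρ ((d + e) / 2) (om ρ d * om ρ e) = (GG ρ d + GG ρ e) / 2 ∧
    1 ≤ (1 - ρ * ((d + e) / 2)) ^ 2 * (om ρ d * om ρ e) ∧
    om ρ d * om ρ e ≤ 1 / (1 - 2 * ρ * ((d + e) / 2) + ρ ^ 2 * x ^ 2) ∧
    x ≤ (d + e) / 2 := by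
  have hP : 0 < 1 - ρ * d := by nlinarith
  have hQ : 0 < 1 - ρ * e := by nlinarith
  have hP' := hP.ne'
  have hQ' := hQ.ne'
  have h0' := h0.ne'
  have hp : om ρ d * (1 - ρ * d) = 1 := one_div_mul_cancel hP'
  have hq : om ρ e * (1 - ρ * e) = 1 := one_div_mul_cancel hQ'
  have hu : (1 - ρ * ((d + e) / 2)) * (om ρ d * om ρ e) = (om ρ d + om ρ e) / 2 := by
    linear_combination (1 / 2) * om ρ e * hp + (1 / 2) * om ρ d * hq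
  have hu2 : 2 * (1 - ρ * ((d + e) / 2)) ^ 2 * (om ρ d * om ρ e) ^ 2 - om ρ d * om ρ e =
      (om ρ d ^ 2 + om ρ e ^ 2) / 2 := by
    have : 2 * (1 - ρ * ((d + e) / 2)) ^ 2 * (om ρ d * om ρ e) ^ 2 =
        2 * ((1 - ρ * ((d + e) / 2)) * (om ρ d * om ρ e)) ^ 2 := by ring
    rw [this, hu]
    ring
  have hp2 : om ρ d ^ 2 - om ρ d = ρ * (d * om ρ d ^ 2) := by
    linear_combination om ρ d * hp
  have hq2 : om ρ e ^ 2 - om ρ e = ρ * (e * om ρ e ^ 2) := by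
    linear_combination om ρ e * hq
  have hprod : om ρ d * om ρ e = 1 / ((1 - ρ * d) * (1 - ρ * e)) := by
    unfold om
    rw [div_mul_div_comm, one_mul]
  refine ⟨?_, ?_, ?_, ?_, ?_⟩
  · unfold Abar AA
    rw [hu2]
    ring
  · unfold Gbar GG
    rw [hu2, hu]
    have e1 : (om ρ d ^ 2 + om ρ e ^ 2) / 2 - (om ρ d + om ρ e) / 2 =
        ρ * ((d * om ρ d ^ 2 + e * om ρ e ^ 2) / 2) := by
      linear_combination (1 / 2) * hp2 + (1 / 2) * hq2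
    rw [e1, show (1 - ρ) ^ 4 * (ρ * ((d * om ρ d ^ 2 + e * om ρ e ^ 2) / 2)) / ρ =
      (1 - ρ) ^ 4 * ((d * om ρ d ^ 2 + e * om ρ e ^ 2) / 2) by field_simp]
    ring
  · rw [hprod, mul_one_div, le_div_iff₀ (mul_pos hP hQ), one_mul]
    nlinarith [sq_nonneg (ρ * (d - e))]
  · rw [hprod]
    apply one_div_le_one_div_of_le
    · nlinarith [sq_nonneg (ρ * x)]
    · nlinarith [mul_le_mul_of_nonneg_left hx (sq_nonneg ρ)]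
  · apply abs_le_of_sq_le_sq' _ (by linarith) |>.2
    nlinarith [sq_nonneg (d - e)]

end Pool.Agent.RieszMix
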