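import Pool.Agent.RieszMix.Basic

set_option autoImplicit false

open Real Finset

namespace Pool.Agent.RieszMix

namespace NegAux

theorem kp_sub_le {ρ d : ℝ} (h0 : 0 < ρ) (h1 : ρ < 1) (hd0 : 0 ≤ d) (hd1 : d ≤ 1) :
    kp ρ - AA ρ d ≤ d * ((1 - ρ) + (1 - ρ) ^ 2) := by
  rw [kp_sub_AA h0 h1 hd0 hd1]
  obtain ⟨w1, w2, -, -⟩ := om_facts h0 h1 hd0 hd1
  have hδ : 0 < 1 - ρ := by linarith
  have h3 : 0 ≤ (1 - ρ) * om ρ d := by positivity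
  have h4 : ((1 - ρ) * om ρ d) ^ 2 ≤ 1 := by
    calc ((1 - ρ) * om ρ d) ^ 2 ≤ 1 ^ 2 := pow_le_pow_left₀ h3 w2 2
      _ = 1 := one_pow 2
  have h5 : (1 - ρ) ^ 3 * d * om ρ d * (1 + om ρ d) =
      d * ((1 - ρ) ^ 2 * ((1 - ρ) * om ρ d) + (1 - ρ) * ((1 - ρ) * om ρ d) ^ 2) := by ring
  rw [h5]
  apply mul_le_mul_of_nonneg_left _ hd0
  nlinarith [mul_le_mul_of_nonneg_left w2 (sq_nonneg (1 - ρ)),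
    mul_le_mul_of_nonneg_left h4 hδ.le]

theorem r_facts {w : ℝ} (hw0 : 0 ≤ w) (hw2 : w ≤ 1 / 2) :
    0 ≤ 1 - w / 2 - w ^ 2 / 4 ∧ (1 - w / 2 - w ^ 2 / 4) ^ 2 ≤ 1 - w := by
  have hw22 : w ^ 2 ≤ 1 / 4 := by
    calc w ^ 2 ≤ (1 / 2) ^ 2 := pow_le_pow_left₀ hw0 hw2 2
      _ = 1 / 4 := by norm_num
  refine ⟨by linarith, ?_⟩
  have h3 : 0 ≤ w ^ 2 * (1 - w - w ^ 2 / 4) := mul_nonneg (sq_nonneg w) (by linarith)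
  have h4 : 1 - w - (1 - w / 2 - w ^ 2 / 4) ^ 2 = w ^ 2 * (1 - w - w ^ 2 / 4) / 4 := by ring
  linarith

theorem hR_aux {δ k m ξ A G Q w : ℝ} (hδ0 : 0 < δ) (hδ1 : δ < 1) (hkδ : k = 1 + δ + δ ^ 2)
    (hm0 : 0 < m) (hm2 : m ≤ 1 / 2) (hξ0 : 0 ≤ ξ)
    (hB : m * (1 + δ ^ 2) ≤ k + A - G) (hQ : Q = A - (m + ξ) / 2) (hQ1 : 1 / 2 ≤ Q)
    (hkw : k * w = k - Q) (hw0 : 0 ≤ w) (hwm : w ≤ m) :
    G - ξ * Q ≤ 2 * k * (1 - w / 2 - w ^ 2 / 4) := by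
  have hk0 : 0 < k := by rw [hkδ]; positivity
  have h1 : 2 * k * (1 - w / 2 - w ^ 2 / 4) = 2 * k - k * w - k * w ^ 2 / 2 := by ring
  have h2 : k * w ^ 2 ≤ k * m / 2 := by
    have h5 : w ^ 2 ≤ m / 2 := by
      calc w ^ 2 = w * w := sq w
        _ ≤ m * (1 / 2) := mul_le_mul hwm (hwm.trans hm2) hw0 hm0.le
        _ = m / 2 := by ring
    calc k * w ^ 2 ≤ k * (m / 2) := mul_le_mul_of_nonneg_left h5 hk0.le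
      _ = k * m / 2 := by ring
  have h3 : ξ / 2 ≤ ξ * Q := by
    calc ξ / 2 = ξ * (1 / 2) := by ring
      _ ≤ ξ * Q := mul_le_mul_of_nonneg_left hQ1 hξ0
  have h4 : m / 2 + k * m / 4 ≤ m * (1 + δ ^ 2) := by
    have h5 : 0 ≤ m / 4 * (1 - δ + 3 * δ ^ 2) :=
      mul_nonneg (by linarith) (by linarith [sq_nonneg δ])
    have h6 : m * (1 + δ ^ 2) - (m / 2 + k * m / 4) = m / 4 * (1 - δ + 3 * δ ^ 2) := by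
      rw [hkδ]
      ring
    linarith
  rw [h1, hkw]
  linarith

theorem core {ρ δ k m ξ ζ A G : ℝ} (hρ0 : 0 < ρ) (hρ : ρ = 1 - δ) (hδ0 : 0 < δ) (hδ1 : δ < 1)
    (hkδ : k = 1 + δ + δ ^ 2) (hm0 : 0 < m) (hm2 : m ≤ 1 / 2) (hξ0 : 0 ≤ ξ) (hξm : ξ ≤ m)
    (hζ : 0 ≤ ζ) (hA1 : 1 ≤ A) (hAk : A ≤ k) (hkA : k - A ≤ m * (δ + δ ^ 2))
    (hB : m * (1 + δ ^ 2) ≤ k + A - G) :
    0 ≤ ζ ^ 2 * (k + ζ) / (1 + ρ * ζ) - ξ * ζ * G + ξ ^ 2 * (1 + ζ) * A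
      - ξ ^ 2 / 2 * (m + ξ) * (1 + ζ) := by
  have hk0 : 0 < k := by rw [hkδ]; positivity
  obtain ⟨Q, hQ⟩ : ∃ Q, Q = A - (m + ξ) / 2 := ⟨_, rfl⟩
  have hQ1 : 1 / 2 ≤ Q := by rw [hQ]; linarith
  obtain ⟨w, hw⟩ : ∃ w, w = (k - Q) / k := ⟨_, rfl⟩
  have hkw : k * w = k - Q := by rw [hw]; field_simp
  have hw0 : 0 ≤ w := by
    rw [hw]
    apply div_nonneg _ hk0.le
    rw [hQ]
    linarith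
  have hwm : w ≤ m := by
    rw [hw, div_le_iff₀ hk0]
    have : m * k = m + m * (δ + δ ^ 2) := by rw [hkδ]; ring
    rw [this, hQ]
    linarith
  have hw2 : w ≤ 1 / 2 := hwm.trans hm2
  have hR := hR_aux hδ0 hδ1 hkδ hm0 hm2 hξ0 hB hQ hQ1 hkw hw0 hwm
  obtain ⟨-, hr1⟩ := r_facts hw0 hw2
  obtain ⟨r, hr⟩ : ∃ r, r = 1 - w / 2 - w ^ 2 / 4 := ⟨_, rfl⟩
  rw [← hr] at hR hr1
  have hr2 : k * r ^ 2 ≤ Q := by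
    have h2 : Q = k * (1 - w) := by linarith
    rw [h2]
    exact mul_le_mul_of_nonneg_left hr1 hk0.le
  have hfrac : k ≤ (k + ζ) / (1 + ρ * ζ) := by
    rw [le_div_iff₀ (by positivity)]
    have h1 : k * ρ ≤ 1 := by
      have : k * ρ = 1 - δ ^ 3 := by rw [hkδ, hρ]; ring
      rw [this]
      linarith [pow_pos hδ0 3]
    have h2 : k * ρ * ζ ≤ 1 * ζ := mul_le_mul_of_nonneg_right h1 hζ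
    linarith
  have e1 : ζ ^ 2 * (k + ζ) / (1 + ρ * ζ) = ζ ^ 2 * ((k + ζ) / (1 + ρ * ζ)) := by ring
  rw [e1]
  have e2 : ζ ^ 2 * k ≤ ζ ^ 2 * ((k + ζ) / (1 + ρ * ζ)) :=
    mul_le_mul_of_nonneg_left hfrac (sq_nonneg ζ)
  have e3 : ξ * ζ * (G - ξ * Q) ≤ ξ * ζ * (2 * k * r) :=
    mul_le_mul_of_nonneg_left hR (by positivity)
  have e4 : ξ ^ 2 * (k * r ^ 2) ≤ ξ ^ 2 * Q := mul_le_mul_of_nonneg_left hr2 (sq_nonneg ξ)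
  have e5 : ξ ^ 2 * (1 + ζ) * A - ξ ^ 2 / 2 * (m + ξ) * (1 + ζ) = ξ ^ 2 * (1 + ζ) * Q := by
    rw [hQ]
    ring
  have e6 : 0 ≤ k * (ζ - ξ * r) ^ 2 := by positivity
  have e7 : k * (ζ - ξ * r) ^ 2 = ζ ^ 2 * k - ξ * ζ * (2 * k * r) + ξ ^ 2 * (k * r ^ 2) := by ring
  have e8 : ξ * ζ * (G - ξ * Q) = ξ * ζ * G - ξ ^ 2 * ζ * Q := by ring
  have e9 : ξ ^ 2 * (1 + ζ) * Q = ξ ^ 2 * Q + ξ ^ 2 * ζ * Q := by ring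
  linarith

end NegAux

/-- MODULE RM2. The pair inequality for `x = -ξ ≤ 0`, `z = -ζ ≤ 0`.
Proof. `m₁ = (d+e)/2 ≤ 1/2`, `ξ ≤ √(de) ≤ m₁`. `(κ+ζ)/(1+ρζ) ≥ κ` since `κ ρ = 1 - δ³ ≤ 1`. With
`Q = Ā - (m₁+ξ)/2 ≥ 1 - m₁ ≥ 1/2` (`Ā, Γ̄` the averages) the left side is
`≥ κζ² - ξζ(Γ̄ - ξQ) + ξ²Q`, which is `≥ 0` if `Γ̄ - ξQ ≤ 2 √(κ Q)` (or `≤ 0`).
`v = κ - Q = κ - Ā + (m₁+ξ)/2 ≤ m₁ κ` (`kp_sub_AA`: `κ - A(d) ≤ d(δ+δ²)`; `ξ ≤ m₁`), so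
`w = v/κ ≤ 1/2` and `√(1-w) ≥ 1 - w/2 - w²/4` [square: `w³/4 + w⁴/16 ≤ w²/4`]; hence
`2√(κQ) = 2κ√(1-w) ≥ 2κ - v - v²/(2κ) ≥ 2κ - v - m₁κ/4` and (`kp_AA_GG`, `AA_om`)
`Γ̄ = κ + Ā - B̄`, `B̄ ≥ m₁(1+δ²)`, so
`2√(κQ) - (Γ̄ - ξQ) ≥ -(m₁+ξ)/2 - m₁κ/4 + m₁(1+δ²) + ξQ ≥ m₁ (1/4)(1 - δ + 3δ²) ≥ 0`
(use `ξQ ≥ ξ/2`).  Avoid square roots: put `R = 2κ - v - v²/(2κ) ≥ 0`; then `R² ≤ 4κQ` and
`Γ̄ - ξQ ≤ R`, and `κζ² - ξζR + ξ²Q ≥ κζ² - ξζR + ξ²R²/(4κ) = (√κ ζ - ξR/(2√κ))² ≥ 0`, i.e.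
`κ(ζ - ξR/(2κ))² ≥ 0`. -/
theorem pi_neg {ρ d e ξ ζ : ℝ} (h0 : 0 < ρ) (h1 : ρ < 1) (hd : 0 < d) (he : 0 < e)
    (hde : d + e ≤ 1) (hξ0 : 0 ≤ ξ) (hξ : ξ ^ 2 ≤ d * e) (hζ : 0 ≤ ζ) :
    0 ≤ ζ ^ 2 * (kp ρ + ζ) / (1 + ρ * ζ) - ξ * ζ * ((GG ρ d + GG ρ e) / 2)
      + ξ ^ 2 * (1 + ζ) * ((AA ρ d + AA ρ e) / 2) - ξ ^ 2 / 2 * ((d + e) / 2 + ξ) * (1 + ζ) := by
  have hd1 : d ≤ 1 := by linarith
  have he1 : e ≤ 1 := by linarith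
  have a1 := AA_bounds h0 h1 hd.le hd1
  have a2 := AA_bounds h0 h1 he.le he1
  have b1 := NegAux.kp_sub_le h0 h1 hd.le hd1
  have b2 := NegAux.kp_sub_le h0 h1 he.le he1
  have o1 := mul_le_mul_of_nonneg_left (AA_om h0 h1 hd.le hd1) hd.le
  have o2 := mul_le_mul_of_nonneg_left (AA_om h0 h1 he.le he1) he.le
  rw [← kp_AA_GG h0 h1 hd.le hd1] at o1
  rw [← kp_AA_GG h0 h1 he.le he1] at o2
  have hm0 : 0 < (d + e) / 2 := by linarith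
  have hξm : ξ ≤ (d + e) / 2 := by
    have : ξ ^ 2 ≤ ((d + e) / 2) ^ 2 := by
      have h2 : ((d + e) / 2) ^ 2 - d * e = ((d - e) / 2) ^ 2 := by ring
      linarith [sq_nonneg ((d - e) / 2)]
    exact le_of_sq_le_sq this hm0.le
  refine NegAux.core (δ := 1 - ρ) (k := kp ρ) h0 (by ring) (by linarith) (by linarith)
    (by unfold kp; ring) hm0 (by linarith) hξ0 hξm hζ (by linarith [a1.1, a2.1])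
    (by linarith [a1.2, a2.2]) ?_ ?_
  · have e1 : (d + e) / 2 * ((1 - ρ) + (1 - ρ) ^ 2) =
        (d * ((1 - ρ) + (1 - ρ) ^ 2) + e * ((1 - ρ) + (1 - ρ) ^ 2)) / 2 := by ring
    rw [e1]
    linarith
  · have e1 : (d + e) / 2 * (1 + (1 - ρ) ^ 2) =
        (d * (1 + (1 - ρ) ^ 2) + e * (1 + (1 - ρ) ^ 2)) / 2 := by ring
    rw [e1]
    linarith

end Pool.Agent.RieszMix
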