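import Pool.Agent.RieszMix.PairZ

set_option autoImplicit false

open Real Finset

namespace Pool.Agent.RieszMix

namespace PairDAux

/-- the pair inequality in the variable `z < 1` -/
theorem core {ρ d e x z : ℝ} (h0 : 0 < ρ) (h1 : ρ < 1) (hd : 0 < d) (he : 0 < e)
    (hde : d + e ≤ 1) (hx : x ^ 2 ≤ d * e) (hz : z < 1) :
    0 ≤ Ph ρ z - x * z * ((GG ρ d + GG ρ e) / 2) + x ^ 2 * (1 - z) * ((AA ρ d + AA ρ e) / 2)
      - x ^ 2 / 2 * ((d + e) / 2 - x) * (1 - z) := by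
  have hd1 : d ≤ 1 := by linarith
  have he1 : e ≤ 1 := by linarith
  have hG : 1 ≤ (GG ρ d + GG ρ e) / 2 := by
    have := GG_ge_one h0 h1 hd.le hd1
    have := GG_ge_one h0 h1 he.le he1
    linarith
  have hA : 1 ≤ (AA ρ d + AA ρ e) / 2 := by
    have := (AA_bounds h0 h1 hd.le hd1).1
    have := (AA_bounds h0 h1 he.le he1).1
    linarith
  have hk : 1 ≤ kp ρ := by
    unfold kp
    nlinarith [sq_nonneg (1 - ρ)]
  have hρz : 0 < 1 - ρ * z := by
    rcases le_or_gt 0 z with h | h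
    · nlinarith
    · nlinarith [mul_neg_of_pos_of_neg h0 h]
  have hPh : 0 ≤ Ph ρ z := by
    unfold Ph
    apply div_nonneg _ hρz.le
    exact mul_nonneg (sq_nonneg z) (by linarith)
  have hxm : x ^ 2 ≤ ((d + e) / 2) ^ 2 := by nlinarith [sq_nonneg (d - e)]
  have habs : |x| ≤ (d + e) / 2 := abs_le_of_sq_le_sq hxm (by linarith)
  have hxl : -((d + e) / 2) ≤ x := (abs_le.1 habs).1
  have hQ : 0 ≤ x ^ 2 * (1 - z) * ((AA ρ d + AA ρ e) / 2 - ((d + e) / 2 - x) / 2) := by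
    apply mul_nonneg
    · exact mul_nonneg (sq_nonneg x) (by linarith)
    · linarith
  rcases le_or_gt 0 x with hx0 | hx0
  · rcases le_or_gt 0 z with hz0 | hz0
    · obtain ⟨e1, e2, -, -, -⟩ := bar_eq h0 h1 hd he hde hx0 hx
      have key : 0 ≤ FF ρ x ((d + e) / 2) z (om ρ d * om ρ e) := by
        rcases le_total z x with h | h
        · exact pair_low h0 h1 hd he hde hx0 hx hz0 h
        · exact pair_high h0 h1 hd he hde hx0 hx h hz
      unfold FF at key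
      rw [e1, e2] at key
      exact key
    · have h2 : 0 ≤ x * (-z) * ((GG ρ d + GG ρ e) / 2) :=
        mul_nonneg (mul_nonneg hx0 (by linarith)) (by linarith)
      nlinarith
  · rcases le_or_gt 0 z with hz0 | hz0
    · have h2 : 0 ≤ (-x) * z * ((GG ρ d + GG ρ e) / 2) :=
        mul_nonneg (mul_nonneg (by linarith) hz0) (by linarith)
      nlinarith
    · have h2 := pi_neg (ξ := -x) (ζ := -z) h0 h1 hd he hde (by linarith)
        (by rw [neg_sq]; exact hx) (by linarith)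
      have h3 : (-z) ^ 2 * (kp ρ + -z) / (1 + ρ * -z) = Ph ρ z := by
        unfold Ph
        rw [neg_sq]
        congr 1
        ring
      rw [h3] at h2
      calc (0 : ℝ) ≤ _ := h2
        _ = _ := by ring

end PairDAux

/-- MODULE RM9. The pair inequality in the form used for the energy.
Put `z = 1 - 1/D < 1`; `e_ρ(D) = (1-z)²/(1-ρz)`, `D - 1 = z/(1-z)`, and (right - left)·(1-z) equals
`Φ(z) - x z Γ̄ + x²(1-z)Ā - x²/2(m₁-x)(1-z)` [`(1-z)³/(1-ρz) - (1-z) + (2-ρ)z = Φ(z)`], which is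
`FF ρ x m₁ z (ω(d)ω(e))` (`bar_eq`). Cases: `x ≥ 0, z ≥ 0`: `pair_low/high`. `x ≥ 0, z ≤ 0`: all terms
are nonnegative (`Γ̄, Ā ≥ 1`, `|x| ≤ m₁ ≤ 1/2`, `Φ ≥ 0`). `x < 0, z ≥ 0`: likewise
(`Ā - (m₁-x)/2 ≥ 1/2`). `x < 0, z < 0`: `pi_neg` with `ξ = -x`, `ζ = -z`. -/
theorem pair_D {ρ d e x D : ℝ} (h0 : 0 < ρ) (h1 : ρ < 1) (hd : 0 < d) (he : 0 < e)
    (hde : d + e ≤ 1) (hx : x ^ 2 ≤ d * e) (hD : 0 < D) :
    1 - ((2 - ρ) - x * ((GG ρ d + GG ρ e) / 2)) * (D - 1) - x ^ 2 * ((AA ρ d + AA ρ e) / 2)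
      + x ^ 2 / 2 * ((d + e) / 2 - x) ≤ ek ρ D := by
  have hz : 1 - 1 / D < 1 := by
    have : 0 < 1 / D := by positivity
    linarith
  have key := PairDAux.core h0 h1 hd he hde hx hz
  set G := (GG ρ d + GG ρ e) / 2 with hG
  set A := (AA ρ d + AA ρ e) / 2 with hA
  have hden : 0 < ρ + (1 - ρ) * D := by
    have : 0 < (1 - ρ) * D := mul_pos (by linarith) hD
    linarith
  have hne : D ≠ 0 := hD.ne'
  have hne2 : ρ + (1 - ρ) * D ≠ 0 := hden.ne'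
  have hid : 1 / D - (ρ + (1 - ρ) * D) * (1 - (2 - ρ) * (D - 1))
      - (D - 1) ^ 2 * (3 - 3 * ρ + ρ ^ 2 - 1 + 1 / D) = 0 := by
    field_simp
    ring
  have h2 : 1 - ρ * (1 - 1 / D) = (ρ + (1 - ρ) * D) / D := by
    field_simp
    ring
  have e1 : ek ρ D = 1 / D * (1 / (ρ + (1 - ρ) * D)) := by
    unfold ek
    rw [one_div_mul_one_div]
  have e2 : D * Ph ρ (1 - 1 / D) =
      (D - 1) ^ 2 * (3 - 3 * ρ + ρ ^ 2 - 1 + 1 / D) * (1 / (ρ + (1 - ρ) * D)) := by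
    unfold Ph kp
    rw [h2]
    generalize ρ + (1 - ρ) * D = q at hne2
    field_simp
    ring
  have hq : 1 / (ρ + (1 - ρ) * D) * (ρ + (1 - ρ) * D) = 1 := one_div_mul_cancel hne2
  have hDD : D * (1 / D) = 1 := mul_one_div_cancel hne
  have h3 : ek ρ D - (1 - ((2 - ρ) - x * G) * (D - 1) - x ^ 2 * A
      + x ^ 2 / 2 * ((d + e) / 2 - x)) =
      D * (Ph ρ (1 - 1 / D) - x * (1 - 1 / D) * G + x ^ 2 * (1 - (1 - 1 / D)) * A
      - x ^ 2 / 2 * ((d + e) / 2 - x) * (1 - (1 - 1 / D))) := by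
    rw [e1]
    have e3 : D * (Ph ρ (1 - 1 / D) - x * (1 - 1 / D) * G + x ^ 2 * (1 - (1 - 1 / D)) * A
      - x ^ 2 / 2 * ((d + e) / 2 - x) * (1 - (1 - 1 / D))) = D * Ph ρ (1 - 1 / D)
        - x * (D - D * (1 / D)) * G + x ^ 2 * (D * (1 / D)) * A
        - x ^ 2 / 2 * ((d + e) / 2 - x) * (D * (1 / D)) := by ring
    rw [e3, e2, hDD]
    linear_combination (1 / (ρ + (1 - ρ) * D)) * hid + (1 - (2 - ρ) * (D - 1)) * hq
  have h4 := mul_nonneg hD.le key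
  rw [← h3] at h4
  linarith

end Pool.Agent.RieszMix
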