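import Pool.Agent.RieszMix.Basic

set_option autoImplicit false

open Real Finset

namespace Pool.Agent.RieszMix

/-- MODULE RM5. Proof. `2M ≤ 1 - 2x ≤ (1-x)²`, so it suffices that
`(1-x)(Y0+J+x/2)² ≤ 8(1+s+s²)(Y0-(1-x)/2)`. The difference (right minus left) is increasing in `x`
(derivative `4(1+s+s²) + T² - (1-x)T`, `T = Y0+J+x/2 ≥ 1`), so take `x = 0`:
`(Y0+J)² ≤ 8(1+s+s²)(Y0-1/2)`, concave in `Y0`, `J ≤ 2.3 s`; at `Y0 = 1`: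
`(1+2.3s)² ≤ 4(1+s+s²)`, at `Y0 = 1+s+s²+s³`: `(1+3.3s+s²+s³)² ≤ 4(1+s+s²)+8s(1+s+s²)²`. -/
theorem star {x M s Y0 J : ℝ} (hx : 0 ≤ x) (hM : 0 ≤ M) (hxM : x + M ≤ 1 / 2) (hs : 0 ≤ s)
    (hs1 : s ≤ 1) (hY : 1 ≤ Y0) (hY1 : Y0 ≤ 1 + s + s ^ 2 + s ^ 3) (hJ : 0 ≤ J)
    (hJ1 : J ≤ 2.3 * s) :
    M * (Y0 + J + x / 2) ^ 2 ≤ 4 * (1 - x) * (1 + s + s ^ 2) * (Y0 - (1 - x) / 2) := by
  have hx2 : x ≤ 1 / 2 := by linarith
  have hq1 : 1 ≤ 1 + s + s ^ 2 := by nlinarith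
  obtain ⟨q, hq⟩ : ∃ q, q = 1 + s + s ^ 2 := ⟨_, rfl⟩
  rw [← hq] at hq1 ⊢
  -- the case `x = 0`
  have h0 : (Y0 + J) ^ 2 ≤ 8 * q * (Y0 - 1 / 2) := by
    have h1 : (Y0 + J) ^ 2 ≤ (Y0 + 2.3 * s) ^ 2 := by
      have : Y0 + J ≤ Y0 + 2.3 * s := by linarith
      gcongr
    have h2 : 0 ≤ (Y0 - 1) * (1 + s + s ^ 2 + s ^ 3 - Y0) :=
      mul_nonneg (by linarith) (by linarith)
    have hs2 : s ^ 2 ≤ s := by nlinarith
    have hs3 : s ^ 3 ≤ s ^ 2 := by nlinarith [sq_nonneg s]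
    have hs3' : 0 ≤ s ^ 3 := by positivity
    have h3 : 0 ≤ 6 + 2.4 * s + 7 * s ^ 2 - s ^ 3 := by nlinarith
    have h4 : 0 ≤ (6 + 2.4 * s + 7 * s ^ 2 - s ^ 3) * (Y0 - 1) :=
      mul_nonneg h3 (by linarith)
    have h5 : (Y0 + 2.3 * s) ^ 2 ≤ 8 * q * (Y0 - 1 / 2) := by
      rw [hq]
      nlinarith
    linarith
  have hT : 1 ≤ Y0 + J := by linarith
  have h1 : (1 - x) * (Y0 + J + x / 2) ^ 2 ≤ 8 * q * (Y0 - (1 - x) / 2) := by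
    have e : 8 * q * (Y0 - (1 - x) / 2) - (1 - x) * (Y0 + J + x / 2) ^ 2 =
        (8 * q * (Y0 - 1 / 2) - (Y0 + J) ^ 2) +
        x * (4 * q + (Y0 + J) ^ 2 - (Y0 + J) * (1 - x) - (1 - x) * x / 4) := by ring
    have h2 : 0 ≤ 4 * q + (Y0 + J) ^ 2 - (Y0 + J) * (1 - x) - (1 - x) * x / 4 := by
      nlinarith
    have h3 := mul_nonneg hx h2
    linarith
  have h2M : 2 * M ≤ (1 - x) ^ 2 := by nlinarith
  have hTT : 0 ≤ (Y0 + J + x / 2) ^ 2 := sq_nonneg _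
  calc M * (Y0 + J + x / 2) ^ 2 ≤ (1 - x) ^ 2 / 2 * (Y0 + J + x / 2) ^ 2 := by
        apply mul_le_mul_of_nonneg_right _ hTT
        linarith
    _ = (1 - x) / 2 * ((1 - x) * (Y0 + J + x / 2) ^ 2) := by ring
    _ ≤ (1 - x) / 2 * (8 * q * (Y0 - (1 - x) / 2)) := by
        apply mul_le_mul_of_nonneg_left h1
        linarith
    _ = 4 * (1 - x) * q * (Y0 - (1 - x) / 2) := by ring

/-- MODULE RM6. Proof. With `c = ω(x) ≥ 1`, `s = (1-ρ)c`, `y = x - z ∈ [0, x]`: since `z ≤ x`,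
`ω(z) ≤ c` and `(1 - δ³ω(z)c²)/ρ ≥ (1-s³)/ρ = (1-x) c (1+s+s²) ≥ (1-x)(1+s+s²) =: S`
(`(1-s)/ρ = (1-x)c`).  The expression is
`≥ S y² - x M y (Y0+J+x/2) + x² M (Y0-(1-x)/2)`, a quadratic in `y` with
discriminant `x² M (M (Y0+J+x/2)² - 4 S (Y0-(1-x)/2)) ≤ 0` by `star`. -/
theorem case_ext {ρ x M z Y0 J : ℝ} (h0 : 0 < ρ) (h1 : ρ < 1) (hx : 0 ≤ x) (hM : 0 ≤ M)
    (hxM : x + M ≤ 1 / 2) (hz : 0 ≤ z) (hzx : z ≤ x) (hY : 1 ≤ Y0)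
    (hY1 : Y0 ≤ 1 + (1 - ρ) * om ρ x + ((1 - ρ) * om ρ x) ^ 2 + ((1 - ρ) * om ρ x) ^ 3)
    (hJ : 0 ≤ J) (hJ1 : J ≤ 2.3 * ((1 - ρ) * om ρ x)) :
    0 ≤ (z - x) ^ 2 * (1 - (1 - ρ) ^ 3 * om ρ z * om ρ x ^ 2) / ρ
      + x * z * (M * (Y0 + (1 - x) * J)) - x ^ 2 * (1 - z) * (M * J) - x ^ 2 / 2 * M * (1 - z) := by
  have hx1 : x ≤ 1 / 2 := by linarith
  obtain ⟨c1, c2, c3, c4⟩ := om_facts h0 h1 hx (by linarith : x ≤ 1)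
  obtain ⟨d1, d2, d3, d4⟩ := om_facts h0 h1 hz (by linarith : z ≤ 1)
  obtain ⟨c, hc⟩ : ∃ c, c = om ρ x := ⟨_, rfl⟩
  obtain ⟨o, ho⟩ : ∃ o, o = om ρ z := ⟨_, rfl⟩
  rw [← hc] at c1 c2 c4 hY1 hJ1 ⊢
  rw [← ho] at d1 d2 d4 ⊢
  have hδ : 0 < 1 - ρ := by linarith
  have hs0 : 0 ≤ (1 - ρ) * c := by positivity
  have hst := star hx hM hxM hs0 c2 hY hY1 hJ hJ1
  obtain ⟨s, hs⟩ : ∃ s, s = (1 - ρ) * c := ⟨_, rfl⟩
  rw [← hs] at c2 hs0 hst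
  -- `ω` is increasing
  have hoc : o ≤ c := by
    have e1 : c * (1 - ρ * x) = 1 := by linarith
    have e2 : o * (1 - ρ * z) = 1 := by linarith
    have h3 : c * (1 - ρ * x) ≤ c * (1 - ρ * z) := by
      apply mul_le_mul_of_nonneg_left _ (by linarith)
      nlinarith
    have h4 : o * (1 - ρ * z) ≤ c * (1 - ρ * z) := by linarith
    exact le_of_mul_le_mul_right h4 d3
  have hS : (1 - x) * (1 + s + s ^ 2) ≤ (1 - (1 - ρ) ^ 3 * o * c ^ 2) / ρ := by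
    rw [le_div_iff₀ h0]
    have e1 : 1 - s = ρ * (1 - x) * c := by rw [hs]; linarith
    have h5 : (1 - ρ) ^ 3 * o * c ^ 2 ≤ s ^ 3 := by
      calc (1 - ρ) ^ 3 * o * c ^ 2 ≤ (1 - ρ) ^ 3 * c * c ^ 2 := by gcongr
        _ = s ^ 3 := by rw [hs]; ring
    have h6 : 1 - s ^ 3 = ρ * (1 - x) * c * (1 + s + s ^ 2) := by
      rw [← e1]; ring
    have h7 : (1 - x) * (1 + s + s ^ 2) * ρ ≤ ρ * (1 - x) * c * (1 + s + s ^ 2) := by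
      have h8 : 0 ≤ ρ * (1 - x) * (1 + s + s ^ 2) := by
        have : 0 ≤ 1 - x := by linarith
        positivity
      nlinarith
    linarith
  have hSp : 0 < (1 - x) * (1 + s + s ^ 2) := by
    have : 0 < 1 - x := by linarith
    positivity
  obtain ⟨S, hSd⟩ : ∃ S, S = (1 - x) * (1 + s + s ^ 2) := ⟨_, rfl⟩
  rw [← hSd] at hS hSp
  have hst' : M * (Y0 + J + x / 2) ^ 2 ≤ 4 * S * (Y0 - (1 - x) / 2) := by
    rw [hSd]; linarith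
  -- the quadratic
  have hquad : 0 ≤ S * (x - z) ^ 2 - x * M * (x - z) * (Y0 + J + x / 2) +
      x ^ 2 * M * (Y0 - (1 - x) / 2) := by
    have h9 : 0 ≤ x ^ 2 * M * (4 * S * (Y0 - (1 - x) / 2) - M * (Y0 + J + x / 2) ^ 2) := by
      apply mul_nonneg (by positivity)
      linarith
    have h10 : 0 ≤ (4 * S) * (S * (x - z) ^ 2 - x * M * (x - z) * (Y0 + J + x / 2) +
        x ^ 2 * M * (Y0 - (1 - x) / 2)) := by
      have e : (4 * S) * (S * (x - z) ^ 2 - x * M * (x - z) * (Y0 + J + x / 2) +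
          x ^ 2 * M * (Y0 - (1 - x) / 2)) =
          (2 * S * (x - z) - x * M * (Y0 + J + x / 2)) ^ 2 +
          x ^ 2 * M * (4 * S * (Y0 - (1 - x) / 2) - M * (Y0 + J + x / 2) ^ 2) := by ring
      rw [e]
      have := sq_nonneg (2 * S * (x - z) - x * M * (Y0 + J + x / 2))
      linarith
    exact nonneg_of_mul_nonneg_right h10 (by positivity)
  have h11 : S * (x - z) ^ 2 ≤ (z - x) ^ 2 * (1 - (1 - ρ) ^ 3 * o * c ^ 2) / ρ := by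
    rw [mul_div_assoc]
    calc S * (x - z) ^ 2 = (z - x) ^ 2 * S := by ring
      _ ≤ (z - x) ^ 2 * ((1 - (1 - ρ) ^ 3 * o * c ^ 2) / ρ) := by
        apply mul_le_mul_of_nonneg_left hS (sq_nonneg _)
  have e : x * z * (M * (Y0 + (1 - x) * J)) - x ^ 2 * (1 - z) * (M * J) -
      x ^ 2 / 2 * M * (1 - z) =
      x ^ 2 * M * (Y0 - (1 - x) / 2) - x * M * (x - z) * (Y0 + J + x / 2) := by ring
  linarith

end Pool.Agent.RieszMix
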