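import Pool.Agent.RieszMix.Neg
import Pool.Agent.RieszMix.Extreme
import Pool.Agent.RieszMix.Star
import Pool.Agent.RieszMix.Mono

set_option autoImplicit false

open Real Finset

namespace Pool.Agent.RieszMix

namespace PairZAux

theorem core {ρ x z a b : ℝ} (h0' : ρ ≠ 0) (ha : a * (1 - ρ * z) = 1) (hb : b * (1 - ρ * x) = 1) :
    z ^ 2 * ((3 - 3 * ρ + ρ ^ 2) - z) * a
      - x * z * ((2 - x - (1 - ρ) ^ 3 * b * (2 - (1 - ρ) * x * b)) / ρ)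
      + x ^ 2 * (1 - z) * ((1 - (1 - ρ) ^ 3 * b ^ 2) / ρ)
      = (z - x) ^ 2 * (1 - (1 - ρ) ^ 3 * a * b ^ 2) / ρ := by
  have hX : 1 - ρ * x ≠ 0 := by
    intro h; rw [h] at hb; simp at hb
  have hZ : 1 - ρ * z ≠ 0 := by
    intro h; rw [h] at ha; simp at ha
  have ea : a = 1 / (1 - ρ * z) := by field_simp; linarith
  have eb : b = 1 / (1 - ρ * x) := by field_simp; linarith
  obtain ⟨X, hXX⟩ : ∃ X, X = 1 - ρ * x := ⟨_, rfl⟩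
  obtain ⟨Z, hZZ⟩ : ∃ Z, Z = 1 - ρ * z := ⟨_, rfl⟩
  have ex : x = (1 - X) / ρ := by field_simp; linarith
  have ez : z = (1 - Z) / ρ := by field_simp; linarith
  rw [← hXX] at eb hX
  rw [← hZZ] at ea hZ
  rw [ea, eb, ex, ez]
  field_simp
  ring

end PairZAux

/-- MODULE RM8. `Φ(z) - x z Γ(x) + x² (1-z) A(x) = (z-x)² (1 - δ³ ω(z) ω(x)²)/ρ`. -/
theorem Ex_eq {ρ x z : ℝ} (h0 : 0 < ρ) (h1 : ρ < 1) (hx : 0 ≤ x) (hx1 : x ≤ 1) (hz : z < 1) :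
    Ph ρ z - x * z * GG ρ x + x ^ 2 * (1 - z) * AA ρ x
      = (z - x) ^ 2 * (1 - (1 - ρ) ^ 3 * om ρ z * om ρ x ^ 2) / ρ := by
  have hX : 0 < 1 - ρ * x := by nlinarith
  have hZ : 0 < 1 - ρ * z := by
    rcases le_or_gt z 0 with h | h
    · nlinarith
    · nlinarith
  have h0' := h0.ne'
  have ha : om ρ z * (1 - ρ * z) = 1 := by
    unfold om; rw [one_div, inv_mul_cancel₀ hZ.ne']
  have hb : om ρ x * (1 - ρ * x) = 1 := by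
    unfold om; rw [one_div, inv_mul_cancel₀ hX.ne']
  have hc := PairZAux.core h0' ha hb
  have e : Ph ρ z = z ^ 2 * ((3 - 3 * ρ + ρ ^ 2) - z) * om ρ z := by
    unfold Ph om kp; ring
  unfold GG AA
  rw [e]
  exact hc

namespace PairZAux

theorem star_low {ρ m1 x z : ℝ} (h0 : 0 < ρ) (h1 : ρ < 1) (hx0 : 0 ≤ x) (hxm : x ≤ m1)
    (hm : m1 ≤ 1 / 2) (hz : 0 ≤ z) (hzx : z ≤ x) :
    0 ≤ FF ρ x m1 z (1 / (1 - 2 * ρ * m1 + ρ ^ 2 * x ^ 2)) := by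
  have hM0 : 0 ≤ m1 - x := by linarith
  obtain ⟨Y0, J, hY, hY1, hJ, hJ1, eA, eG⟩ := extreme (M := m1 - x) h0 h1 hx0 hM0 (by linarith)
  have hc := case_ext (M := m1 - x) h0 h1 hx0 hM0 (by linarith) hz hzx hY hY1 hJ hJ1
  have exM : x + (m1 - x) = m1 := by ring
  rw [exM] at eA eG
  have hE := Ex_eq (z := z) h0 h1 hx0 (by linarith) (by linarith)
  rw [← hE, ← eG, ← eA] at hc
  unfold FF
  have e : Ph ρ z - x * z * GG ρ x + x ^ 2 * (1 - z) * AA ρ x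
      + x * z * (GG ρ x - Gbar ρ m1 (1 / (1 - 2 * ρ * m1 + ρ ^ 2 * x ^ 2)))
      - x ^ 2 * (1 - z) * (AA ρ x - Abar ρ m1 (1 / (1 - 2 * ρ * m1 + ρ ^ 2 * x ^ 2)))
      - x ^ 2 / 2 * (m1 - x) * (1 - z)
      = Ph ρ z - x * z * Gbar ρ m1 (1 / (1 - 2 * ρ * m1 + ρ ^ 2 * x ^ 2))
        + x ^ 2 * (1 - z) * Abar ρ m1 (1 / (1 - 2 * ρ * m1 + ρ ^ 2 * x ^ 2))
        - x ^ 2 / 2 * (m1 - x) * (1 - z) := by
    ring
  rw [← e]
  exact hc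

end PairZAux

/-- Case `0 ≤ z ≤ x`. With `m₁ = (d+e)/2`, `M = m₁ - x`, `Ω* = 1/(1-2ρm₁+ρ²x²)`:
`FF_mono` reduces to `FF ρ x m₁ z Ω*`, and by `Ex_eq`, `extreme`
`FF ρ x m₁ z Ω* = E_x(z) + x z M (Y0+(1-x)J) - x²(1-z) M J - x²/2 M (1-z) ≥ 0` (`case_ext`). -/
theorem pair_low {ρ d e x z : ℝ} (h0 : 0 < ρ) (h1 : ρ < 1) (hd : 0 < d) (he : 0 < e)
    (hde : d + e ≤ 1) (hx0 : 0 ≤ x) (hx : x ^ 2 ≤ d * e) (hz : 0 ≤ z) (hzx : z ≤ x) :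
    0 ≤ FF ρ x ((d + e) / 2) z (om ρ d * om ρ e) := by
  obtain ⟨hA, hG, hΩ, hΩ', hxm⟩ := bar_eq h0 h1 hd he hde hx0 hx
  have hm : (d + e) / 2 ≤ 1 / 2 := by linarith
  refine le_trans ?_ (FF_mono h0 h1 hz hzx hxm hm hΩ hΩ')
  exact PairZAux.star_low h0 h1 hx0 hxm hm hz hzx

/-- Case `x ≤ z < 1`. `FF(z) = E_x(z) + L(z)`, `E_x(z) ≥ 0` (`δ³ω(z)ω(x)² ≤ 1`),
`L(z) = x z (Γ(x)-Γ̄) + x²(1-z)(Ā-A(x)) - x²/2 (m₁-x)(1-z)` is affine in `z`,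
`L(x) = FF(x) ≥ 0` (`pair_low`), `L(1) = x(Γ(x)-Γ̄) ≥ 0` (`Gbar_le` with `g₀ = Γ(x)`, `GG_anti`,
`extreme`). -/
theorem pair_high {ρ d e x z : ℝ} (h0 : 0 < ρ) (h1 : ρ < 1) (hd : 0 < d) (he : 0 < e)
    (hde : d + e ≤ 1) (hx0 : 0 ≤ x) (hx : x ^ 2 ≤ d * e) (hzx : x ≤ z) (hz : z < 1) :
    0 ≤ FF ρ x ((d + e) / 2) z (om ρ d * om ρ e) := by
  obtain ⟨hA, hG, hΩ, hΩ', hxm⟩ := bar_eq h0 h1 hd he hde hx0 hx
  have hm : (d + e) / 2 ≤ 1 / 2 := by linarith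
  have hxhalf : x ≤ 1 / 2 := le_trans hxm hm
  have hM0 : 0 ≤ (d + e) / 2 - x := by linarith
  -- the value at z = x
  have hlow := pair_low h0 h1 hd he hde hx0 hx hx0 (le_refl x)
  have hEx := Ex_eq (z := x) h0 h1 hx0 (by linarith) (by linarith)
  have hEz := Ex_eq (z := z) h0 h1 hx0 (by linarith) hz
  have hz0 : 0 ≤ z := le_trans hx0 hzx
  obtain ⟨-, hz2, -, -⟩ := om_facts h0 h1 hz0 hz.le
  obtain ⟨hx3, hx2, -, -⟩ := om_facts h0 h1 hx0 (by linarith : x ≤ 1)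
  obtain ⟨hz3, -, -, -⟩ := om_facts h0 h1 hz0 hz.le
  have hE : 0 ≤ (z - x) ^ 2 * (1 - (1 - ρ) ^ 3 * om ρ z * om ρ x ^ 2) / ρ := by
    apply div_nonneg _ h0.le
    apply mul_nonneg (sq_nonneg _)
    have e1 : (1 - ρ) ^ 3 * om ρ z * om ρ x ^ 2 = ((1 - ρ) * om ρ z) * ((1 - ρ) * om ρ x) ^ 2 := by ring
    rw [e1]
    have hδ : 0 < 1 - ρ := by linarith
    have a1 : 0 ≤ (1 - ρ) * om ρ z := mul_nonneg hδ.le (by linarith)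
    have a2 : 0 ≤ (1 - ρ) * om ρ x := mul_nonneg hδ.le (by linarith)
    have a3 : ((1 - ρ) * om ρ x) ^ 2 ≤ 1 := pow_le_one₀ a2 hx2
    have a4 : ((1 - ρ) * om ρ z) * ((1 - ρ) * om ρ x) ^ 2 ≤ 1 * 1 :=
      mul_le_mul hz2 a3 (sq_nonneg _) zero_le_one
    linarith
  -- the value at z = 1
  obtain ⟨Y0, J, hY, hY1, hJ, hJ1, eA, eG⟩ := extreme (M := (d + e) / 2 - x) h0 h1 hx0 hM0 (by linarith)
  have exM : x + ((d + e) / 2 - x) = (d + e) / 2 := by ring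
  rw [exM] at eA eG
  have hG1 : Gbar ρ ((d + e) / 2) (1 / (1 - 2 * ρ * ((d + e) / 2) + ρ ^ 2 * x ^ 2)) ≤ GG ρ x := by
    have : 0 ≤ ((d + e) / 2 - x) * (Y0 + (1 - x) * J) := by
      apply mul_nonneg hM0
      have : 0 ≤ (1 - x) * J := mul_nonneg (by linarith) hJ
      linarith
    linarith
  have hG2 : Gbar ρ ((d + e) / 2) (om ρ d * om ρ e) ≤ GG ρ x :=
    Gbar_le h0 h1 (by linarith) hm hΩ hΩ' (GG_anti h0 h1 hx0 hxm (by linarith)) hG1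
  unfold FF at hlow ⊢
  generalize Gbar ρ ((d + e) / 2) (om ρ d * om ρ e) = G at *
  generalize Abar ρ ((d + e) / 2) (om ρ d * om ρ e) = A at *
  have hL1 : 0 ≤ x * (GG ρ x - G) := mul_nonneg hx0 (by linarith)
  have hLx : 0 ≤ x * x * (GG ρ x - G) + x ^ 2 * (1 - x) * (A - AA ρ x)
      - x ^ 2 / 2 * ((d + e) / 2 - x) * (1 - x) := by
    have e2 : (x - x) ^ 2 * (1 - (1 - ρ) ^ 3 * om ρ x * om ρ x ^ 2) / ρ = 0 := by
      rw [sub_self]; ring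
    rw [e2] at hEx
    linarith
  have hLz : 0 ≤ x * z * (GG ρ x - G) + x ^ 2 * (1 - z) * (A - AA ρ x)
      - x ^ 2 / 2 * ((d + e) / 2 - x) * (1 - z) := by
    have h1x : 0 < 1 - x := by linarith
    have key : (1 - x) * (x * z * (GG ρ x - G) + x ^ 2 * (1 - z) * (A - AA ρ x)
        - x ^ 2 / 2 * ((d + e) / 2 - x) * (1 - z))
        = (1 - z) * (x * x * (GG ρ x - G) + x ^ 2 * (1 - x) * (A - AA ρ x)
          - x ^ 2 / 2 * ((d + e) / 2 - x) * (1 - x)) + (z - x) * (x * (GG ρ x - G)) := by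
      ring
    have h3 : 0 ≤ (1 - x) * (x * z * (GG ρ x - G) + x ^ 2 * (1 - z) * (A - AA ρ x)
        - x ^ 2 / 2 * ((d + e) / 2 - x) * (1 - z)) := by
      rw [key]
      exact add_nonneg (mul_nonneg (by linarith) hLx) (mul_nonneg (by linarith) hL1)
    exact nonneg_of_mul_nonneg_right h3 h1x
  rw [← hEz] at hE
  linarith

end Pool.Agent.RieszMix
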